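import Mathlib

/-!
# Mixed Poncelet–Steiner chains: definitions

The Euclidean plane is `ℂ`.
-/

namespace Pool.Agent.H44.PS

/-- The alphabet `{c, s}`. -/
inductive Letter
  | c
  | s
  deriving DecidableEq

/-- An annulus: two circles, the inner one `ω` (centre `cω`, radius `rω > 0`) and the outer one `k`
(centre `ck`, radius `rk`), with `ω` lying inside `k` (strictly; not necessarily concentric). -/
structure Annulus where
  cω : ℂ
  rω : ℝ
  ck : ℂ
  rk : ℝ
  rω_pos : 0 < rω
  inside : dist cω ck + rω < rk

/-- The inner circle. -/
def Annulus.ω (a : Annulus) : Set ℂ := Metric.sphere a.cω a.rω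

/-- The outer circle. -/
def Annulus.k (a : Annulus) : Set ℂ := Metric.sphere a.ck a.rk

/-- `u` is a circle inscribed in the annulus `a`: a circle of positive radius which is externally
tangent to `ω` and internally tangent to `k` (so that its disc lies between the two circles). -/
def IsInscribedCircle (a : Annulus) (u : Set ℂ) : Prop :=
  ∃ (z : ℂ) (ρ : ℝ), 0 < ρ ∧ u = Metric.sphere z ρ ∧
    dist z a.cω = a.rω + ρ ∧ dist z a.ck = a.rk - ρ

/-- `u` is a chord of `k` tangent to `ω`: a segment with two different endpoints on `k` that meets
the circle `ω` in exactly one point. -/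
def IsTangentChord (a : Annulus) (u : Set ℂ) : Prop :=
  ∃ P Q : ℂ, P ∈ a.k ∧ Q ∈ a.k ∧ P ≠ Q ∧ u = segment ℝ P Q ∧ ∃ T : ℂ, u ∩ a.ω = {T}

/-- The elements of a chain: inscribed circles for the letter `c`, tangent chords for `s`. -/
def IsElement (a : Annulus) : Letter → Set ℂ → Prop
  | Letter.c, u => IsInscribedCircle a u
  | Letter.s, u => IsTangentChord a u

/-- `P` is the contact point of the elements `u` (of type `x`) and `v` (of type `y`): it is their
only common point, and, if both are segments, it is a common endpoint, i.e. it lies on `k`.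
(An inscribed circle and another inscribed circle or a chord of `k` have exactly one common point
if and only if they are tangent.) -/
def IsContact (a : Annulus) (x y : Letter) (u v : Set ℂ) (P : ℂ) : Prop :=
  u ∩ v = {P} ∧ (x = Letter.s → y = Letter.s → P ∈ a.k)

/-- `Separates a x u P Q`: for a circle `u` (case `x = c`), its tangency points `A` with `ω` and `B`
with `k` separate the points `P` and `Q` of `u`, i.e. `P` and `Q` lie strictly on opposite sides of
the line `AB`; for a segment `u` (case `x = s`), its tangency point with `ω` lies strictly between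
`P` and `Q`. -/
def Separates (a : Annulus) : Letter → Set ℂ → ℂ → ℂ → Prop
  | Letter.c, u, P, Q =>
      ∃ A B : ℂ, u ∩ a.ω = {A} ∧ u ∩ a.k = {B} ∧ (line[ℝ, A, B]).SOppSide P Q
  | Letter.s, u, P, Q => ∃ T : ℂ, u ∩ a.ω = {T} ∧ Sbtw ℝ P T Q

/-- The letter with 0-based index `i` in the periodic continuation `w w w …` of the word `w`. -/
def letter (w : List Letter) (i : ℕ) : Letter := w.getD (i % w.length) Letter.c

/-- `u 0, u 1, …, u n` (with `n` the length of `w`) is a `w`-chain in the annulus `a`; the element
`u i` here is the element `u_{i+1}` of the problem. -/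
structure IsChain (a : Annulus) (w : List Letter) (u : ℕ → Set ℂ) : Prop where
  element : ∀ i, i ≤ w.length → IsElement a (letter w i) (u i)
  contact : ∀ i, i < w.length →
    ∃ P, IsContact a (letter w i) (letter w (i + 1)) (u i) (u (i + 1)) P
  separated : ∀ i, i + 1 < w.length → ∀ P Q,
    IsContact a (letter w i) (letter w (i + 1)) (u i) (u (i + 1)) P →
    IsContact a (letter w (i + 1)) (letter w (i + 2)) (u (i + 1)) (u (i + 2)) Q →
    Separates a (letter w (i + 1)) (u (i + 1)) P Q

/-- The initial element `u₁` yields a `w`-chain that closes. -/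
def Closes (a : Annulus) (w : List Letter) (u₁ : Set ℂ) : Prop :=
  ∃ u : ℕ → Set ℂ, IsChain a w u ∧ u 0 = u₁ ∧ u w.length = u₁

/-- `w` is a closure sequence (the later choices in a chain are free, as in the problem's
definition, which quantifies only over the initial element). -/
def IsClosureSequence (w : List Letter) : Prop :=
  (∀ a : Annulus, (∃ u₁, Closes a w u₁) →
    ∀ u₁, IsElement a (letter w 0) u₁ → Closes a w u₁) ∧
  (∃ (a : Annulus) (u₁ : Set ℂ), Closes a w u₁)

end Pool.Agent.H44.PS
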