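import Mathlib
import Pool.Agent.H44.PS.Defs

/-!
# The step maps of mixed Poncelet–Steiner chains

The annulus has outer circle the unit circle and inner circle of radius `r` and centre `e`.
Elements are parametrised by the angle `t` of their tangency point `e + r exp (i t)` with the
inner circle.
-/

namespace Pool.Agent.H44.PS

open Real

noncomputable section

/-- admissible parameters -/
structure Dom (r e : ℝ) : Prop where
  r_pos : 0 < r
  e_nonneg : 0 ≤ e
  lt_one : r + e < 1

/-- admissible parameters, including the degenerate case of tangent circles -/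
structure DomC (r e : ℝ) : Prop where
  r_pos : 0 < r
  e_nonneg : 0 ≤ e
  le_one : r + e ≤ 1

theorem Dom.domC {r e : ℝ} (h : Dom r e) : DomC r e := ⟨h.r_pos, h.e_nonneg, h.lt_one.le⟩

def fK (r e : ℝ) : ℝ := (1 + r) ^ 2 - e ^ 2
def fN (r e t : ℝ) : ℝ := 1 - r ^ 2 - e ^ 2 - 2 * e * r * cos t
def fL (r e t : ℝ) : ℝ := 1 + r + e * cos t
def fJ (r e t : ℝ) : ℝ := 1 - r - e * cos t

/-- half-angle tangent of the step from a letter to the next one -/
def fstep (r e : ℝ) : Letter → Letter → ℝ → ℝ
  | .c, .c, t => fN r e t / (2 * √(r * fK r e) - 2 * e * r * sin t)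
  | .c, .s, t => √(fN r e t / (2 * r * fL r e t))
  | .s, .c, t => (2 * e * r * sin t + √(2 * r * fK r e * fJ r e t)) /
      (2 * r * (1 + r - e * cos t))
  | .s, .s, t => (e * sin t + √(fJ r e t * fL r e t)) / r

/-- the step maps -/
def step (r e : ℝ) (x y : Letter) (t : ℝ) : ℝ := t + 2 * arctan (fstep r e x y t)

/-- the relation between the parameters of neighbouring elements -/
def Rel (r e : ℝ) : Letter → Letter → ℝ → ℝ → Prop
  | .c, .c, t, t' => fK r e ^ 2 * (1 - cos (t' - t)) = 2 * fN r e t * fN r e t'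
  | .c, .s, t, t' => fK r e * cos (t' - t) = 3 * r ^ 2 + 2 * r - 1 + e ^ 2 + 4 * e * r * cos t
  | .s, .c, t, t' => fK r e * cos (t' - t) = 3 * r ^ 2 + 2 * r - 1 + e ^ 2 + 4 * e * r * cos t'
  | .s, .s, t, t' => (1 - e ^ 2) * (1 + cos (t' - t)) / 2 - e * r * (cos t + cos t') - r ^ 2 = 0

/-- squared derivative of the step maps in terms of the two parameters -/
def ratio (r e : ℝ) : Letter → Letter → ℝ → ℝ → ℝ
  | .c, .c, t, t' => fN r e t' ^ 2 / fN r e t ^ 2
  | .c, .s, t, t' => fK r e * fJ r e t' / (fN r e t * fL r e t)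
  | .s, .c, t, t' => fN r e t' * fL r e t' / (fK r e * fJ r e t)
  | .s, .s, t, t' => (fJ r e t' * fL r e t') / (fJ r e t * fL r e t)

section basic

variable {r e : ℝ}

theorem e_lt_one (h : DomC r e) : e < 1 := by
  have := h.r_pos; have := h.le_one; linarith

theorem fK_ge (h : DomC r e) : 4 * r ≤ fK r e := by
  have h1 := h.r_pos; have h2 := h.le_one; have h3 := h.e_nonneg
  unfold fK
  nlinarith [mul_nonneg h3 (by linarith : (0:ℝ) ≤ 1 - r - e)]

theorem fK_pos (h : DomC r e) : 0 < fK r e := by
  have := fK_ge h; have := h.r_pos; linarith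

theorem e_cos_le (h : DomC r e) (t : ℝ) : e * cos t ≤ e := by
  have := h.e_nonneg; nlinarith [cos_le_one t]

theorem neg_e_le_e_cos (h : DomC r e) (t : ℝ) : -e ≤ e * cos t := by
  have := h.e_nonneg; nlinarith [neg_one_le_cos t]

theorem fL_ge (h : DomC r e) (t : ℝ) : 1 + r - e ≤ fL r e t := by
  unfold fL; linarith [neg_e_le_e_cos h t]

theorem fL_pos (h : DomC r e) (t : ℝ) : 0 < fL r e t := by
  have := fL_ge h t; have := h.r_pos; have := h.le_one; linarith

theorem fL_le (h : DomC r e) (t : ℝ) : fL r e t ≤ 2 := by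
  unfold fL; linarith [e_cos_le h t, h.le_one]

theorem fJ_nonneg (h : DomC r e) (t : ℝ) : 0 ≤ fJ r e t := by
  unfold fJ; linarith [e_cos_le h t, h.le_one]

theorem fJ_pos (h : Dom r e) (t : ℝ) : 0 < fJ r e t := by
  unfold fJ; linarith [e_cos_le h.domC t, h.lt_one]

theorem fJ_le (h : DomC r e) (t : ℝ) : fJ r e t ≤ 2 := by
  unfold fJ; linarith [neg_e_le_e_cos h t, h.r_pos, e_lt_one h]

theorem fN_ge (h : DomC r e) (t : ℝ) : (1 - r - e) * (1 + r + e) ≤ fN r e t := by
  unfold fN
  have h1 := e_cos_le h t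
  nlinarith [h.r_pos]

theorem fN_nonneg (h : DomC r e) (t : ℝ) : 0 ≤ fN r e t := by
  have h1 := fN_ge h t
  have : 0 ≤ (1 - r - e) * (1 + r + e) :=
    mul_nonneg (by linarith [h.le_one]) (by linarith [h.r_pos, h.e_nonneg])
  linarith

theorem fN_pos (h : Dom r e) (t : ℝ) : 0 < fN r e t := by
  have h1 := fN_ge h.domC t
  have : 0 < (1 - r - e) * (1 + r + e) :=
    mul_pos (by linarith [h.lt_one]) (by linarith [h.r_pos, h.e_nonneg])
  linarith

theorem sqrt_rK_ge (h : DomC r e) : 2 * r ≤ √(r * fK r e) := by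
  apply Real.le_sqrt_of_sq_le
  nlinarith [fK_ge h, h.r_pos]

theorem denC_pos (h : DomC r e) (t : ℝ) : 0 < 2 * √(r * fK r e) - 2 * e * r * sin t := by
  have h1 := sqrt_rK_ge h
  have h2 := sin_le_one t
  have h3 := e_lt_one h
  have h4 := h.r_pos
  have h5 := h.e_nonneg
  have : e * r * sin t ≤ e * r := by
    have := mul_nonneg h5 h4.le
    nlinarith
  nlinarith

theorem denS_pos (h : DomC r e) (t : ℝ) : 0 < 2 * r * (1 + r - e * cos t) := by
  have h1 := e_cos_le h t
  have h4 := h.r_pos
  have h3 := e_lt_one h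
  have : 0 < 1 + r - e * cos t := by linarith
  positivity

/-- key positivity: `e² sin² < J L`-/
theorem JL_sub (t : ℝ) : fJ r e t * fL r e t - (e * sin t) ^ 2 = fN r e t := by
  unfold fJ fL fN
  have := sin_sq_add_cos_sq t
  linear_combination (-e ^ 2) * this

theorem KJ_sub (t : ℝ) : 2 * r * fK r e * fJ r e t - (2 * e * r * sin t) ^ 2 =
    2 * r * (1 + r - e * cos t) * fN r e t := by
  unfold fJ fN fK
  have := sin_sq_add_cos_sq t
  linear_combination (-4 * e ^ 2 * r ^ 2) * this

theorem KLN (t : ℝ) : 2 * r * fL r e t + fN r e t = fK r e := by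
  unfold fL fN fK; ring

theorem fstep_pos (h : Dom r e) (x y : Letter) (t : ℝ) : 0 < fstep r e x y t := by
  have hr := h.r_pos
  have hN := fN_pos h t
  have hL := fL_pos h.domC t
  have hJ := fJ_pos h t
  have hK := fK_pos h.domC
  rcases x with _ | _ <;> rcases y with _ | _
  · exact div_pos hN (denC_pos h.domC t)
  · exact Real.sqrt_pos.mpr (by positivity)
  · apply div_pos _ (denS_pos h.domC t)
    have h1 := KJ_sub (r := r) (e := e) t
    have h2 : (2 * e * r * sin t) ^ 2 < 2 * r * fK r e * fJ r e t := by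
      have h3 : 0 < 2 * r * (1 + r - e * cos t) * fN r e t := mul_pos (denS_pos h.domC t) hN
      linarith
    have h4 : |2 * e * r * sin t| < √(2 * r * fK r e * fJ r e t) := by
      rw [← Real.sqrt_sq_eq_abs]
      exact Real.sqrt_lt_sqrt (sq_nonneg _) h2
    have := neg_abs_le (2 * e * r * sin t)
    linarith
  · apply div_pos _ hr
    have h1 := JL_sub (r := r) (e := e) t
    have h2 : (e * sin t) ^ 2 < fJ r e t * fL r e t := by linarith
    have h4 : |e * sin t| < √(fJ r e t * fL r e t) := by
      rw [← Real.sqrt_sq_eq_abs]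
      exact Real.sqrt_lt_sqrt (sq_nonneg _) h2
    have := neg_abs_le (e * sin t)
    linarith

theorem lt_step (h : Dom r e) (x y : Letter) (t : ℝ) : t < step r e x y t := by
  unfold step
  have := Real.arctan_pos.mpr (fstep_pos h x y t)
  linarith

theorem step_lt (x y : Letter) (t : ℝ) : step r e x y t < t + π := by
  unfold step
  have := Real.arctan_lt_pi_div_two (fstep r e x y t)
  linarith

theorem cos_two_arctan (f : ℝ) : cos (2 * arctan f) = (1 - f ^ 2) / (1 + f ^ 2) := by
  rw [cos_two_mul, cos_sq_arctan]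
  have : (1 + f ^ 2) ≠ 0 := by positivity
  field_simp
  ring

theorem sin_two_arctan (f : ℝ) : sin (2 * arctan f) = 2 * f / (1 + f ^ 2) := by
  have h0 : (0:ℝ) < 1 + f ^ 2 := by positivity
  rw [sin_two_mul, Real.sin_arctan, Real.cos_arctan]
  have : √(1 + f ^ 2) * √(1 + f ^ 2) = 1 + f ^ 2 := Real.mul_self_sqrt h0.le
  have h1 : √(1 + f ^ 2) ≠ 0 := (Real.sqrt_pos.mpr h0).ne'
  field_simp
  rw [Real.sq_sqrt h0.le]

/-! ### the neighbour relation holds for the step maps -/

theorem step_rel (h : Dom r e) (x y : Letter) (t : ℝ) : Rel r e x y t (step r e x y t) := by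
  have hr := h.r_pos
  have hN := fN_pos h t
  have hL := fL_pos h.domC t
  have hJ := fJ_pos h t
  have hK := fK_pos h.domC
  have hcs := sin_sq_add_cos_sq t
  have hdiff : step r e x y t - t = 2 * arctan (fstep r e x y t) := by unfold step; ring
  have hcos : cos (step r e x y t) =
      cos t * ((1 - fstep r e x y t ^ 2) / (1 + fstep r e x y t ^ 2)) -
      sin t * (2 * fstep r e x y t / (1 + fstep r e x y t ^ 2)) := by
    unfold step
    rw [cos_add, cos_two_arctan, sin_two_arctan]
  have hcd : cos (step r e x y t - t) =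
      (1 - fstep r e x y t ^ 2) / (1 + fstep r e x y t ^ 2) := by
    rw [hdiff, cos_two_arctan]
  have hfne : (1 + fstep r e x y t ^ 2) ≠ 0 := by positivity
  rcases x with _ | _ <;> rcases y with _ | _
  · -- c c
    simp only [Rel]
    rw [hcd]
    have hE := denC_pos h.domC t
    set f := fstep r e .c .c t with hf
    have hfE : f * (2 * √(r * fK r e) - 2 * e * r * sin t) = fN r e t := by
      rw [hf]; simp only [fstep]; exact div_mul_cancel₀ _ hE.ne'
    have hD : √(r * fK r e) ^ 2 = r * fK r e := Real.sq_sqrt (by positivity)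
    have hN' : fN r e (step r e .c .c t) = 1 - r ^ 2 - e ^ 2 -
        2 * e * r * (cos t * ((1 - f ^ 2) / (1 + f ^ 2)) - sin t * (2 * f / (1 + f ^ 2))) := by
      simp only [fN]; rw [hcos]
    rw [hN']
    have hKdef : fK r e = (1 + r) ^ 2 - e ^ 2 := rfl
    have hNdef : fN r e t = 1 - r ^ 2 - e ^ 2 - 2 * e * r * cos t := rfl
    set D := √(r * fK r e) with hDdef
    set K := fK r e with hKd
    set N := fN r e t with hNd
    have key : K ^ 2 * f ^ 2 = N * ((1 - r ^ 2 - e ^ 2) * (1 + f ^ 2) -
        2 * e * r * (cos t * (1 - f ^ 2) - 2 * sin t * f)) := by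
      have hK2 : K ^ 2 - 4 * r * K = (1 - r ^ 2 - e ^ 2) ^ 2 - 4 * e ^ 2 * r ^ 2 := by
        rw [hKdef]; ring
      have e1 : K ^ 2 - (2 * D - 2 * e * r * sin t) ^ 2 -
          4 * e * r * sin t * (2 * D - 2 * e * r * sin t) -
          N * (1 - r ^ 2 - e ^ 2 + 2 * e * r * cos t) = 0 := by
        rw [hNdef]
        linear_combination (-4) * hD + hK2 + (4 * e ^ 2 * r ^ 2) * hcs
      have e2 : N * (1 + f ^ 2 - 1 - f ^ 2) = 0 := by ring
      have e3 : (1 - r ^ 2 - e ^ 2) = N + 2 * e * r * cos t := by rw [hNdef]; ring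
      rw [e3] at e1 ⊢
      linear_combination (f ^ 2) * e1 +
        (N + f * (2 * D - 2 * e * r * sin t) + 4 * e * r * sin t * f) * hfE
    field_simp
    linear_combination 2 * key
  · -- c s
    simp only [Rel]
    rw [hcd]
    set f := fstep r e .c .s t with hf
    have hf2 : f ^ 2 * (2 * r * fL r e t) = fN r e t := by
      have : f ^ 2 = fN r e t / (2 * r * fL r e t) := by
        rw [hf]; simp only [fstep]; exact Real.sq_sqrt (by positivity)
      rw [this]; field_simp
    rw [mul_div_assoc', div_eq_iff hfne]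
    simp only [fK, fN, fL] at *
    linear_combination (-2) * hf2
  · -- s c
    simp only [Rel]
    rw [hcd, hcos]
    have hE := denS_pos h.domC t
    set f := fstep r e .s .c t with hf
    have hfE : f * (2 * r * (1 + r - e * cos t)) = 2 * e * r * sin t +
        √(2 * r * fK r e * fJ r e t) := by
      rw [hf]; simp only [fstep]; exact div_mul_cancel₀ _ hE.ne'
    have hD : √(2 * r * fK r e * fJ r e t) ^ 2 = 2 * r * fK r e * fJ r e t :=
      Real.sq_sqrt (by positivity)
    have hKJ := KJ_sub (r := r) (e := e) t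
    have key : f ^ 2 * (2 * r * (1 + r - e * cos t)) - 4 * e * r * sin t * f - fN r e t = 0 := by
      have h1 : (f * (2 * r * (1 + r - e * cos t)) - 2 * e * r * sin t) ^ 2 =
          2 * r * fK r e * fJ r e t := by
        rw [hfE, add_sub_cancel_left]; exact hD
      have h2 : (2 * r * (1 + r - e * cos t)) * (f ^ 2 * (2 * r * (1 + r - e * cos t)) -
        4 * e * r * sin t * f - fN r e t) = 0 := by
        linear_combination h1 + hKJ
      rcases mul_eq_zero.mp h2 with h3 | h3
      · exact absurd h3 hE.ne'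
      · exact h3
    simp only [fK, fN] at *
    field_simp
    linear_combination (-2) * key
  · -- s s
    simp only [Rel]
    rw [hcd, hcos]
    set f := fstep r e .s .s t with hf
    have hfE : f * r = e * sin t + √(fJ r e t * fL r e t) := by
      rw [hf]; simp only [fstep]; field_simp
    have hD : √(fJ r e t * fL r e t) ^ 2 = fJ r e t * fL r e t :=
      Real.sq_sqrt (by positivity)
    have key : f ^ 2 * r ^ 2 - 2 * e * r * f * sin t - fN r e t = 0 := by
      have h1 : (f * r - e * sin t) ^ 2 = fJ r e t * fL r e t := by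
        rw [hfE, add_sub_cancel_left]; exact hD
      have hJL := JL_sub (r := r) (e := e) t
      linear_combination h1 + hJL
    simp only [fN] at key
    field_simp
    linear_combination (-2) * key

/-- the relation is invariant under reflection -/
theorem Rel.neg {x y : Letter} {t t' : ℝ} (h : Rel r e x y t t') : Rel r e x y (-t) (-t') := by
  have h1 : cos (-t' - -t) = cos (t' - t) := by
    rw [show -t' - -t = -(t' - t) by ring, cos_neg]
  rcases x with _ | _ <;> rcases y with _ | _ <;> simp only [Rel, fN, cos_neg] at * <;>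
    rw [h1] <;> exact h

/-! ### uniqueness of the forward neighbour -/

theorem pos_root_unique {a b c X f : ℝ} (ha : 0 < a) (hc : 0 < c) (hX : 0 < X) (hf : 0 < f)
    (h1 : a * X ^ 2 - b * X - c = 0) (h2 : a * f ^ 2 - b * f - c = 0) : X = f := by
  have h3 : (X - f) * (a * (X + f) - b) = 0 := by linear_combination h1 - h2
  rcases mul_eq_zero.mp h3 with h4 | h4
  · linarith
  · exfalso
    have h5 : f * (a * f - b) = c := by linear_combination h2
    have h6 : 0 < a * f - b := by
      by_contra hcon
      push Not at hcon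
      have := mul_nonpos_of_nonneg_of_nonpos hf.le hcon
      linarith
    have := mul_pos ha hX
    nlinarith

theorem rel_quad (h : Dom r e) (x y : Letter) (t : ℝ) :
    ∃ a b c : ℝ, 0 < a ∧ 0 < c ∧ ∀ X : ℝ, Rel r e x y t (t + 2 * arctan X) →
      a * X ^ 2 - b * X - c = 0 := by
  have hr := h.r_pos
  have hN := fN_pos h t
  have hL := fL_pos h.domC t
  have hJ := fJ_pos h t
  have hK := fK_pos h.domC
  have hcs := sin_sq_add_cos_sq t
  have hcos : ∀ X : ℝ, cos (t + 2 * arctan X) =
      cos t * ((1 - X ^ 2) / (1 + X ^ 2)) - sin t * (2 * X / (1 + X ^ 2)) := by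
    intro X
    rw [cos_add, cos_two_arctan, sin_two_arctan]
  have hcd : ∀ X : ℝ, cos (t + 2 * arctan X - t) = (1 - X ^ 2) / (1 + X ^ 2) := by
    intro X
    rw [show t + 2 * arctan X - t = 2 * arctan X by ring, cos_two_arctan]
  rcases x with _ | _ <;> rcases y with _ | _
  · refine ⟨fK r e ^ 2 - fN r e t * (1 - r ^ 2 - e ^ 2 + 2 * e * r * cos t),
      4 * e * r * sin t * fN r e t, fN r e t ^ 2, ?_, by positivity, ?_⟩
    · have h1 : fK r e ^ 2 - fN r e t * (1 - r ^ 2 - e ^ 2 + 2 * e * r * cos t) =
          4 * r * fK r e - 4 * e ^ 2 * r ^ 2 * sin t ^ 2 := by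
        simp only [fK, fN]
        linear_combination (4 * e ^ 2 * r ^ 2) * hcs
      rw [h1]
      have h2 := fK_ge h.domC
      have h3 : e ^ 2 * r ^ 2 * sin t ^ 2 ≤ 1 ^ 2 * r ^ 2 * 1 := by
        have h5 : e ^ 2 ≤ 1 ^ 2 := by
          have := h.e_nonneg; have := e_lt_one h.domC; nlinarith
        have h6 : sin t ^ 2 ≤ 1 := by nlinarith [sq_nonneg (cos t)]
        have h7 := sq_nonneg r
        exact mul_le_mul (mul_le_mul_of_nonneg_right h5 h7) h6 (sq_nonneg _) (by positivity)
      nlinarith
    · intro X hX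
      simp only [Rel] at hX
      rw [hcd] at hX
      simp only [fN] at hX ⊢
      rw [hcos] at hX
      have : (1 + X ^ 2) ≠ 0 := by positivity
      field_simp at hX
      linear_combination (1 / 2) * hX
  · refine ⟨2 * r * fL r e t, 0, fN r e t, by positivity, hN, ?_⟩
    intro X hX
    simp only [Rel] at hX
    rw [hcd] at hX
    simp only [fN, fL, fK] at hX ⊢
    have : (1 + X ^ 2) ≠ 0 := by positivity
    field_simp at hX
    linear_combination (-1 / 2) * hX
  · refine ⟨2 * r * (1 + r - e * cos t), 4 * e * r * sin t, fN r e t, denS_pos h.domC t, hN, ?_⟩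
    intro X hX
    simp only [Rel] at hX
    rw [hcd, hcos] at hX
    simp only [fN, fK] at hX ⊢
    have : (1 + X ^ 2) ≠ 0 := by positivity
    field_simp at hX
    linear_combination (-1 / 2) * hX
  · refine ⟨r ^ 2, 2 * e * r * sin t, fN r e t, by positivity, hN, ?_⟩
    intro X hX
    simp only [Rel] at hX
    rw [hcd, hcos] at hX
    simp only [fN] at hX ⊢
    have : (1 + X ^ 2) ≠ 0 := by positivity
    field_simp at hX
    linear_combination (-1 / 2) * hX

theorem Rel.congr {x y : Letter} {t t' t'' : ℝ} (h : Rel r e x y t t') (h1 : cos t' = cos t'')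
    (h2 : cos (t' - t) = cos (t'' - t)) : Rel r e x y t t'' := by
  rcases x with _ | _ <;> rcases y with _ | _ <;> simp only [Rel, fN] at * <;>
    simp only [h1, h2] at h <;> exact h

/-- the forward neighbour is unique -/
theorem rel_unique (h : Dom r e) {x y : Letter} {t t' : ℝ} (hrel : Rel r e x y t t')
    (hs : 0 < sin (t' - t)) :
    cos t' = cos (step r e x y t) ∧ sin t' = sin (step r e x y t) := by
  set C := cos (t' - t) with hC
  set S := sin (t' - t) with hS
  have hCS : S ^ 2 + C ^ 2 = 1 := sin_sq_add_cos_sq _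
  have h1C : 0 < 1 + C := by
    have : -1 ≤ C := neg_one_le_cos _
    rcases this.lt_or_eq with h1 | h1
    · linarith
    · exfalso; rw [← h1] at hCS; nlinarith
  set X := S / (1 + C) with hX
  have hXpos : 0 < X := div_pos hs h1C
  have hXS : X * (1 + C) = S := div_mul_cancel₀ _ h1C.ne'
  have hX2 : (1 + X ^ 2) * (1 + C) = 2 := by
    have : (1 + C) * ((1 + X ^ 2) * (1 + C) - 2) = 0 := by
      have e1 : X ^ 2 * (1 + C) ^ 2 = S ^ 2 := by rw [← hXS]; ring
      linear_combination e1 + hCS
    rcases mul_eq_zero.mp this with h3 | h3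
    · exact absurd h3 h1C.ne'
    · linarith
  have hne : (1 + X ^ 2) ≠ 0 := by positivity
  have hCX : cos (2 * arctan X) = C := by
    rw [cos_two_arctan, div_eq_iff hne]
    linear_combination -hX2
  have hSX : sin (2 * arctan X) = S := by
    rw [sin_two_arctan, div_eq_iff hne, ← hXS]
    linear_combination (-X) * hX2
  have ht' : cos t' = cos (t + 2 * arctan X) ∧ sin t' = sin (t + 2 * arctan X) := by
    rw [cos_add, sin_add, hCX, hSX]
    have : t' = t + (t' - t) := by ring
    constructor
    · rw [this, cos_add]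
    · rw [this, sin_add]
  have hrel' : Rel r e x y t (t + 2 * arctan X) := by
    refine hrel.congr ht'.1 ?_
    rw [show t + 2 * arctan X - t = 2 * arctan X by ring, hCX]
  obtain ⟨a, b, c, ha, hc, hq⟩ := rel_quad h x y t
  have := pos_root_unique ha hc hXpos (fstep_pos h x y t) (hq X hrel')
    (hq _ (step_rel h x y t))
  rw [this] at ht'
  exact ht'

/-- the backward neighbour -/
theorem rel_unique_neg (h : Dom r e) {x y : Letter} {t t' : ℝ} (hrel : Rel r e x y t t')
    (hs : sin (t' - t) < 0) :
    cos t' = cos (-step r e x y (-t)) ∧ sin t' = sin (-step r e x y (-t)) := by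
  have h1 := rel_unique h hrel.neg (by
    rw [show -t' - -t = -(t' - t) by ring, sin_neg]; linarith)
  rw [cos_neg, sin_neg] at h1
  rw [cos_neg, sin_neg]
  exact ⟨h1.1, by linarith [h1.2]⟩

/-! ### smoothness and derivative of the step maps -/

theorem contDiff_fstep (h : Dom r e) (x y : Letter) {n : WithTop ℕ∞} :
    ContDiff ℝ n (fstep r e x y) := by
  have hr := h.r_pos
  have hsq : ∀ g : ℝ → ℝ, (∀ t, 0 < g t) → ContDiff ℝ n g → ContDiff ℝ n (fun t => √(g t)) := by
    intro g hg hc
    exact hc.sqrt (fun t => (hg t).ne')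
  have cN : ContDiff ℝ n (fN r e) := by
    unfold fN; exact contDiff_const.sub (contDiff_const.mul contDiff_cos)
  have cL : ContDiff ℝ n (fL r e) := by
    unfold fL; exact contDiff_const.add (contDiff_const.mul contDiff_cos)
  have cJ : ContDiff ℝ n (fJ r e) := by
    unfold fJ; exact contDiff_const.sub (contDiff_const.mul contDiff_cos)
  have hN := fN_pos h
  have hL := fL_pos h.domC
  have hJ := fJ_pos h
  have hK := fK_pos h.domC
  rcases x with _ | _ <;> rcases y with _ | _
  · exact cN.div (contDiff_const.sub (contDiff_const.mul contDiff_sin))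
      (fun t => (denC_pos h.domC t).ne')
  · apply hsq _ (fun t => _) _
    · intro t; have := hN t; have := hL t; positivity
    · exact cN.div (contDiff_const.mul cL) (fun t => by have := hL t; positivity)
  · apply ContDiff.div _ _ (fun t => (denS_pos h.domC t).ne')
    · refine (contDiff_const.mul contDiff_sin).add (hsq _ (fun t => ?_) ?_)
      · have := hJ t; positivity
      · exact contDiff_const.mul cJ
    · exact contDiff_const.mul (contDiff_const.sub (contDiff_const.mul contDiff_cos))
  · apply ContDiff.div _ contDiff_const (fun t => hr.ne')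
    refine (contDiff_const.mul contDiff_sin).add (hsq _ (fun t => ?_) ?_)
    · have := hJ t; have := hL t; positivity
    · exact cJ.mul cL

theorem contDiff_step (h : Dom r e) (x y : Letter) {n : WithTop ℕ∞} :
    ContDiff ℝ n (step r e x y) := by
  unfold step
  exact contDiff_id.add (contDiff_const.mul (Real.contDiff_arctan.comp (contDiff_fstep h x y)))

theorem ratio_pos (h : Dom r e) (x y : Letter) (t t' : ℝ) : 0 < ratio r e x y t t' := by
  have hr := h.r_pos
  have hN := fN_pos h t
  have hL := fL_pos h.domC t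
  have hJ := fJ_pos h t
  have hN' := fN_pos h t'
  have hL' := fL_pos h.domC t'
  have hJ' := fJ_pos h t'
  have hK := fK_pos h.domC
  rcases x with _ | _ <;> rcases y with _ | _ <;> simp only [ratio] <;> positivity

/-- the squared derivative of a step map -/
theorem step_hasDerivAt (h : Dom r e) (x y : Letter) (t : ℝ) :
    ∃ g' : ℝ, HasDerivAt (step r e x y) g' t ∧ g' ^ 2 = ratio r e x y t (step r e x y t) := by
  have hr := h.r_pos
  have hd : DifferentiableAt ℝ (step r e x y) t :=
    ((contDiff_step h x y (n := 1)).differentiable (by norm_num)).differentiableAt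
  obtain ⟨g', hg'⟩ : ∃ g', HasDerivAt (step r e x y) g' t := ⟨_, hd.hasDerivAt⟩
  refine ⟨g', hg', ?_⟩
  have hrel := step_rel h x y
  have hN := fN_pos h t
  have hL := fL_pos h.domC t
  have hJ := fJ_pos h t
  have hN' := fN_pos h (step r e x y t)
  have hL' := fL_pos h.domC (step r e x y t)
  have hJ' := fJ_pos h (step r e x y t)
  have hK := fK_pos h.domC
  have hcs := sin_sq_add_cos_sq t
  have hcs' := sin_sq_add_cos_sq (step r e x y t)
  have hid := hasDerivAt_id t
  have hct : HasDerivAt (fun t => cos t) (-sin t) t := hasDerivAt_cos t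
  have hcg : HasDerivAt (fun t => cos (step r e x y t)) (-sin (step r e x y t) * g') t := hg'.cos
  have hcd : HasDerivAt (fun t => cos (step r e x y t - t))
      (-sin (step r e x y t - t) * (g' - 1)) t := (hg'.sub hid).cos
  have hS := sin_sub (step r e x y t) t
  have hC := cos_sub (step r e x y t) t
  set g := step r e x y t with hg
  have hKN : fK r e ^ 2 + 4 * e ^ 2 * r ^ 2 - (1 - r ^ 2 - e ^ 2) ^ 2 = 4 * r * fK r e := by
    unfold fK; ring
  rcases x with _ | _ <;> rcases y with _ | _
  · -- cc
    have h0 : HasDerivAt (fun t => fK r e ^ 2 * (1 - cos (step r e .c .c t - t)) -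
        2 * fN r e t * fN r e (step r e .c .c t)) 0 t := by
      have : (fun t => fK r e ^ 2 * (1 - cos (step r e .c .c t - t)) -
        2 * fN r e t * fN r e (step r e .c .c t)) = fun _ => 0 := by
        funext s; have := hrel s; simp only [Rel] at this; linarith
      rw [this]; exact hasDerivAt_const _ _
    have hNt : HasDerivAt (fun t => 2 * fN r e t) (2 * (2 * e * r * sin t)) t := by
      unfold fN
      exact (((hct.const_mul (2 * e * r)).const_sub (1 - r ^ 2 - e ^ 2)).const_mul 2).congr_deriv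
        (by ring)
    have hNg : HasDerivAt (fun t => fN r e (step r e .c .c t)) (2 * e * r * sin g * g') t := by
      unfold fN
      exact ((hcg.const_mul (2 * e * r)).const_sub (1 - r ^ 2 - e ^ 2)).congr_deriv (by ring)
    have h1 := (((hcd.const_sub 1).const_mul (fK r e ^ 2)).sub (hNt.mul hNg)).unique h0
    have hrel0 := hrel t
    simp only [Rel] at hrel0
    rw [← hg] at hrel0
    simp only [← hg] at h1
    rw [hC] at hrel0
    rw [hS] at h1
    have hNdef : fN r e t = 1 - r ^ 2 - e ^ 2 - 2 * e * r * cos t := rfl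
    have hNdef' : fN r e g = 1 - r ^ 2 - e ^ 2 - 2 * e * r * cos g := rfl
    have hA : (fK r e ^ 2 * (sin g * cos t - cos g * sin t) -
        4 * e * r * fN r e t * sin g) ^ 2 = 16 * r * fK r e * fN r e t ^ 2 := by
      rw [hNdef'] at hrel0
      rw [hNdef] at hrel0 ⊢
      linear_combination (fK r e ^ 4 * (sin g ^ 2 + cos g ^ 2)) * hcs +
        (fK r e ^ 4 + 16 * e ^ 2 * r ^ 2 * (1 - r ^ 2 - e ^ 2 - 2 * e * r * cos t) ^ 2 -
          8 * e * r * (1 - r ^ 2 - e ^ 2 - 2 * e * r * cos t) * fK r e ^ 2 * cos t) * hcs' +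
        (fK r e ^ 2 * (cos g * cos t + sin g * sin t) -
          4 * e * r * (1 - r ^ 2 - e ^ 2 - 2 * e * r * cos t) * cos g + fK r e ^ 2 -
          2 * (1 - r ^ 2 - e ^ 2 - 2 * e * r * cos t) * (1 - r ^ 2 - e ^ 2)) * hrel0 +
        (4 * (1 - r ^ 2 - e ^ 2 - 2 * e * r * cos t) ^ 2) * hKN
    have hB : (fK r e ^ 2 * (sin g * cos t - cos g * sin t) +
        4 * e * r * fN r e g * sin t) ^ 2 = 16 * r * fK r e * fN r e g ^ 2 := by
      rw [hNdef'] at hrel0 ⊢
      rw [hNdef] at hrel0
      linear_combination (fK r e ^ 4 * (sin g ^ 2 + cos g ^ 2) +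
          16 * e ^ 2 * r ^ 2 * (1 - r ^ 2 - e ^ 2 - 2 * e * r * cos g) ^ 2 -
          8 * e * r * (1 - r ^ 2 - e ^ 2 - 2 * e * r * cos g) * fK r e ^ 2 * cos g) * hcs +
        (fK r e ^ 4) * hcs' +
        (fK r e ^ 2 * (cos g * cos t + sin g * sin t) -
          4 * e * r * (1 - r ^ 2 - e ^ 2 - 2 * e * r * cos g) * cos t + fK r e ^ 2 -
          2 * (1 - r ^ 2 - e ^ 2 - 2 * e * r * cos g) * (1 - r ^ 2 - e ^ 2)) * hrel0 +
        (4 * (1 - r ^ 2 - e ^ 2 - 2 * e * r * cos g) ^ 2) * hKN
    have h2 : g' * (fK r e ^ 2 * (sin g * cos t - cos g * sin t) -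
        4 * e * r * fN r e t * sin g) = fK r e ^ 2 * (sin g * cos t - cos g * sin t) +
        4 * e * r * fN r e g * sin t := by
      linear_combination h1
    have h3 : (16 * r * fK r e) * (g' ^ 2 * fN r e t ^ 2 - fN r e g ^ 2) = 0 := by
      have : (g' * (fK r e ^ 2 * (sin g * cos t - cos g * sin t) -
        4 * e * r * fN r e t * sin g)) ^ 2 = (fK r e ^ 2 * (sin g * cos t - cos g * sin t) +
        4 * e * r * fN r e g * sin t) ^ 2 := by rw [h2]
      rw [mul_pow, hA, hB] at this
      linear_combination this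
    simp only [ratio]
    rw [eq_div_iff (by positivity)]
    rcases mul_eq_zero.mp h3 with h4 | h4
    · exact absurd h4 (by positivity)
    · linarith
  · -- cs
    have h0 : HasDerivAt (fun t => fK r e * cos (step r e .c .s t - t) -
        4 * e * r * cos t) 0 t := by
      have : (fun t => fK r e * cos (step r e .c .s t - t) - 4 * e * r * cos t) =
          fun _ => 3 * r ^ 2 + 2 * r - 1 + e ^ 2 := by
        funext s; have := hrel s; simp only [Rel] at this; linarith
      rw [this]; exact hasDerivAt_const _ _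
    have h1 := ((hcd.const_mul (fK r e)).sub (hct.const_mul (4 * e * r))).unique h0
    have hrel0 := hrel t
    simp only [Rel] at hrel0
    rw [← hg] at hrel0
    rw [hC] at hrel0
    rw [hS] at h1
    have hKdef : fK r e = (1 + r) ^ 2 - e ^ 2 := rfl
    have hA : (fK r e * (sin g * cos t - cos g * sin t)) ^ 2 =
        8 * r * (fN r e t * fL r e t) := by
      have i1 : fK r e ^ 2 - (3 * r ^ 2 + 2 * r - 1 + e ^ 2 + 4 * e * r * cos t) ^ 2 =
          8 * r * (fN r e t * fL r e t) := by unfold fK fN fL; ring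
      linear_combination (fK r e ^ 2 * (sin g ^ 2 + cos g ^ 2)) * hcs + (fK r e ^ 2) * hcs' -
        (fK r e * (cos g * cos t + sin g * sin t) +
          (3 * r ^ 2 + 2 * r - 1 + e ^ 2 + 4 * e * r * cos t)) * hrel0 + i1
    have hB : (fK r e * (sin g * cos t - cos g * sin t) + 4 * e * r * sin t) ^ 2 =
        8 * r * (fK r e * fJ r e g) := by
      have i1 : fK r e ^ 2 + 16 * e ^ 2 * r ^ 2 - 8 * e * r * fK r e * cos g -
          (3 * r ^ 2 + 2 * r - 1 + e ^ 2) ^ 2 = 8 * r * (fK r e * fJ r e g) := by
        unfold fK fJ; ring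
      linear_combination (fK r e ^ 2 * (sin g ^ 2 + cos g ^ 2) + 16 * e ^ 2 * r ^ 2 -
          8 * e * r * fK r e * cos g) * hcs + (fK r e ^ 2) * hcs' -
        (fK r e * (cos g * cos t + sin g * sin t) - 4 * e * r * cos t +
          (3 * r ^ 2 + 2 * r - 1 + e ^ 2)) * hrel0 + i1
    have h2 : g' * (fK r e * (sin g * cos t - cos g * sin t)) =
        fK r e * (sin g * cos t - cos g * sin t) + 4 * e * r * sin t := by
      linear_combination -h1
    have h3 : (8 * r) * (g' ^ 2 * (fN r e t * fL r e t) - fK r e * fJ r e g) = 0 := by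
      have : (g' * (fK r e * (sin g * cos t - cos g * sin t))) ^ 2 =
        (fK r e * (sin g * cos t - cos g * sin t) + 4 * e * r * sin t) ^ 2 := by rw [h2]
      rw [mul_pow, hA, hB] at this
      linear_combination this
    simp only [ratio]
    rw [eq_div_iff (by positivity)]
    rcases mul_eq_zero.mp h3 with h4 | h4
    · exact absurd h4 (by positivity)
    · linarith
  · -- sc
    have h0 : HasDerivAt (fun t => fK r e * cos (step r e .s .c t - t) -
        4 * e * r * cos (step r e .s .c t)) 0 t := by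
      have : (fun t => fK r e * cos (step r e .s .c t - t) - 4 * e * r *
          cos (step r e .s .c t)) = fun _ => 3 * r ^ 2 + 2 * r - 1 + e ^ 2 := by
        funext s; have := hrel s; simp only [Rel] at this; linarith
      rw [this]; exact hasDerivAt_const _ _
    have h1 := ((hcd.const_mul (fK r e)).sub (hcg.const_mul (4 * e * r))).unique h0
    have hrel0 := hrel t
    simp only [Rel] at hrel0
    rw [← hg] at hrel0
    rw [hC] at hrel0
    rw [hS] at h1
    have hA : (fK r e * (sin g * cos t - cos g * sin t) - 4 * e * r * sin g) ^ 2 =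
        8 * r * (fK r e * fJ r e t) := by
      have i1 : fK r e ^ 2 + 16 * e ^ 2 * r ^ 2 - 8 * e * r * fK r e * cos t -
          (3 * r ^ 2 + 2 * r - 1 + e ^ 2) ^ 2 = 8 * r * (fK r e * fJ r e t) := by
        unfold fK fJ; ring
      linear_combination (fK r e ^ 2 * (sin g ^ 2 + cos g ^ 2)) * hcs +
        (fK r e ^ 2 + 16 * e ^ 2 * r ^ 2 - 8 * e * r * fK r e * cos t) * hcs' -
        (fK r e * (cos g * cos t + sin g * sin t) - 4 * e * r * cos g +
          (3 * r ^ 2 + 2 * r - 1 + e ^ 2)) * hrel0 + i1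
    have hB : (fK r e * (sin g * cos t - cos g * sin t)) ^ 2 =
        8 * r * (fN r e g * fL r e g) := by
      have i1 : fK r e ^ 2 - (3 * r ^ 2 + 2 * r - 1 + e ^ 2 + 4 * e * r * cos g) ^ 2 =
          8 * r * (fN r e g * fL r e g) := by unfold fK fN fL; ring
      linear_combination (fK r e ^ 2 * (sin g ^ 2 + cos g ^ 2)) * hcs + (fK r e ^ 2) * hcs' -
        (fK r e * (cos g * cos t + sin g * sin t) +
          (3 * r ^ 2 + 2 * r - 1 + e ^ 2 + 4 * e * r * cos g)) * hrel0 + i1
    have h2 : g' * (fK r e * (sin g * cos t - cos g * sin t) - 4 * e * r * sin g) =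
        fK r e * (sin g * cos t - cos g * sin t) := by
      linear_combination -h1
    have h3 : (8 * r) * (g' ^ 2 * (fK r e * fJ r e t) - fN r e g * fL r e g) = 0 := by
      have : (g' * (fK r e * (sin g * cos t - cos g * sin t) - 4 * e * r * sin g)) ^ 2 =
        (fK r e * (sin g * cos t - cos g * sin t)) ^ 2 := by rw [h2]
      rw [mul_pow, hA, hB] at this
      linear_combination this
    simp only [ratio]
    rw [eq_div_iff (by positivity)]
    rcases mul_eq_zero.mp h3 with h4 | h4
    · exact absurd h4 (by positivity)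
    · linarith
  · -- ss
    have h0 : HasDerivAt (fun t => (1 - e ^ 2) / 2 * (1 + cos (step r e .s .s t - t)) -
        e * r * (cos t + cos (step r e .s .s t))) 0 t := by
      have : (fun t => (1 - e ^ 2) / 2 * (1 + cos (step r e .s .s t - t)) -
        e * r * (cos t + cos (step r e .s .s t))) = fun _ => r ^ 2 := by
        funext s; have := hrel s; simp only [Rel] at this; linarith
      rw [this]; exact hasDerivAt_const _ _
    have h1 := (((hcd.const_add 1).const_mul ((1 - e ^ 2) / 2)).sub
      ((hct.add hcg).const_mul (e * r))).unique h0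
    have hrel0 := hrel t
    simp only [Rel] at hrel0
    rw [← hg] at hrel0
    rw [hC] at hrel0
    rw [hS] at h1
    have hA : ((1 - e ^ 2) / 2 * (sin g * cos t - cos g * sin t) - e * r * sin g) ^ 2 =
        r ^ 2 * (fJ r e t * fL r e t) := by
      have i1 : ((1 - e ^ 2) / 2) ^ 2 + e ^ 2 * r ^ 2 - (1 - e ^ 2) * e * r * cos t -
          (r ^ 2 - (1 - e ^ 2) / 2 + e * r * cos t) ^ 2 = r ^ 2 * (fJ r e t * fL r e t) := by
        unfold fJ fL; ring
      linear_combination (((1 - e ^ 2) / 2) ^ 2 * (sin g ^ 2 + cos g ^ 2)) * hcs +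
        (((1 - e ^ 2) / 2) ^ 2 + e ^ 2 * r ^ 2 - (1 - e ^ 2) * e * r * cos t) * hcs' -
        ((1 - e ^ 2) / 2 * (cos g * cos t + sin g * sin t) - e * r * cos g +
          (r ^ 2 - (1 - e ^ 2) / 2 + e * r * cos t)) * hrel0 + i1
    have hB : ((1 - e ^ 2) / 2 * (sin g * cos t - cos g * sin t) + e * r * sin t) ^ 2 =
        r ^ 2 * (fJ r e g * fL r e g) := by
      have i1 : ((1 - e ^ 2) / 2) ^ 2 + e ^ 2 * r ^ 2 - (1 - e ^ 2) * e * r * cos g -
          (r ^ 2 - (1 - e ^ 2) / 2 + e * r * cos g) ^ 2 = r ^ 2 * (fJ r e g * fL r e g) := by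
        unfold fJ fL; ring
      linear_combination (((1 - e ^ 2) / 2) ^ 2 * (sin g ^ 2 + cos g ^ 2) + e ^ 2 * r ^ 2 -
          (1 - e ^ 2) * e * r * cos g) * hcs +
        (((1 - e ^ 2) / 2) ^ 2) * hcs' -
        ((1 - e ^ 2) / 2 * (cos g * cos t + sin g * sin t) - e * r * cos t +
          (r ^ 2 - (1 - e ^ 2) / 2 + e * r * cos g)) * hrel0 + i1
    have h2 : g' * ((1 - e ^ 2) / 2 * (sin g * cos t - cos g * sin t) - e * r * sin g) =
        (1 - e ^ 2) / 2 * (sin g * cos t - cos g * sin t) + e * r * sin t := by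
      linear_combination -h1
    have h3 : (r ^ 2) * (g' ^ 2 * (fJ r e t * fL r e t) - fJ r e g * fL r e g) = 0 := by
      have : (g' * ((1 - e ^ 2) / 2 * (sin g * cos t - cos g * sin t) - e * r * sin g)) ^ 2 =
        ((1 - e ^ 2) / 2 * (sin g * cos t - cos g * sin t) + e * r * sin t) ^ 2 := by rw [h2]
      rw [mul_pow, hA, hB] at this
      linear_combination this
    simp only [ratio]
    rw [eq_div_iff (by positivity)]
    rcases mul_eq_zero.mp h3 with h4 | h4
    · exact absurd h4 (by positivity)
    · linarith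

end basic

end

end Pool.Agent.H44.PS
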