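import Mathlib
import Pool.Agent.H44.PS.Steps

/-!
# Iterated steps, closing annuli and the product identity
-/

namespace Pool.Agent.H44.PS

open Real Finset

noncomputable section

/-- position after `i` steps, starting with the letter of index `j` at position `x` -/
def run (r e : ℝ) (l : ℕ → Letter) (j : ℕ) : ℕ → ℝ → ℝ
  | 0, x => x
  | (i + 1), x => step r e (l (j + i)) (l (j + i + 1)) (run r e l j i x)

variable {r e : ℝ} {l : ℕ → Letter}

theorem fstep_two_pi (x y : Letter) (t : ℝ) : fstep r e x y (t + 2 * π) = fstep r e x y t := by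
  rcases x with _ | _ <;> rcases y with _ | _ <;>
    simp only [fstep, fN, fL, fJ, cos_add_two_pi, sin_add_two_pi]

theorem step_two_pi (x y : Letter) (t : ℝ) :
    step r e x y (t + 2 * π) = step r e x y t + 2 * π := by
  unfold step; rw [fstep_two_pi]; ring

theorem run_two_pi (j i : ℕ) (x : ℝ) : run r e l j i (x + 2 * π) = run r e l j i x + 2 * π := by
  induction i with
  | zero => rfl
  | succ i ih => simp only [run]; rw [ih, step_two_pi]

theorem run_add (j m i : ℕ) (x : ℝ) :
    run r e l j (m + i) x = run r e l (j + m) i (run r e l j m x) := by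
  induction i with
  | zero => rfl
  | succ i ih =>
    rw [← add_assoc]
    simp only [run]
    rw [ih]
    simp only [add_assoc]

theorem run_periodic {n : ℕ} (hper : ∀ i, l (i + n) = l i) (j i : ℕ) (x : ℝ) :
    run r e l (j + n) i x = run r e l j i x := by
  induction i with
  | zero => rfl
  | succ i ih =>
    simp only [run]
    rw [ih]
    have h1 : l (j + n + i) = l (j + i) := by rw [← hper (j + i)]; congr 1; ring
    have h2 : l (j + n + i + 1) = l (j + i + 1) := by rw [← hper (j + i + 1)]; congr 1; ring
    rw [h1, h2]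

theorem contDiff_run (h : Dom r e) (j i : ℕ) {n : WithTop ℕ∞} :
    ContDiff ℝ n (run r e l j i) := by
  induction i with
  | zero => exact contDiff_id
  | succ i ih => exact (contDiff_step h _ _).comp ih

theorem lt_run_succ (h : Dom r e) (j i : ℕ) (x : ℝ) : run r e l j i x < run r e l j (i + 1) x :=
  lt_step h _ _ _

theorem run_strictMono (h : Dom r e) (j : ℕ) (x : ℝ) : StrictMono (fun i => run r e l j i x) :=
  strictMono_nat_of_lt_succ (fun i => lt_run_succ h j i x)

theorem run_surjective (h : Dom r e) (j i : ℕ) : Function.Surjective (run r e l j i) := by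
  have hc : Continuous (run r e l j i) := (contDiff_run h j i (n := 0)).continuous
  have hp : ∀ (k : ℤ) (x : ℝ), run r e l j i (x + k * (2 * π)) = run r e l j i x + k * (2 * π) := by
    have hnat : ∀ (k : ℕ) (x : ℝ),
        run r e l j i (x + k * (2 * π)) = run r e l j i x + k * (2 * π) := by
      intro k
      induction k with
      | zero => intro x; simp
      | succ k ih =>
        intro x
        have : x + ((k + 1 : ℕ) : ℝ) * (2 * π) = (x + k * (2 * π)) + 2 * π := by push_cast; ring
        rw [this, run_two_pi, ih]; push_cast; ring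
    intro k x
    obtain ⟨m, rfl | rfl⟩ := k.eq_nat_or_neg
    · exact_mod_cast hnat m x
    · have := hnat m (x + ((-(m : ℤ) : ℤ) : ℝ) * (2 * π))
      have h2 : x + ((-(m : ℤ) : ℤ) : ℝ) * (2 * π) + m * (2 * π) = x := by push_cast; ring
      rw [h2] at this
      push_cast at this ⊢
      linarith
  intro y
  obtain ⟨k, hk⟩ := exists_int_gt ((y - run r e l j i 0) / (2 * π))
  obtain ⟨k', hk'⟩ := exists_int_lt ((y - run r e l j i 0) / (2 * π))
  have hpi : 0 < 2 * π := by positivity
  rw [div_lt_iff₀ hpi] at hk
  rw [lt_div_iff₀ hpi] at hk'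
  have h1 : y ≤ run r e l j i (0 + k * (2 * π)) := by rw [hp]; linarith
  have h2 : run r e l j i (0 + k' * (2 * π)) ≤ y := by rw [hp]; linarith
  exact mem_range_of_exists_le_of_exists_ge hc ⟨_, h2⟩ ⟨_, h1⟩

/-- squared derivative of a run -/
theorem run_hasDerivAt (h : Dom r e) (j n : ℕ) (x : ℝ) :
    ∃ d : ℝ, HasDerivAt (run r e l j n) d x ∧
      d ^ 2 = ∏ i ∈ range n, ratio r e (l (j + i)) (l (j + i + 1)) (run r e l j i x)
        (run r e l j (i + 1) x) := by
  induction n with
  | zero => exact ⟨1, hasDerivAt_id x, by simp⟩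
  | succ n ih =>
    obtain ⟨d, hd, hd2⟩ := ih
    obtain ⟨g, hg, hg2⟩ := step_hasDerivAt h (l (j + n)) (l (j + n + 1)) (run r e l j n x)
    refine ⟨g * d, hg.comp x hd, ?_⟩
    rw [prod_range_succ, mul_pow, hg2, hd2, mul_comm]
    rfl

/-! ### potentials -/

/-- potential -/
def pot (r e : ℝ) : Letter → ℝ → ℝ
  | .c, t => fN r e t
  | .s, t => fK r e * fJ r e t

/-- normalised ratio -/
def theta (r e : ℝ) : Letter → Letter → ℝ → ℝ → ℝ
  | .c, .c, t, t' => fN r e t' / fN r e t
  | .c, .s, t, _ => 1 / fL r e t
  | .s, .c, _, t' => fL r e t'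
  | .s, .s, t, t' => fL r e t' / fL r e t

theorem pot_pos (h : Dom r e) (x : Letter) (t : ℝ) : 0 < pot r e x t := by
  have hN := fN_pos h t
  have hJ := fJ_pos h t
  have hK := fK_pos h.domC
  rcases x with _ | _ <;> simp only [pot] <;> positivity

theorem pot_two_pi (x : Letter) (t : ℝ) : pot r e x (t + 2 * π) = pot r e x t := by
  rcases x with _ | _ <;> simp only [pot, fN, fJ, cos_add_two_pi]

theorem theta_pos (h : Dom r e) (x y : Letter) (t t' : ℝ) : 0 < theta r e x y t t' := by
  have hN := fN_pos h t
  have hN' := fN_pos h t'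
  have hL := fL_pos h.domC t
  have hL' := fL_pos h.domC t'
  rcases x with _ | _ <;> rcases y with _ | _ <;> simp only [theta] <;> positivity

theorem ratio_eq (h : Dom r e) (x y : Letter) (t t' : ℝ) :
    ratio r e x y t t' = theta r e x y t t' * (pot r e y t' / pot r e x t) := by
  have hN := fN_pos h t
  have hL := fL_pos h.domC t
  have hJ := fJ_pos h t
  have hN' := fN_pos h t'
  have hL' := fL_pos h.domC t'
  have hJ' := fJ_pos h t'
  have hK := fK_pos h.domC
  rcases x with _ | _ <;> rcases y with _ | _ <;> simp only [ratio, theta, pot] <;> field_simp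

theorem prod_telescope (f : ℕ → ℝ) (hf : ∀ i, f i ≠ 0) (n : ℕ) :
    ∏ i ∈ range n, f (i + 1) / f i = f n / f 0 := by
  induction n with
  | zero => simp [hf 0]
  | succ n ih =>
    rw [prod_range_succ, ih]
    have := hf n; have := hf 0
    field_simp

/-- If all chains close after one turn, the product of the normalised ratios along every chain
is one. -/
theorem prod_theta (h : Dom r e) {n : ℕ} {j : ℕ} (hper : l (j + n) = l j)
    (hid : ∀ x, run r e l j n x = x + 2 * π) (x : ℝ) :
    ∏ i ∈ range n, theta r e (l (j + i)) (l (j + i + 1)) (run r e l j i x)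
        (run r e l j (i + 1) x) = 1 := by
  obtain ⟨d, hd, hd2⟩ := run_hasDerivAt (l := l) h j n x
  have h1 : run r e l j n = fun x => x + 2 * π := funext hid
  rw [h1] at hd
  have hd1 : d = 1 := hd.unique ((hasDerivAt_id x).add_const _)
  rw [hd1] at hd2
  simp only [ratio_eq h] at hd2
  rw [prod_mul_distrib] at hd2
  have h2 : ∏ i ∈ range n, (pot r e (l (j + i + 1)) (run r e l j (i + 1) x) /
      pot r e (l (j + i)) (run r e l j i x)) = 1 := by
    have := prod_telescope (fun i => pot r e (l (j + i)) (run r e l j i x))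
      (fun i => (pot_pos h _ _).ne') n
    simp only [← add_assoc] at this
    rw [this, hper, hid]
    simp only [run, add_zero]
    rw [pot_two_pi]
    exact div_self (pot_pos h _ _).ne'
  rw [h2] at hd2
  linarith

end

end Pool.Agent.H44.PS
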