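import Mathlib
import Pool.Agent.H44.PS.Run

/-!
# Existence of closing annuli of high eccentricity
-/

namespace Pool.Agent.H44.PS

open Real Finset Set

noncomputable section

variable {r e : ℝ} {l : ℕ → Letter}

theorem continuousOn_fstep (x y : Letter) {g : ℝ → ℝ} {S : Set ℝ}
    (hS : ∀ e ∈ S, DomC r e) (hg : ContinuousOn g S) :
    ContinuousOn (fun e => fstep r e x y (g e)) S := by
  have cN : ContinuousOn (fun e => fN r e (g e)) S := by unfold fN; fun_prop
  have cL : ContinuousOn (fun e => fL r e (g e)) S := by unfold fL; fun_prop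
  have cJ : ContinuousOn (fun e => fJ r e (g e)) S := by unfold fJ; fun_prop
  have cK : ContinuousOn (fun e => fK r e) S := by unfold fK; fun_prop
  rcases x with _ | _ <;> rcases y with _ | _ <;> simp only [fstep]
  · apply cN.div
    · have c1 : ContinuousOn (fun e => √(r * fK r e)) S :=
        Real.continuous_sqrt.comp_continuousOn (continuousOn_const.mul cK)
      fun_prop
    · intro e he; exact (denC_pos (hS e he) _).ne'
  · apply Real.continuous_sqrt.comp_continuousOn
    apply cN.div (continuousOn_const.mul cL)
    intro e he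
    have h1 := fL_pos (hS e he) (g e)
    have h2 := (hS e he).r_pos
    show 2 * r * fL r e (g e) ≠ 0
    positivity
  · apply ContinuousOn.div
    · apply ContinuousOn.add
      · fun_prop
      · exact Real.continuous_sqrt.comp_continuousOn ((continuousOn_const.mul cK).mul cJ)
    · fun_prop
    · intro e he; exact (denS_pos (hS e he) _).ne'
  · apply ContinuousOn.div
    · apply ContinuousOn.add
      · fun_prop
      · exact Real.continuous_sqrt.comp_continuousOn (cJ.mul cL)
    · fun_prop
    · intro e he; exact (hS e he).r_pos.ne'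

theorem continuousOn_run {S : Set ℝ} (hS : ∀ e ∈ S, DomC r e) (j i : ℕ) (x : ℝ) :
    ContinuousOn (fun e => run r e l j i x) S := by
  induction i with
  | zero => simp only [run]; exact continuousOn_const
  | succ i ih =>
    simp only [run, step]
    exact ih.add (continuousOn_const.mul
      (Real.continuous_arctan.comp_continuousOn (continuousOn_fstep _ _ hS ih)))

/-- tangent circles: the position `0` is fixed -/
theorem step_tangent (x y : Letter) : step r (1 - r) x y 0 = 0 := by
  have h1 : fN r (1 - r) 0 = 0 := by simp only [fN, cos_zero]; ring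
  have h2 : fJ r (1 - r) 0 = 0 := by simp only [fJ, cos_zero]; ring
  unfold step
  rcases x with _ | _ <;> rcases y with _ | _ <;> simp [fstep, h1, h2]

theorem run_tangent (j i : ℕ) : run r (1 - r) l j i 0 = 0 := by
  induction i with
  | zero => rfl
  | succ i ih => simp only [run]; rw [ih, step_tangent]

theorem arctan_sqrt_three_le {f : ℝ} (hf : √3 ≤ f) : π / 3 ≤ arctan f := by
  rw [← Real.arctan_sqrt_three]
  exact Real.arctan_mono hf

/-- small inner circle with a gap: long steps -/
theorem long_step {η : ℝ} (h0 : 0 < η) (h1 : η ≤ 1) (x y : Letter) (t : ℝ) :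
    t + 2 * π / 3 ≤ step (η / 100) (1 - η / 2) x y t := by
  have hd : Dom (η / 100) (1 - η / 2) := ⟨by linarith, by linarith, by linarith⟩
  have h3 : √3 ≤ 2 := by
    rw [show (2:ℝ) = √(2 ^ 2) by rw [Real.sqrt_sq (by norm_num)]]
    exact Real.sqrt_le_sqrt (by norm_num)
  have key : √3 ≤ fstep (η / 100) (1 - η / 2) x y t := by
    have hN := fN_ge hd.domC t
    have hN2 : (49 / 100 * η) * (3 / 2) ≤ fN (η / 100) (1 - η / 2) t := by
      refine le_trans ?_ hN
      nlinarith
    have hL := fL_le hd.domC t
    have hL0 := fL_pos hd.domC t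
    have hK : fK (η / 100) (1 - η / 2) ≤ 102 / 100 * η := by
      unfold fK; nlinarith
    have hK0 := fK_pos hd.domC
    have hJ := fJ_le hd.domC t
    have hJ0 := fJ_pos hd t
    have hs1 := sin_le_one t
    have hs2 := neg_one_le_sin t
    have he1 : (1 - η / 2) * (η / 100) * sin t ≤ η / 100 := by
      have : (1 - η / 2) * sin t ≤ 1 := by nlinarith
      nlinarith
    have he2 : -(η / 100) ≤ (1 - η / 2) * (η / 100) * sin t := by
      have : -1 ≤ (1 - η / 2) * sin t := by nlinarith
      nlinarith
    rcases x with _ | _ <;> rcases y with _ | _ <;> simp only [fstep]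
    · -- cc
      have hden := denC_pos hd.domC t
      refine le_trans h3 ?_
      rw [le_div_iff₀ hden]
      have hsq : √(η / 100 * fK (η / 100) (1 - η / 2)) ≤ 11 / 100 * η := by
        rw [Real.sqrt_le_left (by positivity)]
        nlinarith
      nlinarith
    · -- cs
      apply Real.sqrt_le_sqrt
      rw [le_div_iff₀ (by positivity)]
      nlinarith
    · -- sc
      have hden := denS_pos hd.domC t
      refine le_trans h3 ?_
      have hKJ := KJ_sub (r := η / 100) (e := 1 - η / 2) t
      set q := √(2 * (η / 100) * fK (η / 100) (1 - η / 2) * fJ (η / 100) (1 - η / 2) t) with hq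
      have hqs : q ^ 2 = 2 * (η / 100) * fK (η / 100) (1 - η / 2) *
          fJ (η / 100) (1 - η / 2) t := Real.sq_sqrt (by positivity)
      have hq0 : 0 ≤ q := Real.sqrt_nonneg _
      have hqle : q ≤ 21 / 100 * η := by
        rw [hq, Real.sqrt_le_left (by positivity)]
        have : fK (η / 100) (1 - η / 2) * fJ (η / 100) (1 - η / 2) t ≤ (102 / 100 * η) * 2 :=
          mul_le_mul hK hJ hJ0.le (by positivity)
        nlinarith
      have hd1 : 0 < q - 2 * (1 - η / 2) * (η / 100) * sin t := by
        have h2 : (2 * (1 - η / 2) * (η / 100) * sin t) ^ 2 < q ^ 2 := by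
          rw [hqs]
          have h3 : 0 < 2 * (η / 100) * (1 + η / 100 - (1 - η / 2) * cos t) *
            fN (η / 100) (1 - η / 2) t := mul_pos hden (fN_pos hd t)
          linarith
        have h4 := abs_lt_of_sq_lt_sq h2 hq0
        have := le_abs_self (2 * (1 - η / 2) * (η / 100) * sin t)
        linarith
      rw [le_div_iff₀ hden]
      have h5 : (2 * (1 - η / 2) * (η / 100) * sin t + q) *
          (q - 2 * (1 - η / 2) * (η / 100) * sin t) =
          2 * (η / 100) * (1 + η / 100 - (1 - η / 2) * cos t) * fN (η / 100) (1 - η / 2) t := by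
        linear_combination hqs + hKJ
      have h6 : 2 * (q - 2 * (1 - η / 2) * (η / 100) * sin t) ≤ fN (η / 100) (1 - η / 2) t := by
        nlinarith
      have h7 : 2 * (2 * (η / 100) * (1 + η / 100 - (1 - η / 2) * cos t)) *
          (q - 2 * (1 - η / 2) * (η / 100) * sin t) ≤
          (2 * (1 - η / 2) * (η / 100) * sin t + q) *
          (q - 2 * (1 - η / 2) * (η / 100) * sin t) := by
        rw [h5]
        have := mul_le_mul_of_nonneg_left h6 hden.le
        linarith
      exact le_of_mul_le_mul_right h7 hd1
    · -- ss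
      refine le_trans h3 ?_
      have hr : (0:ℝ) < η / 100 := by positivity
      have hJL := JL_sub (r := η / 100) (e := 1 - η / 2) t
      set q := √(fJ (η / 100) (1 - η / 2) t * fL (η / 100) (1 - η / 2) t) with hq
      have hqs : q ^ 2 = fJ (η / 100) (1 - η / 2) t * fL (η / 100) (1 - η / 2) t :=
        Real.sq_sqrt (by positivity)
      have hq0 : 0 ≤ q := Real.sqrt_nonneg _
      have hqle : q ≤ 2 := by
        rw [hq, Real.sqrt_le_left (by positivity)]
        nlinarith
      have hd1 : 0 < q - (1 - η / 2) * sin t := by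
        have h2 : ((1 - η / 2) * sin t) ^ 2 < q ^ 2 := by
          rw [hqs]; have := fN_pos hd t; linarith
        have h4 := abs_lt_of_sq_lt_sq h2 hq0
        have := le_abs_self ((1 - η / 2) * sin t)
        linarith
      rw [le_div_iff₀ hr]
      have h5 : ((1 - η / 2) * sin t + q) * (q - (1 - η / 2) * sin t) =
          fN (η / 100) (1 - η / 2) t := by
        linear_combination hqs + hJL
      have h6 : q - (1 - η / 2) * sin t ≤ 3 := by nlinarith
      have h7 : 2 * (η / 100) * (q - (1 - η / 2) * sin t) ≤
          ((1 - η / 2) * sin t + q) * (q - (1 - η / 2) * sin t) := by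
        rw [h5]
        nlinarith
      exact le_of_mul_le_mul_right h7 hd1
  have := arctan_sqrt_three_le key
  unfold step
  linarith

theorem long_run {η : ℝ} (h0 : 0 < η) (h1 : η ≤ 1) (j i : ℕ) (x : ℝ) :
    x + i * (2 * π / 3) ≤ run (η / 100) (1 - η / 2) l j i x := by
  induction i with
  | zero => simp [run]
  | succ i ih =>
    have := long_step h0 h1 (l (j + i)) (l (j + i + 1)) (run (η / 100) (1 - η / 2) l j i x)
    simp only [run]
    push_cast
    linarith

/-- existence of very eccentric annuli in which the chain starting at position `0` closes after one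
turn -/
theorem exists_closing (l : ℕ → Letter) {n : ℕ} (hn : 3 ≤ n) {η : ℝ} (h0 : 0 < η) (h1 : η ≤ 1) :
    ∃ r e : ℝ, Dom r e ∧ 1 + r - e < η ∧ run r e l 0 n 0 = 2 * π := by
  have hS : ∀ e ∈ Icc (1 - η / 2) (1 - η / 100), DomC (η / 100) e := by
    intro e he
    exact ⟨by linarith, by linarith [he.1], by linarith [he.2]⟩
  have hc := continuousOn_run (l := l) hS 0 n 0
  have ha : 2 * π ≤ run (η / 100) (1 - η / 2) l 0 n 0 := by
    have := long_run (l := l) h0 h1 0 n 0
    have h3 : (3:ℝ) ≤ n := by exact_mod_cast hn
    have hpi := Real.pi_pos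
    nlinarith
  have hb : run (η / 100) (1 - η / 100) l 0 n 0 ≤ 2 * π := by
    rw [run_tangent]; positivity
  have hle : (1 - η / 2) ≤ 1 - η / 100 := by linarith
  have := intermediate_value_Icc' hle hc
  obtain ⟨e, he, hee⟩ := this ⟨hb, ha⟩
  refine ⟨η / 100, e, ⟨by linarith, by linarith [he.1], ?_⟩, by linarith [he.1], hee⟩
  rcases he.2.lt_or_eq with h | h
  · linarith
  · exfalso
    simp only at hee
    rw [h, run_tangent] at hee
    have := Real.pi_pos
    linarith

end

end Pool.Agent.H44.PS
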