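import Mathlib
import Pool.Agent.H44.PS.Close

/-!
# The estimates at the wide end
-/

namespace Pool.Agent.H44.PS

open Real Finset

noncomputable section

variable {r e : ℝ} {l : ℕ → Letter}

theorem cos_ge_of_mem {a b t c : ℝ} (ha : π ≤ a) (hb : b ≤ 3 * π) (hat : a ≤ t) (htb : t ≤ b)
    (hca : c ≤ cos a) (hcb : c ≤ cos b) : c ≤ cos t := by
  rcases le_total t (2 * π) with h | h
  · refine hca.trans ?_
    have h1 : cos (2 * π - a) ≤ cos (2 * π - t) :=
      Real.cos_le_cos_of_nonneg_of_le_pi (by linarith) (by linarith) (by linarith)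
    rwa [cos_two_pi_sub, cos_two_pi_sub] at h1
  · refine hcb.trans ?_
    have h1 : cos (b - 2 * π) ≤ cos (t - 2 * π) :=
      Real.cos_le_cos_of_nonneg_of_le_pi (by linarith) (by linarith) (by linarith)
    rwa [cos_sub_two_pi, cos_sub_two_pi] at h1

/-- comparison of `N` at consecutive circles -/
theorem cc_compare (h : Dom r e) (t : ℝ) {t' : ℝ} (ht' : t' = step r e .c .c t)
    (hm : sin ((t + t') / 2) ^ 2 ≤ 1 / 4) :
    fN r e t ≤ 2 * fN r e t' ∧ fN r e t' ≤ 2 * fN r e t := by
  have hr := h.r_pos
  have hN := fN_pos h t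
  have hN' := fN_pos h t'
  have hK := fK_ge h.domC
  have hK0 := fK_pos h.domC
  have he0 := h.e_nonneg
  have he1 := e_lt_one h.domC
  have hrel := step_rel h .c .c t
  rw [← ht'] at hrel
  simp only [Rel] at hrel
  set m := (t + t') / 2 with hmdef
  set d := (t' - t) / 2 with hddef
  have h1 : cos (t' - t) = 1 - 2 * sin d ^ 2 := by
    have : t' - t = 2 * d := by rw [hddef]; ring
    rw [this, cos_two_mul]
    have := sin_sq_add_cos_sq d
    linarith
  rw [h1] at hrel
  have hrel2 : (fK r e * sin d) ^ 2 = fN r e t * fN r e t' := by linear_combination (1 / 2) * hrel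
  have h2 : fN r e t' - fN r e t = 4 * e * r * sin m * sin d := by
    have e1 : cos t = cos m * cos d + sin m * sin d := by
      rw [← cos_sub]; congr 1; rw [hmdef, hddef]; ring
    have e2 : cos t' = cos m * cos d - sin m * sin d := by
      rw [← cos_add]; congr 1; rw [hmdef, hddef]; ring
    unfold fN; rw [e1, e2]; ring
  -- |N' - N|² = (4 e r sin m sin d)² ≤ sin² m N N'
  have h3 : (fN r e t' - fN r e t) ^ 2 ≤ 1 / 4 * (fN r e t * fN r e t') := by
    rw [h2, ← hrel2]
    have h4 : (4 * e * r) ^ 2 ≤ fK r e ^ 2 := by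
      apply pow_le_pow_left₀ (by positivity)
      nlinarith
    have h5 : (4 * e * r * sin m * sin d) ^ 2 = (4 * e * r) ^ 2 * (sin m ^ 2 * sin d ^ 2) := by ring
    have h6 : 1 / 4 * (fK r e * sin d) ^ 2 = fK r e ^ 2 * (1 / 4 * sin d ^ 2) := by ring
    rw [h5, h6]
    have h7 : sin m ^ 2 * sin d ^ 2 ≤ 1 / 4 * sin d ^ 2 :=
      mul_le_mul_of_nonneg_right hm (sq_nonneg _)
    exact mul_le_mul h4 h7 (by positivity) (by positivity)
  constructor
  · by_contra hcon
    push Not at hcon
    nlinarith
  · by_contra hcon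
    push Not at hcon
    nlinarith

theorem cc_increasing (h : Dom r e) (t : ℝ) {t' : ℝ} (ht' : t' = step r e .c .c t)
    (hm : 0 ≤ sin ((t + t') / 2)) : fN r e t ≤ fN r e t' := by
  have hr := h.r_pos
  have he0 := h.e_nonneg
  have hlt := lt_step h .c .c t
  have hlt' := step_lt (r := r) (e := e) .c .c t
  rw [← ht'] at hlt hlt'
  have hd : 0 ≤ sin ((t' - t) / 2) :=
    Real.sin_nonneg_of_nonneg_of_le_pi (by linarith) (by linarith)
  have h2 : fN r e t' - fN r e t = 4 * e * r * (sin ((t + t') / 2) * sin ((t' - t) / 2)) := by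
    have e1 : cos t = cos ((t + t') / 2) * cos ((t' - t) / 2) +
        sin ((t + t') / 2) * sin ((t' - t) / 2) := by
      rw [← cos_sub]; congr 1; ring
    have e2 : cos t' = cos ((t + t') / 2) * cos ((t' - t) / 2) -
        sin ((t + t') / 2) * sin ((t' - t) / 2) := by
      rw [← cos_add]; congr 1; ring
    unfold fN; rw [e1, e2]; ring
  have := mul_nonneg (mul_nonneg (mul_nonneg (by norm_num : (0:ℝ) ≤ 4) he0) hr.le)
    (mul_nonneg hm hd)
  linarith

theorem cc_decreasing (h : Dom r e) (t : ℝ) {t' : ℝ} (ht' : t' = step r e .c .c t)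
    (hm : sin ((t + t') / 2) ≤ 0) : fN r e t' ≤ fN r e t := by
  have hr := h.r_pos
  have he0 := h.e_nonneg
  have hlt := lt_step h .c .c t
  have hlt' := step_lt (r := r) (e := e) .c .c t
  rw [← ht'] at hlt hlt'
  have hd : 0 ≤ sin ((t' - t) / 2) :=
    Real.sin_nonneg_of_nonneg_of_le_pi (by linarith) (by linarith)
  have h2 : fN r e t' - fN r e t = 4 * e * r * (sin ((t + t') / 2) * sin ((t' - t) / 2)) := by
    have e1 : cos t = cos ((t + t') / 2) * cos ((t' - t) / 2) +
        sin ((t + t') / 2) * sin ((t' - t) / 2) := by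
      rw [← cos_sub]; congr 1; ring
    have e2 : cos t' = cos ((t + t') / 2) * cos ((t' - t) / 2) -
        sin ((t + t') / 2) * sin ((t' - t) / 2) := by
      rw [← cos_add]; congr 1; ring
    unfold fN; rw [e1, e2]; ring
  have := mul_nonneg (mul_nonneg (mul_nonneg (by norm_num : (0:ℝ) ≤ 4) he0) hr.le)
    (mul_nonneg (neg_nonneg.mpr hm) hd)
  linarith

/-- sine is non-negative on the right half -/
theorem sin_nonneg_right {t : ℝ} (h1 : 2 * π ≤ t) (h2 : t ≤ 3 * π) : 0 ≤ sin t := by
  have := Real.sin_nonneg_of_nonneg_of_le_pi (x := t - 2 * π) (by linarith) (by linarith)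
  rwa [sin_sub_two_pi] at this

theorem sin_nonpos_left {t : ℝ} (h1 : π ≤ t) (h2 : t ≤ 2 * π) : sin t ≤ 0 := by
  have := Real.sin_nonneg_of_nonneg_of_le_pi (x := 2 * π - t) (by linarith) (by linarith)
  rw [sin_two_pi_sub] at this
  linarith

/-- Option 1: a block of segments of length at least two. -/
theorem contra_ss (h : Dom r e) {n : ℕ} (hn : 3 ≤ n) {j : ℕ} (hper : l (j + n) = l j)
    (hid : ∀ x, run r e l j n x = x + 2 * π)
    (hj : l j = .s) (hj1 : l (j + 1) = .s) (hjn : l (j + (n - 1)) = .c)
    (hsmall : 1 + r - e ≤ (1 / 4) ^ n) : False := by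
  have hr := h.r_pos
  have he0 := h.e_nonneg
  have he1 := e_lt_one h.domC
  have hlt1 := h.lt_one
  have hpi := Real.pi_pos
  have hprod := prod_theta h hper hid π
  set t : ℕ → ℝ := fun i => run r e l j i π with ht
  have ht0 : t 0 = π := rfl
  have htn : t n = 3 * π := by
    show run r e l j n π = 3 * π
    rw [hid]; ring
  have hmono : StrictMono t := run_strictMono h j π
  have hstep : ∀ i, t (i + 1) = step r e (l (j + i)) (l (j + i + 1)) (t i) := fun i => rfl
  have hsm : (1 / 4 : ℝ) ^ n ≤ 1 / 64 := by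
    have : (1 / 4 : ℝ) ^ n ≤ (1 / 4) ^ 3 := pow_le_pow_of_le_one (by norm_num) (by norm_num) hn
    norm_num at this ⊢; linarith
  have hr64 : r ≤ 1 / 128 := by linarith
  -- the first step
  have h1mem : π < t 1 ∧ t 1 < 2 * π := by
    constructor
    · rw [← ht0]; exact hmono (by norm_num)
    · have := step_lt (r := r) (e := e) (l (j + 0)) (l (j + 0 + 1)) (t 0)
      rw [← hstep 0, ht0] at this
      simpa using (by linarith : t 1 < 2 * π)
  have hcos1 : 1 - 2 * r ≤ cos (t 1) := by
    have hrel := step_rel h .s .s π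
    have e1 : t 1 = step r e .s .s π := by
      have := hstep 0
      rw [add_zero, zero_add, hj, hj1] at this
      exact this
    rw [← e1] at hrel
    simp only [Rel, cos_sub_pi, cos_pi] at hrel
    have hden : r ≤ (1 - e ^ 2) / 1 + 2 * e * r := by nlinarith
    by_contra hcon
    push Not at hcon
    have h3 : (1 - cos (t 1)) * ((1 - e ^ 2) / 2 + e * r) = r ^ 2 := by linear_combination hrel
    have h4 : 2 * r < 1 - cos (t 1) := by linarith
    nlinarith
  -- the last step
  have hn1 : n - 1 + 1 = n := by omega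
  have hlast : t n = step r e .c .s (t (n - 1)) := by
    have := hstep (n - 1)
    rw [hn1] at this
    rw [this, hjn]
    congr 1
    rw [add_assoc, hn1, hper, hj]
  have hlmem : 2 * π < t (n - 1) ∧ t (n - 1) < 3 * π := by
    constructor
    · have := step_lt (r := r) (e := e) .c .s (t (n - 1))
      rw [← hlast, htn] at this
      linarith
    · rw [← htn]; exact hmono (by omega)
  have hcosl : -r ≤ cos (t (n - 1)) := by
    have hrel := step_rel h .c .s (t (n - 1))
    rw [← hlast, htn] at hrel
    simp only [Rel] at hrel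
    have e1 : cos (3 * π - t (n - 1)) = -cos (t (n - 1)) := by
      rw [show 3 * π - t (n - 1) = (π - t (n - 1)) + 2 * π by ring, cos_add_two_pi, cos_pi_sub]
    rw [e1] at hrel
    have hK := fK_ge h.domC
    by_contra hcon
    push Not at hcon
    have h3 : (fK r e + 4 * e * r) * (-cos (t (n - 1))) = 3 * r ^ 2 + 2 * r - 1 + e ^ 2 := by
      linear_combination hrel
    have h4 : r < -cos (t (n - 1)) := by linarith
    have h5 : 3 * r ^ 2 + 2 * r - 1 + e ^ 2 ≤ 4 * r ^ 2 := by nlinarith
    have h6 : 0 < fK r e + 4 * e * r := by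
      have := mul_nonneg he0 hr.le
      linarith
    have h7 : (fK r e + 4 * e * r) * r < (fK r e + 4 * e * r) * (-cos (t (n - 1))) :=
      mul_lt_mul_of_pos_left h4 h6
    have h8 : 4 * r * r ≤ (fK r e + 4 * e * r) * r := by
      apply mul_le_mul_of_nonneg_right _ hr.le
      have := mul_nonneg he0 hr.le
      linarith
    nlinarith
  -- all other elements are in the narrow half
  have hL : ∀ i, 1 ≤ i → i ≤ n - 1 → 1 ≤ fL r e (t i) := by
    intro i hi1 hi2
    have h1 : -r ≤ cos (t i) := by
      refine cos_ge_of_mem (a := t 1) (b := t (n - 1)) h1mem.1.le hlmem.2.le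
        (hmono.monotone hi1) (hmono.monotone hi2) (by linarith) hcosl
    unfold fL
    nlinarith
  have hL2 : ∀ i, fL r e (t i) ≤ 2 := fun i => fL_le h.domC _
  have hL0 : ∀ i, 0 < fL r e (t i) := fun i => fL_pos h.domC _
  -- the individual factors
  have hfac : ∀ i, 1 ≤ i → i ≤ n - 1 →
      1 / 2 ≤ theta r e (l (j + i)) (l (j + i + 1)) (t i) (t (i + 1)) := by
    intro i hi1 hi2
    have hLi := hL i hi1 hi2
    rcases hx : l (j + i) with _ | _ <;> rcases hy : l (j + i + 1) with _ | _ <;>
      simp only [theta]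
    · -- cc
      have hine : i + 1 ≤ n - 1 := by
        rcases Nat.lt_or_ge i (n - 1) with h' | h'
        · omega
        · exfalso
          have : i = n - 1 := by omega
          rw [this, add_assoc, hn1, hper, hj] at hy
          exact Letter.noConfusion hy
      have hs : t (i + 1) = step r e .c .c (t i) := by rw [hstep i, hx, hy]
      have hN := fN_pos h (t i)
      rw [le_div_iff₀ hN]
      have ht1 : t 1 ≤ t i := hmono.monotone hi1
      have hti : t i < t (i + 1) := hmono (by omega)
      have htl : t (i + 1) ≤ t (n - 1) := hmono.monotone hine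
      rcases le_total (2 * π) ((t i + t (i + 1)) / 2) with hc | hc
      · have := cc_increasing h (t i) hs (sin_nonneg_right hc (by linarith [hlmem.2]))
        have := fN_pos h (t (i + 1))
        linarith
      · have hcm : 1 - 2 * r ≤ cos ((t i + t (i + 1)) / 2) := by
          have h1 : cos (2 * π - t 1) ≤ cos (2 * π - (t i + t (i + 1)) / 2) :=
            Real.cos_le_cos_of_nonneg_of_le_pi (by linarith) (by linarith [h1mem.1]) (by linarith)
          rw [cos_two_pi_sub, cos_two_pi_sub] at h1
          linarith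
        have hsm2 : sin ((t i + t (i + 1)) / 2) ^ 2 ≤ 1 / 4 := by
          have := sin_sq_add_cos_sq ((t i + t (i + 1)) / 2)
          nlinarith
        have := (cc_compare h (t i) hs hsm2).1
        linarith
    · -- cs
      rw [le_div_iff₀ (hL0 i)]
      linarith [hL2 i]
    · -- sc
      have hine : i + 1 ≤ n - 1 := by
        rcases Nat.lt_or_ge i (n - 1) with h' | h'
        · omega
        · exfalso
          have : i = n - 1 := by omega
          rw [this, add_assoc, hn1, hper, hj] at hy
          exact Letter.noConfusion hy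
      have := hL (i + 1) (by omega) hine
      linarith
    · -- ss
      have hine : i + 1 ≤ n - 1 := by
        rcases Nat.lt_or_ge i (n - 1) with h' | h'
        · omega
        · exfalso
          have : i = n - 1 := by omega
          rw [this, hjn] at hx
          exact Letter.noConfusion hx
      rw [le_div_iff₀ (hL0 i)]
      have := hL (i + 1) (by omega) hine
      linarith [hL2 i]
  -- the first factor
  have hL1 : fL r e (t 0) = 1 + r - e := by
    rw [ht0]; simp only [fL, cos_pi]; ring
  have hell : 0 < 1 + r - e := by linarith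
  have hfac0 : 1 / (1 + r - e) ≤ theta r e (l (j + 0)) (l (j + 0 + 1)) (t 0) (t 1) := by
    rw [add_zero, hj, hj1]
    simp only [theta]
    rw [hL1]
    exact div_le_div_of_nonneg_right (hL 1 le_rfl (by omega)) hell.le
  obtain ⟨m, rfl⟩ : ∃ m, n = m + 1 := ⟨n - 1, hn1.symm⟩
  rw [prod_range_succ'] at hprod
  have hlow : (1 / 2 : ℝ) ^ m ≤ ∏ i ∈ range m, theta r e (l (j + (i + 1)))
      (l (j + (i + 1) + 1)) (t (i + 1)) (t (i + 1 + 1)) := by
    have := Finset.prod_le_prod (s := range m) (f := fun _ => (1 / 2 : ℝ))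
      (g := fun i => theta r e (l (j + (i + 1)))
      (l (j + (i + 1) + 1)) (t (i + 1)) (t (i + 1 + 1))) (fun i _ => by norm_num)
      (fun i hi => hfac (i + 1) (by omega) (by rw [mem_range] at hi; omega))
    simpa using this
  have hfin : (1 / 2 : ℝ) ^ m * (1 / (1 + r - e)) ≤ 1 := by
    refine le_trans (mul_le_mul hlow hfac0 (by positivity)
      (le_trans (by positivity) hlow)) (le_of_eq hprod)
  rw [mul_one_div, div_le_one hell] at hfin
  have : (1 / 4 : ℝ) ^ (m + 1) < (1 / 2) ^ m := by
    have h1 : (1 / 4 : ℝ) ^ (m + 1) = (1 / 2) ^ m * ((1 / 2) ^ m * (1 / 4)) := by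
      rw [show (1 / 4 : ℝ) = (1 / 2) ^ 2 by norm_num, ← pow_mul]; ring
    rw [h1]
    have h2 : (1 / 2 : ℝ) ^ m ≤ 1 := pow_le_one₀ (by norm_num) (by norm_num)
    have h3 : (0:ℝ) < (1 / 2) ^ m := by positivity
    nlinarith
  linarith

/-- Option 2: a block of circles of length at least two. -/
theorem contra_cc (h : Dom r e) {n : ℕ} (hn : 3 ≤ n) {j : ℕ} (hper : l (j + n) = l j)
    (hid : ∀ x, run r e l j n x = x + 2 * π)
    (hj : l j = .c) (hj1 : l (j + 1) = .c) (hjn : l (j + (n - 1)) = .s)
    (hsmall : 1 + r - e ≤ (1 / 4) ^ n) : False := by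
  have hr := h.r_pos
  have he0 := h.e_nonneg
  have he1 := e_lt_one h.domC
  have hlt1 := h.lt_one
  have hpi := Real.pi_pos
  have hprod := prod_theta h hper hid π
  set t : ℕ → ℝ := fun i => run r e l j i π with ht
  have ht0 : t 0 = π := rfl
  have htn : t n = 3 * π := by
    show run r e l j n π = 3 * π
    rw [hid]; ring
  have hmono : StrictMono t := run_strictMono h j π
  have hstep : ∀ i, t (i + 1) = step r e (l (j + i)) (l (j + i + 1)) (t i) := fun i => rfl
  have hsm : (1 / 4 : ℝ) ^ n ≤ 1 / 64 := by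
    have : (1 / 4 : ℝ) ^ n ≤ (1 / 4) ^ 3 := pow_le_pow_of_le_one (by norm_num) (by norm_num) hn
    norm_num at this ⊢; linarith
  have hr64 : r ≤ 1 / 128 := by linarith
  have hell : 0 < 1 + r - e := by linarith
  -- the first step
  have h1mem : π < t 1 ∧ t 1 < 2 * π := by
    constructor
    · rw [← ht0]; exact hmono (by norm_num)
    · have := step_lt (r := r) (e := e) (l (j + 0)) (l (j + 0 + 1)) (t 0)
      rw [← hstep 0, ht0] at this
      simpa using (by linarith : t 1 < 2 * π)
  have e1 : t 1 = step r e .c .c π := by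
    have := hstep 0
    rw [add_zero, zero_add, hj, hj1] at this
    exact this
  have hNpi : fN r e π = (1 - r + e) * (1 + r - e) := by
    simp only [fN, cos_pi]; ring
  have hKl : fK r e = (1 + r - e) * (1 + r + e) := by simp only [fK]; ring
  have hcos1 : -(1 / 2) ≤ cos (t 1) := by
    set f := fstep r e .c .c π with hf
    have hf2 : 1 / 3 ≤ f ^ 2 := by
      have hK := fK_pos h.domC
      have hf' : f = fN r e π / (2 * √(r * fK r e)) := by
        rw [hf]; simp only [fstep, sin_pi, mul_zero, sub_zero]
      have hf2' : f ^ 2 = fN r e π ^ 2 / (4 * (r * fK r e)) := by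
        rw [hf', div_pow, mul_pow, Real.sq_sqrt (by positivity)]; norm_num
      rw [hf2', le_div_iff₀ (by positivity), hNpi, hKl]
      have h1 : 1 / 3 * (4 * (r * ((1 + r - e) * (1 + r + e)))) =
        (1 + r - e) * (4 / 3 * r * (1 + r + e)) := by ring
      have h2 : ((1 - r + e) * (1 + r - e)) ^ 2 =
        (1 + r - e) * ((1 - r + e) ^ 2 * (1 + r - e)) := by ring
      rw [h1, h2]
      apply mul_le_mul_of_nonneg_left _ hell.le
      have h3 : 4 / 3 * r * (1 + r + e) ≤ 4 / 3 * r * 2 :=
        mul_le_mul_of_nonneg_left (by linarith) (by positivity)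
      have h4 : (3 / 2) ^ 2 ≤ (1 - r + e) ^ 2 :=
        pow_le_pow_left₀ (by norm_num) (by linarith) 2
      have h5 : (3 / 2) ^ 2 * (2 * r) ≤ (1 - r + e) ^ 2 * (1 + r - e) :=
        mul_le_mul h4 (by linarith) (by positivity) (by positivity)
      linarith
    have h3 : cos (t 1) = -((1 - f ^ 2) / (1 + f ^ 2)) := by
      rw [e1]; unfold step
      rw [add_comm, cos_add_pi, cos_two_arctan]
    rw [h3, neg_le_neg_iff, div_le_iff₀ (by positivity)]
    linarith
  -- the last step
  have hn1 : n - 1 + 1 = n := by omega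
  have hlast : t n = step r e .s .c (t (n - 1)) := by
    have := hstep (n - 1)
    rw [hn1] at this
    rw [this, hjn]
    congr 1
    rw [add_assoc, hn1, hper, hj]
  have hlmem : 2 * π < t (n - 1) ∧ t (n - 1) < 3 * π := by
    constructor
    · have := step_lt (r := r) (e := e) .s .c (t (n - 1))
      rw [← hlast, htn] at this
      linarith
    · rw [← htn]; exact hmono (by omega)
  have hcosl : 1 - 4 * r ≤ cos (t (n - 1)) := by
    have hrel := step_rel h .s .c (t (n - 1))
    rw [← hlast, htn] at hrel
    simp only [Rel] at hrel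
    have e1 : cos (3 * π - t (n - 1)) = -cos (t (n - 1)) := by
      rw [show 3 * π - t (n - 1) = (π - t (n - 1)) + 2 * π by ring, cos_add_two_pi, cos_pi_sub]
    have e2 : cos (3 * π) = -1 := by
      rw [show 3 * π = π + 2 * π by ring, cos_add_two_pi, cos_pi]
    rw [e1, e2] at hrel
    have h3 : (1 + r - e) * ((1 + r + e) * (1 - cos (t (n - 1)))) = (1 + r - e) * (4 * r) := by
      rw [hKl] at hrel
      linear_combination hrel
    have h4 := mul_left_cancel₀ hell.ne' h3
    have h5 : 1 - cos (t (n - 1)) ≤ (1 + r + e) * (1 - cos (t (n - 1))) := by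
      have := cos_le_one (t (n - 1))
      nlinarith
    linarith
  -- all other elements are in the left and bottom part
  have hL : ∀ i, 1 ≤ i → i ≤ n - 1 → 1 / 2 ≤ fL r e (t i) := by
    intro i hi1 hi2
    have h1 : -(1 / 2) ≤ cos (t i) := by
      refine cos_ge_of_mem (a := t 1) (b := t (n - 1)) h1mem.1.le hlmem.2.le
        (hmono.monotone hi1) (hmono.monotone hi2) hcos1 (by linarith)
    unfold fL
    nlinarith
  have hL2 : ∀ i, fL r e (t i) ≤ 2 := fun i => fL_le h.domC _
  have hL0 : ∀ i, 0 < fL r e (t i) := fun i => fL_pos h.domC _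
  -- the individual factors
  have hfac : ∀ i, i + 1 ≤ n - 1 →
      theta r e (l (j + i)) (l (j + i + 1)) (t i) (t (i + 1)) ≤ 4 := by
    intro i hine
    rcases hx : l (j + i) with _ | _ <;> rcases hy : l (j + i + 1) with _ | _ <;>
      simp only [theta]
    · -- cc
      have hs : t (i + 1) = step r e .c .c (t i) := by rw [hstep i, hx, hy]
      have hN := fN_pos h (t i)
      rw [div_le_iff₀ hN]
      have ht1 : t 0 ≤ t i := hmono.monotone (by omega)
      rw [ht0] at ht1
      have hti : t i < t (i + 1) := hmono (by omega)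
      have htl : t (i + 1) ≤ t (n - 1) := hmono.monotone hine
      rcases le_total ((t i + t (i + 1)) / 2) (2 * π) with hc | hc
      · have := cc_decreasing h (t i) hs (sin_nonpos_left (by linarith) hc)
        linarith
      · have hcm : 1 - 4 * r ≤ cos ((t i + t (i + 1)) / 2) := by
          have h1 : cos (t (n - 1) - 2 * π) ≤ cos ((t i + t (i + 1)) / 2 - 2 * π) :=
            Real.cos_le_cos_of_nonneg_of_le_pi (by linarith) (by linarith [hlmem.2]) (by linarith)
          rw [cos_sub_two_pi, cos_sub_two_pi] at h1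
          linarith
        have hsm2 : sin ((t i + t (i + 1)) / 2) ^ 2 ≤ 1 / 4 := by
          have := sin_sq_add_cos_sq ((t i + t (i + 1)) / 2)
          nlinarith
        have := (cc_compare h (t i) hs hsm2).2
        linarith
    · -- cs
      have hi1 : 1 ≤ i := by
        rcases Nat.eq_zero_or_pos i with h' | h'
        · exfalso
          rw [h', add_zero, hj1] at hy
          exact Letter.noConfusion hy
        · exact h'
      rw [div_le_iff₀ (hL0 i)]
      linarith [hL i hi1 (by omega)]
    · -- sc
      linarith [hL2 (i + 1)]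
    · -- ss
      have hi1 : 1 ≤ i := by
        rcases Nat.eq_zero_or_pos i with h' | h'
        · exfalso
          rw [h', add_zero, hj] at hx
          exact Letter.noConfusion hx
        · exact h'
      rw [div_le_iff₀ (hL0 i)]
      linarith [hL i hi1 (by omega), hL2 (i + 1)]
  have hLn : fL r e (t n) = 1 + r - e := by
    rw [htn, show 3 * π = π + 2 * π by ring]; simp only [fL, cos_add_two_pi, cos_pi]; ring
  obtain ⟨m, rfl⟩ : ∃ m, n = m + 1 := ⟨n - 1, hn1.symm⟩
  rw [prod_range_succ] at hprod
  simp only [Nat.add_sub_cancel] at *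
  have hlastfac : theta r e (l (j + m)) (l (j + m + 1)) (run r e l j m π)
      (run r e l j (m + 1) π) = 1 + r - e := by
    rw [hjn, add_assoc, hper, hj]
    simp only [theta]
    exact hLn
  rw [hlastfac] at hprod
  have hup : ∏ i ∈ range m, theta r e (l (j + i)) (l (j + i + 1)) (run r e l j i π)
      (run r e l j (i + 1) π) ≤ 4 ^ m := by
    have := Finset.prod_le_prod (s := range m) (g := fun _ => (4 : ℝ))
      (f := fun i => theta r e (l (j + i)) (l (j + i + 1)) (t i) (t (i + 1)))
      (fun i _ => (theta_pos h _ _ _ _).le)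
      (fun i hi => hfac i (by rw [mem_range] at hi; omega))
    simpa using this
  have hfin : (1:ℝ) ≤ 4 ^ m * (1 / 4) ^ (m + 1) := by
    calc (1:ℝ) = _ := hprod.symm
      _ ≤ 4 ^ m * (1 + r - e) := mul_le_mul_of_nonneg_right hup hell.le
      _ ≤ 4 ^ m * (1 / 4) ^ (m + 1) := mul_le_mul_of_nonneg_left hsmall (by positivity)
  have : (4:ℝ) ^ m * (1 / 4) ^ (m + 1) = 1 / 4 := by
    rw [pow_succ, ← mul_assoc, ← mul_pow]; norm_num
  rw [this] at hfin
  norm_num at hfin

end

end Pool.Agent.H44.PS
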