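import Mathlib
import Pool.Agent.H44.PS.Estimate

/-!
# The core statement about runs
-/

namespace Pool.Agent.H44.PS

open Real Finset

noncomputable section

variable {r e : ℝ} {l : ℕ → Letter}

theorem analyticOnNhd_of_contDiff {f : ℝ → ℝ} (hf : ContDiff ℝ (⊤ : WithTop ℕ∞) f) :
    AnalyticOnNhd ℝ f Set.univ := by
  rw [← analyticOn_univ]
  exact (contDiffOn_omega_iff_analyticOn uniqueDiffOn_univ).1 hf.contDiffOn

/-- a continuous function with `sin (D / 2) = 0` everywhere is constant -/
theorem const_of_sin_eq_zero {D : ℝ → ℝ} (hD : Continuous D) (hs : ∀ t, sin (D t / 2) = 0)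
    (t : ℝ) : D t = D 0 := by
  by_contra hne
  -- values are multiples of 2π
  have hval : ∀ t, ∃ k : ℤ, D t = k * (2 * π) := by
    intro t
    obtain ⟨k, hk⟩ := Real.sin_eq_zero_iff.mp (hs t)
    exact ⟨k, by linarith⟩
  obtain ⟨k, hk⟩ := hval t
  obtain ⟨m, hm⟩ := hval 0
  have hkm : k ≠ m := by
    rintro rfl; exact hne (hk.trans hm.symm)
  have hpi := Real.pi_pos
  -- intermediate value half-way between consecutive multiples
  rcases lt_or_gt_of_ne hkm with h | h
  · have h1 : (k : ℝ) + 1 ≤ m := by exact_mod_cast h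
    have hmem : ((k : ℝ) + 1 / 2) * (2 * π) ∈ Set.range D := by
      apply mem_range_of_exists_le_of_exists_ge hD
      · exact ⟨t, by rw [hk]; nlinarith⟩
      · exact ⟨0, by rw [hm]; nlinarith⟩
    obtain ⟨s, hs'⟩ := hmem
    obtain ⟨q, hq⟩ := hval s
    rw [hq] at hs'
    have h2 := mul_right_cancel₀ (by positivity : (2 * π) ≠ 0) hs'
    have h3 : ((2 * q : ℤ) : ℝ) = ((2 * k + 1 : ℤ) : ℝ) := by push_cast; linarith
    have h4 : (2 * q : ℤ) = 2 * k + 1 := by exact_mod_cast h3
    omega
  · have h1 : (m : ℝ) + 1 ≤ k := by exact_mod_cast h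
    have hmem : ((m : ℝ) + 1 / 2) * (2 * π) ∈ Set.range D := by
      apply mem_range_of_exists_le_of_exists_ge hD
      · exact ⟨0, by rw [hm]; nlinarith⟩
      · exact ⟨t, by rw [hk]; nlinarith⟩
    obtain ⟨s, hs'⟩ := hmem
    obtain ⟨q, hq⟩ := hval s
    rw [hq] at hs'
    have h2 := mul_right_cancel₀ (by positivity : (2 * π) ≠ 0) hs'
    have h3 : ((2 * q : ℤ) : ℝ) = ((2 * m + 1 : ℤ) : ℝ) := by push_cast; linarith
    have h4 : (2 * q : ℤ) = 2 * m + 1 := by exact_mod_cast h3
    omega

/-- The core statement: if the periodic word contains (cyclically) `css` or `scc`, there are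
parameters for which the run from `0` closes after one turn, while for some `t` neither the run from
`t` nor the run from `-t` closes. -/
theorem core (l : ℕ → Letter) {n : ℕ} (hn : 3 ≤ n) (hper : ∀ i, l (i + n) = l i)
    (hpat : ∃ j, (l j = .s ∧ l (j + 1) = .s ∧ l (j + (n - 1)) = .c) ∨
      (l j = .c ∧ l (j + 1) = .c ∧ l (j + (n - 1)) = .s)) :
    ∃ r e : ℝ, Dom r e ∧ run r e l 0 n 0 = 2 * π ∧
      ∃ t, sin ((run r e l 0 n t - t) / 2) ≠ 0 ∧ sin ((run r e l 0 n (-t) + t) / 2) ≠ 0 := by
  have hη : (0:ℝ) < (1 / 4) ^ n := by positivity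
  have hη1 : ((1:ℝ) / 4) ^ n ≤ 1 := pow_le_one₀ (by norm_num) (by norm_num)
  obtain ⟨r, e, h, hsmall, hclose⟩ := exists_closing l hn hη hη1
  refine ⟨r, e, h, hclose, ?_⟩
  by_contra hcon
  push Not at hcon
  have hcd : ContDiff ℝ (⊤ : WithTop ℕ∞) (run r e l 0 n) := contDiff_run h 0 n
  have hprod : ∀ t ∈ (Set.univ : Set ℝ), sin ((run r e l 0 n t - t) / 2) *
      sin ((run r e l 0 n (-t) + t) / 2) = 0 := by
    intro t _
    by_cases h1 : sin ((run r e l 0 n t - t) / 2) = 0
    · rw [h1, zero_mul]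
    · rw [hcon t h1, mul_zero]
  have hA : AnalyticOnNhd ℝ (fun t => sin ((run r e l 0 n t - t) / 2)) Set.univ :=
    analyticOnNhd_of_contDiff (Real.contDiff_sin.comp ((hcd.sub contDiff_id).div_const 2))
  have hB : AnalyticOnNhd ℝ (fun t => sin ((run r e l 0 n (-t) + t) / 2)) Set.univ :=
    analyticOnNhd_of_contDiff (Real.contDiff_sin.comp
      (((hcd.comp contDiff_neg).add contDiff_id).div_const 2))
  have hall : ∀ t, sin ((run r e l 0 n t - t) / 2) = 0 := by
    rcases hA.eq_zero_or_eq_zero_of_mul_eq_zero hB hprod isPreconnected_univ with h1 | h1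
    · exact fun t => h1 t (Set.mem_univ _)
    · intro t
      have := h1 (-t) (Set.mem_univ _)
      simp only [neg_neg] at this
      rwa [← sub_eq_add_neg] at this
  have hid : ∀ x, run r e l 0 n x = x + 2 * π := by
    intro x
    have hc : Continuous (fun t => run r e l 0 n t - t) :=
      hcd.continuous.sub continuous_id
    have := const_of_sin_eq_zero hc hall x
    simp only [hclose, sub_zero] at this
    linarith
  have hidj : ∀ j x, run r e l j n x = x + 2 * π := by
    intro j x
    obtain ⟨y, rfl⟩ := run_surjective (l := l) h 0 j x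
    have h1 := run_add (r := r) (e := e) (l := l) 0 j n y
    have h2 := run_add (r := r) (e := e) (l := l) 0 n j y
    rw [zero_add] at h1 h2
    rw [← h1, add_comm j n, h2, hid]
    have h3 := run_periodic (r := r) (e := e) (l := l) hper 0 j (y + 2 * π)
    rw [zero_add] at h3
    rw [h3, run_two_pi]
  obtain ⟨j, hj | hj⟩ := hpat
  · exact contra_ss h hn (hper j) (hidj j) hj.1 hj.2.1 hj.2.2 hsmall.le
  · exact contra_cc h hn (hper j) (hidj j) hj.1 hj.2.1 hj.2.2 hsmall.le

end

end Pool.Agent.H44.PS
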