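import Mathlib
import Pool.Agent.H44.PS.Core

/-!
# Geometry of the annulus: elements, contact points and sides
-/

namespace Pool.Agent.H44.PS

open Real

noncomputable section

variable {r e : ℝ}

def rho (r e t : ℝ) : ℝ := fN r e t / (2 * fL r e t)

/-- centre of the inscribed circle with parameter `t` -/
def ctr (r e t : ℝ) : ℂ := ⟨e + (r + rho r e t) * cos t, (r + rho r e t) * sin t⟩

/-- point of the tangent of `ω` at parameter `t` -/
def qpt (r e t σ : ℝ) : ℂ := ⟨e + r * cos t - σ * sin t, r * sin t + σ * cos t⟩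

/-- half-length of the tangent chord -/
def hl (r e t : ℝ) : ℝ := √(fJ r e t * fL r e t)

/-- the elements -/
def elt (r e : ℝ) : Letter → ℝ → Set ℂ
  | .c, t => Metric.sphere (ctr r e t) (rho r e t)
  | .s, t => segment ℝ (qpt r e t (e * sin t - hl r e t)) (qpt r e t (e * sin t + hl r e t))

/-- the annulus with outer circle the unit circle -/
def ann (h : Dom r e) : Annulus where
  cω := (e : ℂ)
  rω := r
  ck := 0
  rk := 1
  rω_pos := h.r_pos
  inside := by
    rw [dist_zero_right, Complex.norm_real, Real.norm_eq_abs, abs_of_nonneg h.e_nonneg]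
    linarith [h.lt_one]

theorem dist_eq_iff {z w : ℂ} {d : ℝ} (hd : 0 ≤ d) :
    dist z w = d ↔ (z.re - w.re) ^ 2 + (z.im - w.im) ^ 2 = d ^ 2 := by
  rw [Complex.dist_eq_re_im, Real.sqrt_eq_iff_mul_self_eq (by positivity) hd, ← sq]

theorem mem_ω_iff (h : Dom r e) (p : ℂ) :
    p ∈ (ann h).ω ↔ (p.re - e) ^ 2 + p.im ^ 2 = r ^ 2 := by
  unfold Annulus.ω
  rw [Metric.mem_sphere]
  show dist p (e : ℂ) = r ↔ _
  rw [dist_eq_iff h.r_pos.le]
  simp

theorem mem_k_iff (h : Dom r e) (p : ℂ) : p ∈ (ann h).k ↔ p.re ^ 2 + p.im ^ 2 = 1 := by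
  unfold Annulus.k
  rw [Metric.mem_sphere]
  show dist p 0 = 1 ↔ _
  rw [dist_eq_iff (by norm_num)]
  simp

theorem rho_pos (h : Dom r e) (t : ℝ) : 0 < rho r e t := by
  have := fN_pos h t
  have := fL_pos h.domC t
  unfold rho; positivity

theorem rho_mul (h : Dom r e) (t : ℝ) : rho r e t * (2 * fL r e t) = fN r e t := by
  have := fL_pos h.domC t
  unfold rho; field_simp

theorem rho_lt_one (h : Dom r e) (t : ℝ) : rho r e t < 1 := by
  have hL := fL_pos h.domC t
  unfold rho
  rw [div_lt_one (by positivity)]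
  have h1 : 2 * fL r e t - fN r e t = (1 + r + e * cos t) ^ 2 + (e * sin t) ^ 2 := by
    unfold fL fN
    have := sin_sq_add_cos_sq t
    linear_combination (-e ^ 2) * this
  have h2 : 0 < (1 + r + e * cos t) ^ 2 := by
    have : 0 < 1 + r + e * cos t := hL
    positivity
  nlinarith [sq_nonneg (e * sin t)]

theorem hl_sq (h : Dom r e) (t : ℝ) : hl r e t ^ 2 = fJ r e t * fL r e t := by
  have := fJ_pos h t
  have := fL_pos h.domC t
  exact Real.sq_sqrt (by positivity)

theorem hl_gt (h : Dom r e) (t : ℝ) : |e * sin t| < hl r e t := by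
  unfold hl
  rw [← Real.sqrt_sq_eq_abs]
  apply Real.sqrt_lt_sqrt (sq_nonneg _)
  have := JL_sub (r := r) (e := e) t
  have := fN_pos h t
  linarith

theorem hl_pos (h : Dom r e) (t : ℝ) : 0 < hl r e t :=
  lt_of_le_of_lt (abs_nonneg _) (hl_gt h t)

theorem qpt_normSq (t σ : ℝ) : (qpt r e t σ).re ^ 2 + (qpt r e t σ).im ^ 2 =
    1 + (σ - e * sin t) ^ 2 - fJ r e t * fL r e t := by
  simp only [qpt, fJ, fL]
  have := sin_sq_add_cos_sq t
  linear_combination (r ^ 2 + σ ^ 2 - e ^ 2) * this

theorem qpt_dist_ω (t σ : ℝ) : ((qpt r e t σ).re - e) ^ 2 + (qpt r e t σ).im ^ 2 =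
    r ^ 2 + σ ^ 2 := by
  simp only [qpt]
  have := sin_sq_add_cos_sq t
  linear_combination (r ^ 2 + σ ^ 2) * this

theorem mem_chord_iff (h : Dom r e) (t : ℝ) (p : ℂ) :
    p ∈ elt r e .s t ↔ ∃ σ, p = qpt r e t σ ∧ |σ - e * sin t| ≤ hl r e t := by
  simp only [elt]
  have hp := hl_pos h t
  rw [segment_eq_image']
  constructor
  · rintro ⟨θ, hθ, rfl⟩
    refine ⟨e * sin t - hl r e t + θ * (2 * hl r e t), ?_, ?_⟩
    · apply Complex.ext <;> simp [qpt] <;> ring
    · rw [abs_le]
      constructor <;> nlinarith [hθ.1, hθ.2]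
  · rintro ⟨σ, rfl, hσ⟩
    rw [abs_le] at hσ
    obtain ⟨θ, hθ⟩ : ∃ θ : ℝ, θ * (2 * hl r e t) = σ - e * sin t + hl r e t :=
      ⟨(σ - e * sin t + hl r e t) / (2 * hl r e t), div_mul_cancel₀ _ (by positivity)⟩
    refine ⟨θ, ⟨?_, ?_⟩, ?_⟩
    · nlinarith
    · nlinarith
    · apply Complex.ext
      · simp [qpt]; linear_combination (-sin t) * hθ
      · simp [qpt]; linear_combination (cos t) * hθ

/-- membership in the chord through the unit disc -/
theorem qpt_mem_chord_iff (h : Dom r e) (t σ : ℝ) :
    qpt r e t σ ∈ elt r e .s t ↔ (qpt r e t σ).re ^ 2 + (qpt r e t σ).im ^ 2 ≤ 1 := by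
  rw [qpt_normSq, ← hl_sq h]
  have hp := hl_pos h t
  rw [mem_chord_iff h]
  constructor
  · rintro ⟨σ', h1, h2⟩
    have h3 : σ = σ' := by
      have e1 := congrArg Complex.re h1
      have e2 := congrArg Complex.im h1
      simp only [qpt] at e1 e2
      have := sin_sq_add_cos_sq t
      linear_combination (-sin t) * e1 + (cos t) * e2 - (σ - σ') * this
    rw [h3]
    have := sq_le_sq' (by linarith [(abs_le.mp h2).1]) (abs_le.mp h2).2
    linarith
  · intro h1
    exact ⟨σ, rfl, abs_le_of_sq_le_sq (by linarith) hp.le⟩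

theorem qpt_mem_k_iff (h : Dom r e) (t σ : ℝ) :
    qpt r e t σ ∈ (ann h).k ↔ (σ - e * sin t) ^ 2 = hl r e t ^ 2 := by
  rw [mem_k_iff, qpt_normSq, hl_sq h]
  constructor <;> intro h1 <;> linarith

/-- the tangency point with `ω` -/
theorem elt_inter_ω (h : Dom r e) (x : Letter) (t : ℝ) :
    elt r e x t ∩ (ann h).ω = {qpt r e t 0} := by
  have hcs := sin_sq_add_cos_sq t
  have hr := h.r_pos
  ext p
  rw [Set.mem_inter_iff, mem_ω_iff, Set.mem_singleton_iff]
  rcases x with _ | _
  · have hρ := rho_pos h t
    simp only [elt]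
    rw [Metric.mem_sphere, dist_eq_iff hρ.le]
    simp only [ctr]
    constructor
    · rintro ⟨h1, h2⟩
      set ρ := rho r e t
      have h3 : (r + ρ) * ((p.re - e) * cos t + p.im * sin t - r) = 0 := by
        linear_combination (-1 / 2) * h1 + (1 / 2) * h2 + ((r + ρ) ^ 2 / 2) * hcs
      have h4 : (p.re - e) * cos t + p.im * sin t = r := by
        rcases mul_eq_zero.mp h3 with h5 | h5
        · exfalso; linarith
        · linarith
      have h5 : (p.re - e - r * cos t) ^ 2 + (p.im - r * sin t) ^ 2 = 0 := by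
        linear_combination h2 - (2 * r) * h4 + r ^ 2 * hcs
      have h6 : p.re - e - r * cos t = 0 := by nlinarith [sq_nonneg (p.im - r * sin t)]
      have h7 : p.im - r * sin t = 0 := by nlinarith [sq_nonneg (p.re - e - r * cos t)]
      apply Complex.ext
      · simp only [qpt]; linarith
      · simp only [qpt]; linarith
    · rintro rfl
      simp only [qpt]
      constructor
      · linear_combination (rho r e t ^ 2) * hcs
      · linear_combination (r ^ 2) * hcs
  · constructor
    · rintro ⟨h1, h2⟩
      rw [mem_chord_iff h] at h1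
      obtain ⟨σ, rfl, hσ⟩ := h1
      rw [qpt_dist_ω] at h2
      have : σ = 0 := by nlinarith [sq_nonneg σ]
      rw [this]
    · rintro rfl
      constructor
      · rw [mem_chord_iff h]
        refine ⟨0, rfl, ?_⟩
        rw [zero_sub, abs_neg]
        exact (hl_gt h t).le
      · rw [qpt_dist_ω]; ring

/-- the parameter of an element is determined modulo `2π` -/
theorem elt_inj (h : Dom r e) {x y : Letter} {t t' : ℝ} (heq : elt r e x t = elt r e y t') :
    cos t = cos t' ∧ sin t = sin t' := by
  have hr := h.r_pos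
  have h1 := elt_inter_ω h x t
  have h2 := elt_inter_ω h y t'
  rw [heq, h2] at h1
  have h3 := Set.singleton_eq_singleton_iff.mp h1
  have e1 := congrArg Complex.re h3
  have e2 := congrArg Complex.im h3
  simp only [qpt, zero_mul, sub_zero, add_zero] at e1 e2
  constructor
  · have : r * cos t' = r * cos t := by linarith
    exact (mul_left_cancel₀ hr.ne' this).symm
  · exact (mul_left_cancel₀ hr.ne' e2).symm

theorem elt_congr {x : Letter} {t t' : ℝ} (h1 : cos t = cos t') (h2 : sin t = sin t') :
    elt r e x t = elt r e x t' := by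
  rcases x with _ | _ <;> simp only [elt, ctr, rho, qpt, hl, fN, fL, fJ, h1, h2]

theorem ctr_normSq (h : Dom r e) (t : ℝ) :
    (ctr r e t).re ^ 2 + (ctr r e t).im ^ 2 = (1 - rho r e t) ^ 2 := by
  have h1 := rho_mul h t
  simp only [ctr]
  simp only [fL, fN] at h1
  have := sin_sq_add_cos_sq t
  linear_combination (r + rho r e t) ^ 2 * this + h1

/-- the elements are elements -/
theorem isElement_elt (h : Dom r e) (x : Letter) (t : ℝ) :
    IsElement (ann h) x (elt r e x t) := by
  have hr := h.r_pos
  have hcs := sin_sq_add_cos_sq t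
  rcases x with _ | _
  · refine ⟨ctr r e t, rho r e t, rho_pos h t, rfl, ?_, ?_⟩
    · show dist _ (e : ℂ) = r + _
      have := rho_pos h t
      rw [dist_eq_iff (by positivity)]
      simp only [ctr, Complex.ofReal_re, Complex.ofReal_im]
      linear_combination (r + rho r e t) ^ 2 * hcs
    · show dist _ (0 : ℂ) = 1 - _
      have := rho_lt_one h t
      rw [dist_eq_iff (by linarith)]
      simp only [Complex.zero_re, Complex.zero_im, sub_zero]
      exact ctr_normSq h t
  · refine ⟨qpt r e t (e * sin t - hl r e t), qpt r e t (e * sin t + hl r e t), ?_, ?_, ?_, rfl,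
      _, elt_inter_ω h .s t⟩
    · rw [qpt_mem_k_iff]; ring
    · rw [qpt_mem_k_iff]; ring
    · intro heq
      have hp := hl_pos h t
      have e1 := congrArg Complex.re heq
      have e2 := congrArg Complex.im heq
      simp only [qpt] at e1 e2
      have h3 : hl r e t = 0 := by
        linear_combination (-hl r e t) * hcs + (sin t / 2) * e1 - (cos t / 2) * e2
      linarith

/-- a direction is given by an angle -/
theorem exists_angle {x y R : ℝ} (hR : 0 < R) (hxy : x ^ 2 + y ^ 2 = R ^ 2) :
    ∃ t, x = R * cos t ∧ y = R * sin t := by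
  have hz : (⟨x, y⟩ : ℂ) ≠ 0 := by
    intro h0
    have e1 := congrArg Complex.re h0
    have e2 := congrArg Complex.im h0
    simp only [Complex.zero_re, Complex.zero_im] at e1 e2
    rw [e1, e2] at hxy
    nlinarith
  have hn : ‖(⟨x, y⟩ : ℂ)‖ = R := by
    rw [Complex.norm_eq_sqrt_sq_add_sq, hxy, Real.sqrt_sq hR.le]
  refine ⟨Complex.arg ⟨x, y⟩, ?_, ?_⟩
  · rw [Complex.cos_arg hz, hn]; field_simp
  · rw [Complex.sin_arg, hn]; field_simp

/-- every element has a parameter -/
theorem exists_elt (h : Dom r e) {x : Letter} {u : Set ℂ} (hu : IsElement (ann h) x u) :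
    ∃ t, u = elt r e x t := by
  have hr := h.r_pos
  rcases x with _ | _
  · obtain ⟨z, ρ, hρ, rfl, h1, h2⟩ := hu
    replace h1 : dist z (e : ℂ) = r + ρ := h1
    replace h2 : dist z (0 : ℂ) = 1 - ρ := h2
    have hρ1 : 0 ≤ 1 - ρ := by rw [← h2]; exact dist_nonneg
    rw [dist_eq_iff (by positivity)] at h1
    rw [dist_eq_iff hρ1] at h2
    simp only [Complex.ofReal_re, Complex.ofReal_im, sub_zero, Complex.zero_re,
      Complex.zero_im] at h1 h2
    obtain ⟨t, ht1, ht2⟩ := exists_angle (by positivity : 0 < r + ρ) h1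
    refine ⟨t, ?_⟩
    have hcs := sin_sq_add_cos_sq t
    have hre : z.re = e + (r + ρ) * cos t := by linarith
    have hL := fL_pos h.domC t
    have hρt : ρ = rho r e t := by
      unfold rho
      rw [eq_div_iff (by positivity)]
      simp only [fL, fN]
      rw [hre, ht2] at h2
      linear_combination h2 - (r + ρ) ^ 2 * hcs
    have hz : z = ctr r e t := by
      apply Complex.ext
      · simp only [ctr]; rw [← hρt]; exact hre
      · simp only [ctr]; rw [← hρt]; exact ht2
    simp only [elt]
    rw [← hz, ← hρt]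
  · obtain ⟨P, Q, hP, hQ, hPQ, rfl, T, hT⟩ := hu
    rw [mem_k_iff] at hP hQ
    have hTm : T ∈ segment ℝ P Q ∩ (ann h).ω := by rw [hT]; rfl
    obtain ⟨hT1, hT2⟩ := hTm
    rw [mem_ω_iff] at hT2
    obtain ⟨t, ht1, ht2⟩ := exists_angle hr hT2
    have hcs := sin_sq_add_cos_sq t
    rw [segment_eq_image'] at hT1
    obtain ⟨θ, hθ, hθT⟩ := hT1
    have hTre : P.re + θ * (Q.re - P.re) = T.re := by
      rw [← hθT]; simp
    have hTim : P.im + θ * (Q.im - P.im) = T.im := by
      rw [← hθT]; simp
    -- squared length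
    set D := (Q.re - P.re) ^ 2 + (Q.im - P.im) ^ 2 with hD
    have hDpos : 0 < D := by
      rcases (by positivity : 0 ≤ D).lt_or_eq with h' | h'
      · exact h'
      · exfalso
        apply hPQ
        apply Complex.ext
        · nlinarith [sq_nonneg (Q.re - P.re), sq_nonneg (Q.im - P.im)]
        · nlinarith [sq_nonneg (Q.re - P.re), sq_nonneg (Q.im - P.im)]
    -- the scalar product
    set sp := (Q.re - P.re) * (r * cos t) + (Q.im - P.im) * (r * sin t) with hsp
    have hsp0 : sp = 0 := by
      by_contra hne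
      -- second intersection
      set θ' := θ - 2 * sp / D with hθ'
      set X : ℂ := P + θ' • (Q - P) with hX
      have hXre : X.re = P.re + θ' * (Q.re - P.re) := by rw [hX]; simp
      have hXim : X.im = P.im + θ' * (Q.im - P.im) := by rw [hX]; simp
      have hθD : (θ' - θ) * D = -2 * sp := by rw [hθ']; field_simp; ring
      have hXω : X ∈ (ann h).ω := by
        rw [mem_ω_iff, hXre, hXim]
        have e1 : P.re + θ' * (Q.re - P.re) - e = r * cos t + (θ' - θ) * (Q.re - P.re) := by
          linear_combination hTre + ht1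
        have e2 : P.im + θ' * (Q.im - P.im) = r * sin t + (θ' - θ) * (Q.im - P.im) := by
          linear_combination hTim + ht2
        rw [e1, e2]
        have : (r * cos t + (θ' - θ) * (Q.re - P.re)) ^ 2 +
          (r * sin t + (θ' - θ) * (Q.im - P.im)) ^ 2 = r ^ 2 * (sin t ^ 2 + cos t ^ 2) +
            (θ' - θ) * (2 * sp + (θ' - θ) * D) := by rw [hsp, hD]; ring
        rw [this, hcs]
        have : 2 * sp + (θ' - θ) * D = 0 := by linarith
        rw [this]; ring
      have hXin : X.re ^ 2 + X.im ^ 2 < 1 := by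
        rw [mem_ω_iff] at hXω
        have h5 : X.re - e ≤ r := by nlinarith [sq_nonneg X.im]
        have h6 : X.re ^ 2 + X.im ^ 2 = r ^ 2 - e ^ 2 + 2 * e * X.re := by
          linear_combination hXω
        rw [h6]
        have : e * X.re ≤ e * (r + e) := mul_le_mul_of_nonneg_left (by linarith) h.e_nonneg
        have h7 : (r + e) ^ 2 < 1 := by
          have := h.lt_one; have := h.e_nonneg; nlinarith
        nlinarith
      have hXseg : X ∈ segment ℝ P Q := by
        rw [segment_eq_image']
        refine ⟨θ', ?_, rfl⟩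
        have h8 : X.re ^ 2 + X.im ^ 2 = 1 - θ' * (1 - θ') * D := by
          rw [hXre, hXim, hD]
          linear_combination (1 - θ') * hP + θ' * hQ
        have h9 : 0 < θ' * (1 - θ') := by
          by_contra hcon
          push Not at hcon
          have := mul_nonpos_of_nonpos_of_nonneg hcon hDpos.le
          linarith
        constructor <;> nlinarith
      have hXT : X ∈ segment ℝ P Q ∩ (ann h).ω := ⟨hXseg, hXω⟩
      rw [hT, Set.mem_singleton_iff] at hXT
      have e1 : (θ' - θ) * (Q.re - P.re) = 0 := by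
        have := congrArg Complex.re hXT
        rw [hXre] at this
        linear_combination this - hTre
      have e2 : (θ' - θ) * (Q.im - P.im) = 0 := by
        have := congrArg Complex.im hXT
        rw [hXim] at this
        linear_combination this - hTim
      have e3 : (θ' - θ) * D = 0 := by
        rw [hD]; linear_combination (Q.re - P.re) * e1 + (Q.im - P.im) * e2
      rw [hθD] at e3
      apply hne; linarith
    have hsp1 : (Q.re - P.re) * cos t + (Q.im - P.im) * sin t = 0 := by
      have : r * ((Q.re - P.re) * cos t + (Q.im - P.im) * sin t) = 0 := by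
        rw [← hsp0, hsp]; ring
      rcases mul_eq_zero.mp this with h' | h'
      · exact absurd h' hr.ne'
      · exact h'
    -- tangential coordinates of P and Q
    set a := -(P.re - T.re) * sin t + (P.im - T.im) * cos t with ha
    set b := -(Q.re - T.re) * sin t + (Q.im - T.im) * cos t with hb
    have hPc : (P.re - T.re) * cos t + (P.im - T.im) * sin t = 0 := by
      linear_combination (-θ) * hsp1 + cos t * hTre + sin t * hTim
    have hQc : (Q.re - T.re) * cos t + (Q.im - T.im) * sin t = 0 := by
      linear_combination (1 - θ) * hsp1 + cos t * hTre + sin t * hTim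
    have hPq : P = qpt r e t a := by
      apply Complex.ext
      · simp only [qpt]
        rw [ha]
        linear_combination cos t * hPc - (P.re - T.re) * hcs + ht1
      · simp only [qpt]
        rw [ha]
        linear_combination sin t * hPc - (P.im - T.im) * hcs + ht2
    have hQq : Q = qpt r e t b := by
      apply Complex.ext
      · simp only [qpt]
        rw [hb]
        linear_combination cos t * hQc - (Q.re - T.re) * hcs + ht1
      · simp only [qpt]
        rw [hb]
        linear_combination sin t * hQc - (Q.im - T.im) * hcs + ht2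
    have hPk : (a - e * sin t) ^ 2 = hl r e t ^ 2 := by
      rw [← qpt_mem_k_iff h, ← hPq, mem_k_iff]; exact hP
    have hQk : (b - e * sin t) ^ 2 = hl r e t ^ 2 := by
      rw [← qpt_mem_k_iff h, ← hQq, mem_k_iff]; exact hQ
    have hab : a ≠ b := by
      intro hab; apply hPQ; rw [hPq, hQq, hab]
    refine ⟨t, ?_⟩
    simp only [elt]
    rcases sq_eq_sq_iff_eq_or_eq_neg.mp hPk with h1 | h1 <;>
      rcases sq_eq_sq_iff_eq_or_eq_neg.mp hQk with h2 | h2
    · exfalso; apply hab; linarith
    · rw [hPq, hQq, segment_symm]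
      congr 2 <;> linarith
    · rw [hPq, hQq]
      congr 2 <;> linarith
    · exfalso; apply hab; linarith

end

end Pool.Agent.H44.PS
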