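import Mathlib
import Pool.Agent.H44.PS.Geom

/-!
# Contact points and sides
-/

namespace Pool.Agent.H44.PS

open Real

noncomputable section

variable {r e : ℝ}

/-- the (signed) side of a point relative to an element: for a circle, relative to the line through
its two tangency points; for a chord, the coordinate along the chord -/
def side (r e : ℝ) : Letter → ℝ → ℂ → ℝ
  | .c, t, X => (e + (1 + r) * cos t) * (X.im - r * sin t) -
      (1 + r) * sin t * (X.re - e - r * cos t)
  | .s, t, X => -(X.re - e - r * cos t) * sin t + (X.im - r * sin t) * cos t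

theorem side_affine (x : Letter) (t θ : ℝ) (P Q : ℂ) :
    side r e x t (P + θ • (Q - P)) = (1 - θ) * side r e x t P + θ * side r e x t Q := by
  rcases x with _ | _ <;> simp [side] <;> ring

theorem side_zero (x : Letter) (t : ℝ) : side r e x t (qpt r e t 0) = 0 := by
  rcases x with _ | _ <;> simp [side, qpt]

theorem side_qpt (t σ : ℝ) : side r e .s t (qpt r e t σ) = σ := by
  simp only [side, qpt]
  have := sin_sq_add_cos_sq t
  linear_combination σ * this

/-- tangency point with the outer circle -/
def bpt (r e t : ℝ) : ℂ :=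
  ⟨(e + (r + rho r e t) * cos t) / (1 - rho r e t), (r + rho r e t) * sin t / (1 - rho r e t)⟩

theorem circle_inter_k (h : Dom r e) (t : ℝ) :
    elt r e .c t ∩ (ann h).k = {bpt r e t} := by
  have hρ := rho_pos h t
  have hρ1 : 0 < 1 - rho r e t := by linarith [rho_lt_one h t]
  have hz := ctr_normSq h t
  ext p
  rw [Set.mem_inter_iff, mem_k_iff, Set.mem_singleton_iff]
  simp only [elt]
  rw [Metric.mem_sphere, dist_eq_iff hρ.le]
  set z := ctr r e t with hzdef
  set ρ := rho r e t with hρdef
  have hbre : (bpt r e t).re = z.re / (1 - ρ) := rfl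
  have hbim : (bpt r e t).im = z.im / (1 - ρ) := rfl
  constructor
  · rintro ⟨h1, h2⟩
    have h3 : p.re * z.re + p.im * z.im = 1 - ρ := by
      linear_combination (-1 / 2) * h1 + (1 / 2) * h2 + (1 / 2) * hz
    have h4 : ((1 - ρ) * p.re - z.re) ^ 2 + ((1 - ρ) * p.im - z.im) ^ 2 = 0 := by
      linear_combination (1 - ρ) ^ 2 * h2 - 2 * (1 - ρ) * h3 + hz
    have h5 : (1 - ρ) * p.re - z.re = 0 := by nlinarith [sq_nonneg ((1 - ρ) * p.im - z.im)]
    have h6 : (1 - ρ) * p.im - z.im = 0 := by nlinarith [sq_nonneg ((1 - ρ) * p.re - z.re)]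
    apply Complex.ext
    · rw [hbre, eq_div_iff hρ1.ne']; linarith
    · rw [hbim, eq_div_iff hρ1.ne']; linarith
  · rintro rfl
    rw [hbre, hbim]
    constructor
    · field_simp
      linear_combination ρ ^ 2 * hz
    · field_simp
      linear_combination hz

/-- the line through the two tangency points is the zero set of `side` -/
theorem mem_line_iff (h : Dom r e) (t : ℝ) (X : ℂ) :
    X ∈ line[ℝ, qpt r e t 0, bpt r e t] ↔ side r e .c t X = 0 := by
  have hρ := rho_pos h t
  have hρ1 : 0 < 1 - rho r e t := by linarith [rho_lt_one h t]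
  have hr := h.r_pos
  have hcs := sin_sq_add_cos_sq t
  set ρ := rho r e t with hρdef
  -- B - A = μ w
  set μ := ρ / (1 - ρ) with hμ
  have hμ1 : μ * (1 - ρ) = ρ := div_mul_cancel₀ _ hρ1.ne'
  have hμpos : 0 < μ := div_pos hρ hρ1
  have hre : (bpt r e t).re - (qpt r e t 0).re = μ * (e + (1 + r) * cos t) := by
    simp only [bpt, qpt]
    rw [← hρdef, hμ]
    field_simp
    ring
  have him : (bpt r e t).im - (qpt r e t 0).im = μ * ((1 + r) * sin t) := by
    simp only [bpt, qpt]
    rw [← hρdef, hμ]
    field_simp
    ring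
  have hw : 0 < (e + (1 + r) * cos t) ^ 2 + ((1 + r) * sin t) ^ 2 := by
    have e1 : (e + (1 + r) * cos t) ^ 2 + ((1 + r) * sin t) ^ 2 =
        (1 + r + e * cos t) ^ 2 + (e * sin t) ^ 2 := by
      linear_combination ((1 + r) ^ 2 - e ^ 2) * hcs
    rw [e1]
    have : 0 < 1 + r + e * cos t := fL_pos h.domC t
    positivity
  rw [mem_affineSpan_pair_iff_exists_lineMap_eq]
  constructor
  · rintro ⟨θ, rfl⟩
    rw [AffineMap.lineMap_apply_module']
    simp only [side]
    have e1 : (θ • (bpt r e t - qpt r e t 0) + qpt r e t 0).re =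
        θ * ((bpt r e t).re - (qpt r e t 0).re) + (qpt r e t 0).re := by simp
    have e2 : (θ • (bpt r e t - qpt r e t 0) + qpt r e t 0).im =
        θ * ((bpt r e t).im - (qpt r e t 0).im) + (qpt r e t 0).im := by simp
    rw [e1, e2, hre, him]
    simp only [qpt]
    ring
  · intro hX
    simp only [side] at hX
    set a := X.re - e - r * cos t with ha
    set b := X.im - r * sin t with hb
    obtain ⟨θ, hθ⟩ : ∃ θ : ℝ, θ * (μ * ((e + (1 + r) * cos t) ^ 2 + ((1 + r) * sin t) ^ 2)) =
        a * (e + (1 + r) * cos t) + b * ((1 + r) * sin t) :=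
      ⟨(a * (e + (1 + r) * cos t) + b * ((1 + r) * sin t)) /
        (μ * ((e + (1 + r) * cos t) ^ 2 + ((1 + r) * sin t) ^ 2)),
        div_mul_cancel₀ _ (by positivity)⟩
    refine ⟨θ, ?_⟩
    rw [AffineMap.lineMap_apply_module']
    apply Complex.ext
    · have e1 : (θ • (bpt r e t - qpt r e t 0) + qpt r e t 0).re =
        θ * ((bpt r e t).re - (qpt r e t 0).re) + (qpt r e t 0).re := by simp
      rw [e1, hre]
      simp only [qpt]
      have key : ((e + (1 + r) * cos t) ^ 2 + ((1 + r) * sin t) ^ 2) *
          (θ * (μ * (e + (1 + r) * cos t)) - a) = 0 := by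
        linear_combination (e + (1 + r) * cos t) * hθ + ((1 + r) * sin t) * hX
      rcases mul_eq_zero.mp key with h' | h'
      · exact absurd h' hw.ne'
      · linarith
    · have e2 : (θ • (bpt r e t - qpt r e t 0) + qpt r e t 0).im =
        θ * ((bpt r e t).im - (qpt r e t 0).im) + (qpt r e t 0).im := by simp
      rw [e2, him]
      simp only [qpt]
      have key : ((e + (1 + r) * cos t) ^ 2 + ((1 + r) * sin t) ^ 2) *
          (θ * (μ * ((1 + r) * sin t)) - b) = 0 := by
        linear_combination ((1 + r) * sin t) * hθ - (e + (1 + r) * cos t) * hX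
      rcases mul_eq_zero.mp key with h' | h'
      · exact absurd h' hw.ne'
      · linarith

/-- a point strictly between with vanishing side gives opposite sides -/
theorem side_mul_neg_of_sbtw {x : Letter} {t : ℝ} {P p Q : ℂ} (hs : Sbtw ℝ P p Q)
    (hp : side r e x t p = 0) (hP : side r e x t P ≠ 0) :
    side r e x t P * side r e x t Q < 0 := by
  obtain ⟨⟨θ, ⟨h0, h1⟩, rfl⟩, hne1, hne2⟩ := hs
  have e1 : AffineMap.lineMap P Q θ = P + θ • (Q - P) := by
    rw [AffineMap.lineMap_apply_module', add_comm]
  rw [e1, side_affine] at hp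
  have hθ0 : 0 < θ := by
    rcases h0.lt_or_eq with h' | h'
    · exact h'
    · exfalso; apply hne1; rw [← h']; simp
  have hθ1 : θ < 1 := by
    rcases h1.lt_or_eq with h' | h'
    · exact h'
    · exfalso; apply hne2; rw [h']; simp
  have h2 : θ * (side r e x t P * side r e x t Q) = -((1 - θ) * side r e x t P ^ 2) := by
    linear_combination side r e x t P * hp
  have h3 : 0 < (1 - θ) * side r e x t P ^ 2 := by
    have : 0 < 1 - θ := by linarith
    positivity
  by_contra hcon
  push Not at hcon
  have := mul_nonneg hθ0.le hcon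
  linarith

/-- conversely -/
theorem exists_sbtw_of_side {x : Letter} {t : ℝ} {P Q : ℂ}
    (hPQ : side r e x t P * side r e x t Q < 0) :
    ∃ p, Sbtw ℝ P p Q ∧ side r e x t p = 0 := by
  have hP : side r e x t P ≠ 0 := by intro h0; rw [h0, zero_mul] at hPQ; exact lt_irrefl _ hPQ
  have hQ : side r e x t Q ≠ 0 := by intro h0; rw [h0, mul_zero] at hPQ; exact lt_irrefl _ hPQ
  have hd : side r e x t P - side r e x t Q ≠ 0 := by
    intro h0
    have : side r e x t P = side r e x t Q := by linarith
    rw [this] at hPQ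
    nlinarith [sq_nonneg (side r e x t Q)]
  set a := side r e x t P with ha
  set b := side r e x t Q with hb
  have hθ : a / (a - b) * (a - b) = a := div_mul_cancel₀ _ hd
  have hd2 : 0 < (a - b) ^ 2 := by positivity
  have h1 : 0 < a / (a - b) := by
    have : 0 < a / (a - b) * (a - b) ^ 2 := by
      have : a / (a - b) * (a - b) ^ 2 = a * (a - b) := by rw [sq, ← mul_assoc, hθ]
      rw [this]; nlinarith [sq_nonneg a, sq_pos_of_ne_zero hP]
    exact (mul_pos_iff_of_pos_right hd2).mp this
  have h2 : a / (a - b) < 1 := by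
    have : 0 < (1 - a / (a - b)) * (a - b) ^ 2 := by
      have : (1 - a / (a - b)) * (a - b) ^ 2 = -b * (a - b) := by
        have : a / (a - b) * (a - b) ^ 2 = a * (a - b) := by rw [sq, ← mul_assoc, hθ]
        linear_combination -this
      rw [this]; nlinarith [sq_nonneg b, sq_pos_of_ne_zero hQ]
    have := (mul_pos_iff_of_pos_right hd2).mp this
    linarith
  refine ⟨P + (a / (a - b)) • (Q - P), ⟨⟨a / (a - b), ⟨h1.le, h2.le⟩, ?_⟩, ?_, ?_⟩, ?_⟩
  · rw [AffineMap.lineMap_apply_module', add_comm]
  · intro h0
    apply hP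
    have h3 : side r e x t (P + (a / (a - b)) • (Q - P)) = a := by rw [h0]
    rw [side_affine, ← ha, ← hb] at h3
    have : a / (a - b) * (a - b) = 0 := by linear_combination -h3
    rw [hθ] at this
    exact this
  · intro h0
    apply hQ
    have h3 : side r e x t (P + (a / (a - b)) • (Q - P)) = b := by rw [h0]
    rw [side_affine, ← ha, ← hb] at h3
    linear_combination -h3 - hθ
  · rw [side_affine, ← ha, ← hb]
    linear_combination -hθ

/-- the separation condition in terms of sides -/
theorem separates_iff (h : Dom r e) (x : Letter) (t : ℝ) {P Q : ℂ} (hP : P ∈ elt r e x t)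
    (hQ : Q ∈ elt r e x t) :
    Separates (ann h) x (elt r e x t) P Q ↔ side r e x t P * side r e x t Q < 0 := by
  rcases x with _ | _
  · constructor
    · rintro ⟨A, B, hA, hB, hs⟩
      rw [elt_inter_ω h] at hA
      rw [circle_inter_k h] at hB
      have hA' := (Set.singleton_eq_singleton_iff.mp hA)
      have hB' := (Set.singleton_eq_singleton_iff.mp hB)
      subst hA' hB'
      obtain ⟨p, hp, hsb⟩ := hs.exists_sbtw
      apply side_mul_neg_of_sbtw hsb ((mem_line_iff h t p).mp hp)
      intro h0
      exact hs.left_notMem ((mem_line_iff h t P).mpr h0)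
    · intro hneg
      refine ⟨_, _, elt_inter_ω h .c t, circle_inter_k h t, ?_⟩
      obtain ⟨p, hsb, hp⟩ := exists_sbtw_of_side hneg
      apply hsb.sOppSide_of_notMem_of_mem _ ((mem_line_iff h t p).mpr hp)
      intro hmem
      rw [(mem_line_iff h t P).mp hmem, zero_mul] at hneg
      exact lt_irrefl _ hneg
  · constructor
    · rintro ⟨T, hT, hs⟩
      rw [elt_inter_ω h] at hT
      have hT' := (Set.singleton_eq_singleton_iff.mp hT)
      subst hT'
      apply side_mul_neg_of_sbtw hs (side_zero _ _)
      intro h0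
      rw [mem_chord_iff h] at hP
      obtain ⟨σ, rfl, _⟩ := hP
      rw [side_qpt] at h0
      rw [h0] at hs
      exact hs.2.1 rfl
    · intro hneg
      refine ⟨_, elt_inter_ω h .s t, ?_⟩
      obtain ⟨p, hsb, hp⟩ := exists_sbtw_of_side hneg
      rw [mem_chord_iff h] at hP hQ
      obtain ⟨σ, rfl, _⟩ := hP
      obtain ⟨σ', rfl, _⟩ := hQ
      have : p = qpt r e t 0 := by
        obtain ⟨⟨θ, _, rfl⟩, _⟩ := hsb
        have e1 : AffineMap.lineMap (qpt r e t σ) (qpt r e t σ') θ =
            qpt r e t (σ + θ * (σ' - σ)) := by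
          rw [AffineMap.lineMap_apply_module']
          apply Complex.ext <;> simp [qpt] <;> ring
        rw [e1, side_qpt] at hp
        rw [e1, hp]
      rw [← this]
      exact hsb

/-! ### circle and circle -/

theorem sq_zero_of_le {x : ℝ} (h : x ^ 2 ≤ 0) : x = 0 :=
  (pow_eq_zero_iff two_ne_zero).mp (le_antisymm h (sq_nonneg x))

/-- two inscribed circles with exactly one common point -/
theorem contact_cc (h : Dom r e) {t t' : ℝ} {P : ℂ}
    (hP : elt r e .c t ∩ elt r e .c t' = {P}) :
    Rel r e .c .c t t' ∧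
    P.re * (rho r e t + rho r e t') = rho r e t' * (ctr r e t).re + rho r e t * (ctr r e t').re ∧
    P.im * (rho r e t + rho r e t') = rho r e t' * (ctr r e t).im + rho r e t * (ctr r e t').im := by
  have hr := h.r_pos
  have hρ := rho_pos h t
  have hρ' := rho_pos h t'
  have hmul := rho_mul h t
  have hmul' := rho_mul h t'
  have hL := fL_pos h.domC t
  have hL' := fL_pos h.domC t'
  have hKLN := KLN (r := r) (e := e) t
  have hKLN' := KLN (r := r) (e := e) t'
  have hcs := sin_sq_add_cos_sq t
  have hcs' := sin_sq_add_cos_sq t'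
  have hC := cos_sub t' t
  have hPm : P ∈ elt r e .c t ∩ elt r e .c t' := by rw [hP]; rfl
  have huniq : ∀ X, X ∈ elt r e .c t ∩ elt r e .c t' → X = P := by
    intro X hX; rw [hP] at hX; exact hX
  simp only [elt] at hPm huniq
  obtain ⟨hP1, hP2⟩ := hPm
  rw [Metric.mem_sphere, dist_eq_iff hρ.le] at hP1
  rw [Metric.mem_sphere, dist_eq_iff hρ'.le] at hP2
  set ρ := rho r e t with hρd
  set ρ' := rho r e t' with hρd'
  -- squared distance of the centres
  set dx := (ctr r e t').re - (ctr r e t).re with hdx
  set dy := (ctr r e t').im - (ctr r e t).im with hdy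
  have hD : dx ^ 2 + dy ^ 2 = (ρ - ρ') ^ 2 + 2 * (r + ρ) * (r + ρ') * (1 - cos (t' - t)) := by
    rw [hdx, hdy, hC]
    simp only [ctr]
    rw [← hρd, ← hρd']
    linear_combination (r + ρ) ^ 2 * hcs + (r + ρ') ^ 2 * hcs'
  set D := dx ^ 2 + dy ^ 2 with hDd
  have hDnn : 0 ≤ D := by positivity
  have hcosle := cos_le_one (t' - t)
  have hrr : 0 < 2 * (r + ρ) * (r + ρ') := by positivity
  have hDpos : 0 < D := by
    rcases hDnn.lt_or_eq with h' | h'
    · exact h'
    · exfalso
      have hx0 : dx = 0 := sq_zero_of_le (by linarith [sq_nonneg dy])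
      have hy0 : dy = 0 := sq_zero_of_le (by linarith [sq_nonneg dx])
      have hρρ : ρ = ρ' := by
        have h1 : (ρ - ρ') ^ 2 ≤ 0 := by
          have := mul_nonneg hrr.le (by linarith : 0 ≤ 1 - cos (t' - t))
          linarith
        linarith [sq_zero_of_le h1]
      have key : ∀ s : ℝ, s ^ 2 = ρ ^ 2 →
          (⟨(ctr r e t).re + s, (ctr r e t).im⟩ : ℂ) = P := by
        intro s hs
        apply huniq
        constructor
        · rw [Metric.mem_sphere, dist_eq_iff hρ.le]
          simp only
          linear_combination hs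
        · rw [Metric.mem_sphere, dist_eq_iff hρ'.le]
          simp only
          have e1 : (ctr r e t').re = (ctr r e t).re := by linarith
          have e2 : (ctr r e t').im = (ctr r e t).im := by linarith
          rw [e1, e2, ← hρρ]
          linear_combination hs
      have k1 := key ρ rfl
      have k2 := key (-ρ) (by ring)
      rw [← k2] at k1
      have := congrArg Complex.re k1
      simp only at this
      linarith
  -- coordinates of P along and across the line of centres
  obtain ⟨lam, hlam⟩ : ∃ lam : ℝ, lam * D = (P.re - (ctr r e t).re) * dx +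
      (P.im - (ctr r e t).im) * dy := ⟨_ / D, div_mul_cancel₀ _ hDpos.ne'⟩
  obtain ⟨w, hw⟩ : ∃ w : ℝ, w * D = -(P.re - (ctr r e t).re) * dy +
      (P.im - (ctr r e t).im) * dx := ⟨_ / D, div_mul_cancel₀ _ hDpos.ne'⟩
  have hPre : P.re - (ctr r e t).re = lam * dx - w * dy := by
    have : D * (P.re - (ctr r e t).re - (lam * dx - w * dy)) = 0 := by
      rw [hDd] at hlam hw ⊢
      linear_combination (-dx) * hlam + dy * hw
    rcases mul_eq_zero.mp this with h' | h'
    · exact absurd h' hDpos.ne'
    · linarith
  have hPim : P.im - (ctr r e t).im = lam * dy + w * dx := by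
    have : D * (P.im - (ctr r e t).im - (lam * dy + w * dx)) = 0 := by
      rw [hDd] at hlam hw ⊢
      linear_combination (-dy) * hlam - dx * hw
    rcases mul_eq_zero.mp this with h' | h'
    · exact absurd h' hDpos.ne'
    · linarith
  have h1 : (lam ^ 2 + w ^ 2) * D = ρ ^ 2 := by
    rw [hPre, hPim] at hP1
    rw [hDd]; linear_combination hP1
  have h2 : ((lam - 1) ^ 2 + w ^ 2) * D = ρ' ^ 2 := by
    have e1 : P.re - (ctr r e t').re = (lam - 1) * dx - w * dy := by
      rw [hdx] at hPre ⊢; linear_combination hPre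
    have e2 : P.im - (ctr r e t').im = (lam - 1) * dy + w * dx := by
      rw [hdy] at hPim ⊢; linear_combination hPim
    rw [e1, e2] at hP2
    rw [hDd]; linear_combination hP2
  have hw0 : w = 0 := by
    have hrefl : (⟨(ctr r e t).re + (lam * dx + w * dy),
        (ctr r e t).im + (lam * dy - w * dx)⟩ : ℂ) = P := by
      apply huniq
      constructor
      · rw [Metric.mem_sphere, dist_eq_iff hρ.le]
        simp only
        rw [hDd] at h1
        linear_combination h1
      · rw [Metric.mem_sphere, dist_eq_iff hρ'.le]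
        simp only
        have e1 : (ctr r e t').re = (ctr r e t).re + dx := by rw [hdx]; ring
        have e2 : (ctr r e t').im = (ctr r e t).im + dy := by rw [hdy]; ring
        rw [e1, e2]
        rw [hDd] at h2
        linear_combination h2
    have e1 := congrArg Complex.re hrefl
    have e2 := congrArg Complex.im hrefl
    simp only at e1 e2
    have e3 : w * dy = 0 := by linarith
    have e4 : w * dx = 0 := by linarith
    have e5 : w * D = 0 := by
      rw [hDd]; linear_combination dx * e4 + dy * e3
    rcases mul_eq_zero.mp e5 with h' | h'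
    · exact h'
    · exact absurd h' hDpos.ne'
  rw [hw0] at h1 h2 hPre hPim
  -- external or internal tangency
  have hprod : (D - (ρ + ρ') ^ 2) * (D - (ρ - ρ') ^ 2) = 0 := by
    have e1 : 2 * lam * D = D + ρ ^ 2 - ρ' ^ 2 := by linear_combination h1 - h2
    have e2 : (2 * lam * D) ^ 2 = 4 * ρ ^ 2 * D := by linear_combination (4 * D) * h1
    rw [e1] at e2
    linear_combination e2
  have hext : D = (ρ + ρ') ^ 2 := by
    rcases mul_eq_zero.mp hprod with h' | h'
    · linarith
    · exfalso
      have e1 : 2 * (r + ρ) * (r + ρ') * (1 - cos (t' - t)) = 0 := by linarith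
      have e2 : cos (t' - t) = 1 := by
        rcases mul_eq_zero.mp e1 with h'' | h''
        · exact absurd h'' hrr.ne'
        · linarith
      have e3 : (cos t' - cos t) ^ 2 + (sin t' - sin t) ^ 2 = 0 := by
        rw [hC] at e2
        linear_combination hcs + hcs' - 2 * e2
      have e4 : cos t' = cos t := by
        linarith [sq_zero_of_le (x := cos t' - cos t) (by linarith [sq_nonneg (sin t' - sin t)])]
      have e5 : sin t' = sin t := by
        linarith [sq_zero_of_le (x := sin t' - sin t) (by linarith [sq_nonneg (cos t' - cos t)])]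
      have e6 : dx = 0 := by
        rw [hdx]; simp only [ctr, rho, fN, fL, e4]; ring
      have e7 : dy = 0 := by
        rw [hdy]; simp only [ctr, rho, fN, fL, e4, e5]; ring
      rw [hDd, e6, e7] at hDpos
      norm_num at hDpos
  have hlam2 : lam * (ρ + ρ') = ρ := by
    have e1 : 2 * lam * D = D + ρ ^ 2 - ρ' ^ 2 := by linear_combination h1 - h2
    rw [hext] at e1
    have e2 : (ρ + ρ') * (lam * (ρ + ρ') - ρ) = 0 := by linear_combination (1 / 2) * e1
    rcases mul_eq_zero.mp e2 with h' | h'
    · exfalso; linarith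
    · linarith
  refine ⟨?_, ?_, ?_⟩
  · simp only [Rel]
    have e1 : 4 * ρ * ρ' = 2 * (r + ρ) * (r + ρ') * (1 - cos (t' - t)) := by
      linear_combination hD - hext
    have e2 : (r + ρ) * (2 * fL r e t) = fK r e := by
      linear_combination hmul + hKLN
    have e3 : (r + ρ') * (2 * fL r e t') = fK r e := by
      linear_combination hmul' + hKLN'
    have e4 : fK r e ^ 2 = ((r + ρ) * (2 * fL r e t)) * ((r + ρ') * (2 * fL r e t')) := by
      rw [e2, e3]; ring
    rw [e4, ← hmul, ← hmul']
    linear_combination (-2 * fL r e t * fL r e t') * e1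
  · rw [hdx] at hPre
    linear_combination (ρ + ρ') * hPre + ((ctr r e t').re - (ctr r e t).re) * hlam2
  · rw [hdy] at hPim
    linear_combination (ρ + ρ') * hPim + ((ctr r e t').im - (ctr r e t).im) * hlam2

end

end Pool.Agent.H44.PS
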