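import Mathlib
import Pool.Agent.H44.PS.Contact

/-!
# Contact points: circle and chord, chord and chord; summary
-/

namespace Pool.Agent.H44.PS

open Real

noncomputable section

variable {r e : ℝ}

theorem qpt_inj {t σ σ' : ℝ} (h : qpt r e t σ = qpt r e t σ') : σ = σ' := by
  rw [← side_qpt (r := r) (e := e) t σ, h, side_qpt]

theorem qpt_mem_circle_iff (h : Dom r e) (t ψ σ : ℝ) :
    qpt r e ψ σ ∈ elt r e .c t ↔
      (σ - (r + rho r e t) * sin (t - ψ)) ^ 2 + (r - (r + rho r e t) * cos (t - ψ)) ^ 2 =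
        rho r e t ^ 2 := by
  have hρ := rho_pos h t
  have hcs := sin_sq_add_cos_sq t
  have hcs' := sin_sq_add_cos_sq ψ
  simp only [elt]
  rw [Metric.mem_sphere, dist_eq_iff hρ.le, sin_sub, cos_sub]
  simp only [qpt, ctr]
  set ρ := rho r e t
  have key : (e + r * cos ψ - σ * sin ψ - (e + (r + ρ) * cos t)) ^ 2 +
      (r * sin ψ + σ * cos ψ - (r + ρ) * sin t) ^ 2 =
      (σ - (r + ρ) * (sin t * cos ψ - cos t * sin ψ)) ^ 2 +
        (r - (r + ρ) * (cos t * cos ψ + sin t * sin ψ)) ^ 2 := by
    linear_combination (r ^ 2 + σ ^ 2 - (r + ρ) ^ 2 * (sin t ^ 2 + cos t ^ 2)) * hcs'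
  rw [key]

/-- an inscribed circle lies in the closed unit disc -/
theorem circle_in_disc (h : Dom r e) (t : ℝ) {X : ℂ} (hX : X ∈ elt r e .c t) :
    X.re ^ 2 + X.im ^ 2 ≤ 1 := by
  have hρ := rho_pos h t
  have hρ1 := rho_lt_one h t
  have hz := ctr_normSq h t
  simp only [elt] at hX
  rw [Metric.mem_sphere, dist_eq_iff hρ.le] at hX
  set z := ctr r e t
  set ρ := rho r e t
  have h1 : z.re * (X.re - z.re) + z.im * (X.im - z.im) ≤ (1 - ρ) * ρ := by
    refine (le_abs_self _).trans (abs_le_of_sq_le_sq ?_ (by nlinarith))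
    have : (z.re * (X.re - z.re) + z.im * (X.im - z.im)) ^ 2 =
        (z.re ^ 2 + z.im ^ 2) * ((X.re - z.re) ^ 2 + (X.im - z.im) ^ 2) -
        (z.re * (X.im - z.im) - z.im * (X.re - z.re)) ^ 2 := by ring
    rw [this, hz, hX]
    nlinarith [sq_nonneg (z.re * (X.im - z.im) - z.im * (X.re - z.re))]
  have h2 : X.re ^ 2 + X.im ^ 2 = (z.re ^ 2 + z.im ^ 2) + 2 * (z.re * (X.re - z.re) +
    z.im * (X.im - z.im)) + ((X.re - z.re) ^ 2 + (X.im - z.im) ^ 2) := by ring
  rw [h2, hz, hX]
  nlinarith

/-- a circle and a chord with exactly one common point -/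
theorem contact_cs (h : Dom r e) {t ψ : ℝ} {P : ℂ} (hP : elt r e .c t ∩ elt r e .s ψ = {P}) :
    P = qpt r e ψ ((r + rho r e t) * sin (t - ψ)) ∧
    ((r + rho r e t) * cos (t - ψ) = r - rho r e t ∨ cos (t - ψ) = 1) := by
  have hr := h.r_pos
  have hρ := rho_pos h t
  have hPm : P ∈ elt r e .c t ∩ elt r e .s ψ := by rw [hP]; rfl
  have huniq : ∀ X, X ∈ elt r e .c t ∩ elt r e .s ψ → X = P := by
    intro X hX; rw [hP] at hX; exact hX
  obtain ⟨hP1, hP2⟩ := hPm
  rw [mem_chord_iff h] at hP2
  obtain ⟨σ, rfl, hσ⟩ := hP2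
  have h1 := (qpt_mem_circle_iff h t ψ σ).mp hP1
  have h2 : qpt r e ψ (2 * ((r + rho r e t) * sin (t - ψ)) - σ) ∈ elt r e .c t := by
    rw [qpt_mem_circle_iff h]; linear_combination h1
  have h3 : qpt r e ψ (2 * ((r + rho r e t) * sin (t - ψ)) - σ) ∈ elt r e .s ψ := by
    rw [qpt_mem_chord_iff h]; exact circle_in_disc h t h2
  have h4 := qpt_inj (huniq _ ⟨h2, h3⟩)
  have h5 : σ = (r + rho r e t) * sin (t - ψ) := by linarith
  refine ⟨by rw [← h5], ?_⟩
  rw [h5] at h1
  have h6 : (r - (r + rho r e t) * cos (t - ψ)) ^ 2 = rho r e t ^ 2 := by linear_combination h1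
  rcases sq_eq_sq_iff_eq_or_eq_neg.mp h6 with h7 | h7
  · left; linarith
  · right
    have h8 : (r + rho r e t) * (cos (t - ψ) - 1) = 0 := by linear_combination -h7
    rcases mul_eq_zero.mp h8 with h9 | h9
    · exfalso; linarith
    · linarith

/-- tangency of circle and chord in terms of the relation -/
theorem rel_cs_iff (h : Dom r e) (t ψ : ℝ) :
    (r + rho r e t) * cos (t - ψ) = r - rho r e t ↔ Rel r e .c .s t ψ := by
  have hmul := rho_mul h t
  have hL := fL_pos h.domC t
  have hKLN := KLN (r := r) (e := e) t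
  have e2 : (r + rho r e t) * (2 * fL r e t) = fK r e := by
    linear_combination hmul + hKLN
  have e3 : (r - rho r e t) * (2 * fL r e t) =
      3 * r ^ 2 + 2 * r - 1 + e ^ 2 + 4 * e * r * cos t := by
    simp only [fL, fN] at hmul ⊢
    linear_combination -hmul
  have e4 : cos (ψ - t) = cos (t - ψ) := by rw [← cos_neg]; congr 1; ring
  simp only [Rel]
  rw [e4, ← e2, ← e3]
  constructor
  · intro h1
    linear_combination (2 * fL r e t) * h1
  · intro h1
    have h2 : (2 * fL r e t) * ((r + rho r e t) * cos (t - ψ) - (r - rho r e t)) = 0 := by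
      linear_combination h1
    rcases mul_eq_zero.mp h2 with h3 | h3
    · exfalso; linarith
    · linarith

/-- positivity behind the position of the contact points on circles -/
theorem NL_gt (h : Dom r e) (t : ℝ) : 2 * r * (e * sin t) ^ 2 < fN r e t * fL r e t := by
  have hcs := sin_sq_add_cos_sq t
  have h1 : fN r e t * fL r e t - 2 * r * (e * sin t) ^ 2 =
      (1 + cos t) / 2 * (fN r e 0 * fL r e 0) + (1 - cos t) / 2 * (fN r e π * fL r e π) := by
    simp only [fN, fL, cos_zero, cos_pi]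
    linear_combination (-2 * r * e ^ 2) * hcs
  have h2 : 0 < fN r e 0 * fL r e 0 := mul_pos (fN_pos h 0) (fL_pos h.domC 0)
  have h3 : 0 < fN r e π * fL r e π := mul_pos (fN_pos h π) (fL_pos h.domC π)
  have h4 := neg_one_le_cos t
  have h5 := cos_le_one t
  have h6 : 0 < (1 + cos t) / 2 * (fN r e 0 * fL r e 0) +
      (1 - cos t) / 2 * (fN r e π * fL r e π) := by
    rcases h4.lt_or_eq with h7 | h7
    · have := mul_pos (by linarith : 0 < (1 + cos t) / 2) h2
      have := mul_nonneg (by linarith : 0 ≤ (1 - cos t) / 2) h3.le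
      linarith
    · rw [← h7]; linarith
  linarith

theorem sign_cs (h : Dom r e) {t ψ : ℝ} (hrel : Rel r e .c .s t ψ) :
    0 < (e * (sin t + sin ψ) + (1 + r) * sin (ψ - t)) * sin (ψ - t) := by
  have hr := h.r_pos
  have hN := fN_pos h t
  have hL := fL_pos h.domC t
  have hK := fK_pos h.domC
  have hNL := NL_gt h t
  simp only [Rel] at hrel
  have hcs := sin_sq_add_cos_sq t
  have hcd := sin_sq_add_cos_sq (ψ - t)
  have hsψ : sin ψ = sin t * cos (ψ - t) + cos t * sin (ψ - t) := by
    rw [← sin_add]; congr 1; ring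
  rw [hsψ]
  set S := sin (ψ - t)
  set C := cos (ψ - t)
  have h1 : fK r e * (1 - C) = 2 * fN r e t := by
    simp only [fK, fN] at hrel ⊢
    linear_combination -hrel
  have h2 : fK r e * (1 + C) = 4 * r * fL r e t := by
    simp only [fK, fL] at hrel ⊢
    linear_combination hrel
  have h1C : 0 < 1 + C := by
    have : 0 < fK r e * (1 + C) := by rw [h2]; positivity
    exact (mul_pos_iff_of_pos_left hK).mp this
  -- the product equals (1 + C) * ((1 - C) L + e sin t S)
  have h3 : (e * (sin t + (sin t * C + cos t * S)) + (1 + r) * S) * S =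
      (1 + C) * ((1 - C) * fL r e t + e * sin t * S) := by
    simp only [fL]
    linear_combination (e * cos t + 1 + r) * hcd
  rw [h3]
  apply mul_pos h1C
  have h4 : (e * sin t * S) ^ 2 < ((1 - C) * fL r e t) ^ 2 := by
    have h5 : fK r e ^ 2 * ((1 - C) * fL r e t) ^ 2 =
        4 * fN r e t * fL r e t * (fN r e t * fL r e t) := by
      linear_combination (fL r e t ^ 2 * (fK r e * (1 - C) + 2 * fN r e t)) * h1
    have h6 : fK r e ^ 2 * (e * sin t * S) ^ 2 =
        4 * fN r e t * fL r e t * (2 * r * (e * sin t) ^ 2) := by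
      have h7 : S ^ 2 = (1 - C) * (1 + C) := by linear_combination hcd
      rw [mul_pow _ S, h7]
      linear_combination ((e * sin t) ^ 2 * fK r e * (1 + C)) * h1 +
        (2 * fN r e t * (e * sin t) ^ 2) * h2
    have h8 : 0 < 4 * fN r e t * fL r e t := by positivity
    have h9 := mul_lt_mul_of_pos_left hNL h8
    rw [← h5, ← h6] at h9
    exact lt_of_mul_lt_mul_left h9 (by positivity)
  have h10 := abs_lt_of_sq_lt_sq h4 (by
    have : 0 < fK r e * (1 - C) := by rw [h1]; positivity
    have := (mul_pos_iff_of_pos_left hK).mp this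
    positivity)
  have := neg_abs_le (e * sin t * S)
  linarith

/-- sides of the contact point of a circle and a chord -/
theorem sides_cs (h : Dom r e) {t ψ : ℝ} (hrel : Rel r e .c .s t ψ) :
    0 < side r e .c t (qpt r e ψ ((r + rho r e t) * sin (t - ψ))) * sin (ψ - t) ∧
    side r e .s ψ (qpt r e ψ ((r + rho r e t) * sin (t - ψ))) * sin (ψ - t) < 0 := by
  have hr := h.r_pos
  have hρ := rho_pos h t
  have hs := sign_cs h hrel
  have hcos := (rel_cs_iff h t ψ).mpr hrel
  have hcs := sin_sq_add_cos_sq ψ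
  have hsneg : sin (t - ψ) = -sin (ψ - t) := by rw [← sin_neg]; congr 1; ring
  constructor
  · have e1 : side r e .c t (qpt r e ψ ((r + rho r e t) * sin (t - ψ))) =
        rho r e t * (e * (sin t + sin ψ) + (1 + r) * sin (ψ - t)) := by
      rw [sin_sub] at hsneg ⊢
      rw [cos_sub] at hcos
      rw [sin_sub ψ t]
      simp only [side, qpt]
      set ρ := rho r e t
      have a1 : e + r * cos ψ - (r + ρ) * (sin t * cos ψ - cos t * sin ψ) * sin ψ - e -
          r * cos t = ρ * (cos t + cos ψ) := by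
        linear_combination ((r + ρ) * cos t) * hcs - (cos ψ) * hcos
      have a2 : r * sin ψ + (r + ρ) * (sin t * cos ψ - cos t * sin ψ) * cos ψ - r * sin t =
          ρ * (sin t + sin ψ) := by
        linear_combination ((r + ρ) * sin t) * hcs - (sin ψ) * hcos
      rw [a1, a2]; ring
    rw [e1, mul_assoc]
    exact mul_pos hρ hs
  · rw [side_qpt, hsneg]
    have hne : sin (ψ - t) ≠ 0 := by
      intro h0; rw [h0, mul_zero] at hs; exact lt_irrefl _ hs
    have : 0 < (r + rho r e t) * sin (ψ - t) ^ 2 := by positivity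
    linarith

/-- two chords meeting in exactly one point, which lies on the outer circle -/
theorem contact_ss (h : Dom r e) {t t' : ℝ} {P : ℂ} (hP : elt r e .s t ∩ elt r e .s t' = {P})
    (hk : P ∈ (ann h).k) :
    ∃ σ, σ ≠ 0 ∧ P = qpt r e t σ ∧ P = qpt r e t' (-σ) ∧
      (r ^ 2 + σ ^ 2) * sin (t' - t) = 2 * r * σ ∧ Rel r e .s .s t t' := by
  have hr := h.r_pos
  have hPm : P ∈ elt r e .s t ∩ elt r e .s t' := by rw [hP]; rfl
  have huniq : ∀ X, X ∈ elt r e .s t ∩ elt r e .s t' → X = P := by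
    intro X hX; rw [hP] at hX; exact hX
  obtain ⟨hP1, hP2⟩ := hPm
  rw [mem_chord_iff h] at hP1 hP2
  obtain ⟨σ, hσ, hσ1⟩ := hP1
  obtain ⟨σ', hσ', hσ1'⟩ := hP2
  have hcs := sin_sq_add_cos_sq t
  have hcs' := sin_sq_add_cos_sq t'
  have hkσ : (σ - e * sin t) ^ 2 = hl r e t ^ 2 := by
    rw [← qpt_mem_k_iff h, ← hσ]; exact hk
  have hσne : σ ≠ 0 := by
    intro h0
    rw [h0, zero_sub, neg_sq] at hkσ
    have h1 := hl_gt h t
    have h2 := sq_lt_sq' (by linarith [abs_nonneg (e * sin t)]) h1
    rw [sq_abs] at h2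
    linarith
  have heq := hσ.symm.trans hσ'
  have hre := congrArg Complex.re heq
  have him := congrArg Complex.im heq
  simp only [qpt] at hre him
  have hsq : σ ^ 2 = σ' ^ 2 := by
    linear_combination (-σ ^ 2 - r ^ 2) * hcs + (r ^ 2 + σ' ^ 2) * hcs' +
      (r * cos t - σ * sin t + r * cos t' - σ' * sin t') * hre +
      (r * sin t + σ * cos t + r * sin t' + σ' * cos t') * him
  have hpos : 0 < r ^ 2 + σ ^ 2 := by positivity
  rcases sq_eq_sq_iff_eq_or_eq_neg.mp hsq with h1 | h1
  · exfalso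
    -- same chord
    rw [← h1] at hre him
    have c1 : (r ^ 2 + σ ^ 2) * (cos t - cos t') = 0 := by
      linear_combination r * hre + σ * him
    have c2 : (r ^ 2 + σ ^ 2) * (sin t - sin t') = 0 := by
      linear_combination (-σ) * hre + r * him
    have d1 : cos t = cos t' := by
      rcases mul_eq_zero.mp c1 with h' | h'
      · exact absurd h' hpos.ne'
      · linarith
    have d2 : sin t = sin t' := by
      rcases mul_eq_zero.mp c2 with h' | h'
      · exact absurd h' hpos.ne'
      · linarith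
    have hsame : elt r e .s t = elt r e .s t' := elt_congr d1 d2
    have hlp := hl_pos h t
    have k1 : qpt r e t (e * sin t + hl r e t) = P := by
      apply huniq
      rw [← hsame, Set.inter_self, mem_chord_iff h]
      exact ⟨_, rfl, by rw [add_sub_cancel_left, abs_of_pos hlp]⟩
    have k2 : qpt r e t (e * sin t - hl r e t) = P := by
      apply huniq
      rw [← hsame, Set.inter_self, mem_chord_iff h]
      exact ⟨_, rfl, by rw [sub_sub_cancel_left, abs_neg, abs_of_pos hlp]⟩
    have := qpt_inj (k1.trans k2.symm)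
    linarith
  · have h1' : σ' = -σ := by linarith
    rw [h1'] at hre him hσ'
    have c1 : (r ^ 2 + σ ^ 2) * cos t' = (r ^ 2 - σ ^ 2) * cos t - 2 * r * σ * sin t := by
      linear_combination (-r) * hre + σ * him
    have c2 : (r ^ 2 + σ ^ 2) * sin t' = (r ^ 2 - σ ^ 2) * sin t + 2 * r * σ * cos t := by
      linear_combination (-σ) * hre - r * him
    have hS : (r ^ 2 + σ ^ 2) * sin (t' - t) = 2 * r * σ := by
      rw [sin_sub]
      linear_combination (cos t) * c2 - (sin t) * c1 + (2 * r * σ) * hcs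
    have hC : (r ^ 2 + σ ^ 2) * cos (t' - t) = r ^ 2 - σ ^ 2 := by
      rw [cos_sub]
      linear_combination (sin t) * c2 + (cos t) * c1 + (r ^ 2 - σ ^ 2) * hcs
    refine ⟨σ, hσne, hσ, hσ', hS, ?_⟩
    have hq : σ ^ 2 - 2 * e * σ * sin t = fN r e t := by
      rw [hl_sq h] at hkσ
      have := JL_sub (r := r) (e := e) t
      linear_combination hkσ + this
    simp only [Rel]
    simp only [fN] at hq
    have : (r ^ 2 + σ ^ 2) * ((1 - e ^ 2) * (1 + cos (t' - t)) / 2 - e * r * (cos t + cos t') -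
        r ^ 2) = 0 := by
      linear_combination ((1 - e ^ 2) / 2) * hC - (e * r) * c1 - r ^ 2 * hq
    rcases mul_eq_zero.mp this with h' | h'
    · exact absurd h' hpos.ne'
    · exact h'

end

end Pool.Agent.H44.PS
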