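import Mathlib
import Pool.Agent.H44.PS.Contact2

/-!
# Contact points: sides for circle and circle; summary; converse
-/

namespace Pool.Agent.H44.PS

open Real

noncomputable section

variable {r e : ℝ}

theorem fN_lt_fK (h : Dom r e) (t : ℝ) : fN r e t < fK r e := by
  have hr := h.r_pos
  have hL := fL_pos h.domC t
  have := KLN (r := r) (e := e) t
  have : 0 < 2 * r * fL r e t := by positivity
  linarith

theorem rel_cc_cos (h : Dom r e) {t t' : ℝ} (hrel : Rel r e .c .c t t') :
    0 < 1 + cos (t' - t) := by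
  have hK := fK_pos h.domC
  have hN := fN_pos h t
  have hN' := fN_pos h t'
  have h1 := fN_lt_fK h t
  have h2 := fN_lt_fK h t'
  simp only [Rel] at hrel
  have h3 : fN r e t * fN r e t' < fK r e ^ 2 := by nlinarith
  have h4 : fK r e ^ 2 * (1 + cos (t' - t)) = 2 * (fK r e ^ 2 - fN r e t * fN r e t') := by
    linear_combination -hrel
  have h5 : 0 < fK r e ^ 2 * (1 + cos (t' - t)) := by rw [h4]; linarith
  exact (mul_pos_iff_of_pos_left (by positivity)).mp h5

theorem sign_cc (h : Dom r e) {t t' : ℝ} (hrel : Rel r e .c .c t t') :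
    0 < (e * ((rho r e t' - r) * sin t + (r + rho r e t') * sin t') +
      (1 + r) * (r + rho r e t') * sin (t' - t)) * sin (t' - t) := by
  have hr := h.r_pos
  have he := h.e_nonneg
  have he1 := e_lt_one h.domC
  have hN := fN_pos h t
  have hN' := fN_pos h t'
  have hL := fL_pos h.domC t
  have hL' := fL_pos h.domC t'
  have hK := fK_pos h.domC
  have hK4 := fK_ge h.domC
  have h1C := rel_cc_cos h hrel
  have hmul := rho_mul h t'
  have hKLN := KLN (r := r) (e := e) t
  have hKLN' := KLN (r := r) (e := e) t'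
  have hcs := sin_sq_add_cos_sq t
  have hcd := sin_sq_add_cos_sq (t' - t)
  simp only [Rel] at hrel
  have hst' : sin t' = sin t * cos (t' - t) + cos t * sin (t' - t) := by
    rw [← sin_add]; congr 1; ring
  have hct' : cos t' = cos t * cos (t' - t) - sin t * sin (t' - t) := by
    rw [← cos_add]; congr 1; ring
  set S := sin (t' - t) with hS
  set C := cos (t' - t) with hC
  set ρ' := rho r e t' with hρ'
  set E := e * ((ρ' - r) * sin t + (r + ρ') * sin t') + (1 + r) * (r + ρ') * S with hE
  set W := fN r e t * (1 + C) + 2 * r * (e * sin t) * S with hW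
  -- 2 L' E
  have e0 : (r + ρ') * (2 * fL r e t') = fK r e := by linear_combination hmul + hKLN'
  have e1 : 2 * fL r e t' * E = fK r e * (e * sin t * (1 + C) + fL r e t * S) -
      2 * (e * sin t) * (fK r e - fN r e t') := by
    rw [hE, hst']
    simp only [fL] at e0 hmul hKLN' ⊢
    linear_combination (e * sin t + e * (sin t * C + cos t * S) + (1 + r) * S) * e0 -
      (2 * (e * sin t)) * (e0 - hmul)
  have hSS : S ^ 2 = (1 - C) * (1 + C) := by linear_combination hcd
  have e2 : fN r e t * (1 + C) * (2 * fL r e t' * E) = fK r e * fL r e t * S * W := by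
    rw [e1, hW]
    linear_combination ((-(e * sin t)) * (1 + C)) * hrel +
      ((-1) * (e * sin t) * fK r e * (1 + C) * (1 - C)) * hKLN -
      (2 * r * (e * sin t) * fK r e * fL r e t) * hSS
  -- W² = 4 r K S²
  have e3 : W ^ 2 = 4 * r * fK r e * S ^ 2 := by
    have hN'' : fN r e t' = 1 - r ^ 2 - e ^ 2 - 2 * e * r * (cos t * C - sin t * S) := by
      simp only [fN]; rw [hct']
    rw [hN''] at hrel
    have hQ : fK r e ^ 2 + 4 * r ^ 2 * (e * sin t) ^ 2 - fN r e t ^ 2 -
        4 * r * (e * cos t) * fN r e t = 4 * r * fK r e := by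
      simp only [fK, fN]
      linear_combination (4 * r ^ 2 * e ^ 2) * hcs
    have hNt : 1 - r ^ 2 - e ^ 2 - 2 * e * r * (cos t * C - sin t * S) =
        fN r e t + 2 * e * r * cos t * (1 - C) + 2 * e * r * sin t * S := by
      simp only [fN]; ring
    rw [hNt] at hrel
    rw [hW]
    rw [← hQ]
    linear_combination (1 + C) * (-1) * hrel +
      (-(fK r e ^ 2) + fN r e t ^ 2 + 4 * r * (e * cos t) * fN r e t) * hSS
  have hWpos : 0 < W := by
    by_contra hcon
    push Not at hcon
    have hNC : 0 < fN r e t * (1 + C) := by positivity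
    have h1 : 0 ≤ -W := by linarith
    have h2 : -W < -(2 * r * (e * sin t) * S) := by rw [hW]; linarith
    have h3 : W ^ 2 < (2 * r * (e * sin t) * S) ^ 2 := by
      nlinarith
    rw [e3] at h3
    have h4 : (e * sin t) ^ 2 ≤ 1 := by
      have : sin t ^ 2 ≤ 1 := by nlinarith [sq_nonneg (cos t)]
      have : (e * sin t) ^ 2 = e ^ 2 * sin t ^ 2 := by ring
      rw [this]
      have : e ^ 2 ≤ 1 := by nlinarith
      nlinarith [sq_nonneg e, sq_nonneg (sin t)]
    have h5 : (2 * r * (e * sin t) * S) ^ 2 = 4 * r ^ 2 * S ^ 2 * (e * sin t) ^ 2 := by ring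
    rw [h5] at h3
    have h6 : 4 * r ^ 2 * S ^ 2 * (e * sin t) ^ 2 ≤ 4 * r ^ 2 * S ^ 2 := by
      have : 0 ≤ 4 * r ^ 2 * S ^ 2 := by positivity
      nlinarith
    have h7 : 4 * r ^ 2 * S ^ 2 ≤ 4 * r * fK r e * S ^ 2 := by
      have : 0 ≤ 4 * r * S ^ 2 * (fK r e - r) := by
        have : 0 ≤ fK r e - r := by linarith
        positivity
      linarith
    linarith
  have hSne : S ≠ 0 := by
    intro h0
    rw [h0] at e3
    have : W ^ 2 > 0 := by positivity
    rw [e3] at this
    norm_num at this
  have e4 : fN r e t * (1 + C) * (2 * fL r e t') * (E * S) =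
      fK r e * fL r e t * S ^ 2 * W := by
    linear_combination S * e2
  have e5 : 0 < fN r e t * (1 + C) * (2 * fL r e t') := by positivity
  have e6 : 0 < fK r e * fL r e t * S ^ 2 * W := by positivity
  rw [← e4] at e6
  exact (mul_pos_iff_of_pos_left e5).mp e6

theorem rel_cc_symm {t t' : ℝ} (hrel : Rel r e .c .c t t') : Rel r e .c .c t' t := by
  simp only [Rel] at hrel ⊢
  have : cos (t - t') = cos (t' - t) := by rw [← cos_neg]; congr 1; ring
  rw [this]; linear_combination hrel

theorem side_cc (h : Dom r e) {t t' : ℝ} (hrel : Rel r e .c .c t t') {P : ℂ}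
    (h1 : P.re * (rho r e t + rho r e t') =
      rho r e t' * (ctr r e t).re + rho r e t * (ctr r e t').re)
    (h2 : P.im * (rho r e t + rho r e t') =
      rho r e t' * (ctr r e t).im + rho r e t * (ctr r e t').im) :
    0 < side r e .c t P * sin (t' - t) := by
  have hρ := rho_pos h t
  have hρ' := rho_pos h t'
  have hs := sign_cc h hrel
  have hsd : sin (t' - t) = sin t' * cos t - cos t' * sin t := sin_sub t' t
  simp only [ctr] at h1 h2
  have e1 : (rho r e t + rho r e t') * side r e .c t P = rho r e t *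
      (e * ((rho r e t' - r) * sin t + (r + rho r e t') * sin t') +
      (1 + r) * (r + rho r e t') * sin (t' - t)) := by
    rw [hsd]
    simp only [side]
    linear_combination (e + (1 + r) * cos t) * h2 - ((1 + r) * sin t) * h1
  have e2 : 0 < (rho r e t + rho r e t') * (side r e .c t P * sin (t' - t)) := by
    have : (rho r e t + rho r e t') * (side r e .c t P * sin (t' - t)) = rho r e t *
      ((e * ((rho r e t' - r) * sin t + (r + rho r e t') * sin t') +
      (1 + r) * (r + rho r e t') * sin (t' - t)) * sin (t' - t)) := by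
      rw [← mul_assoc, e1]; ring
    rw [this]
    exact mul_pos hρ hs
  exact (mul_pos_iff_of_pos_left (by linarith)).mp e2

theorem sides_cc (h : Dom r e) {t t' : ℝ} (hrel : Rel r e .c .c t t') {P : ℂ}
    (h1 : P.re * (rho r e t + rho r e t') =
      rho r e t' * (ctr r e t).re + rho r e t * (ctr r e t').re)
    (h2 : P.im * (rho r e t + rho r e t') =
      rho r e t' * (ctr r e t).im + rho r e t * (ctr r e t').im) :
    0 < side r e .c t P * sin (t' - t) ∧ side r e .c t' P * sin (t' - t) < 0 := by
  refine ⟨side_cc h hrel h1 h2, ?_⟩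
  have := side_cc h (rel_cc_symm hrel) (P := P) (by linear_combination h1)
    (by linear_combination h2)
  have hsneg : sin (t - t') = -sin (t' - t) := by rw [← sin_neg]; congr 1; ring
  rw [hsneg] at this
  linarith

theorem rel_sc_iff (t ψ : ℝ) : Rel r e .s .c ψ t ↔ Rel r e .c .s t ψ := by
  have : cos (t - ψ) = cos (ψ - t) := by rw [← cos_neg]; congr 1; ring
  simp only [Rel]
  rw [this]

/-- everything about a contact point -/
theorem contact_info (h : Dom r e) {x y : Letter} {t t' : ℝ} {P : ℂ}
    (hP : IsContact (ann h) x y (elt r e x t) (elt r e y t') P) :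
    (Rel r e x y t t' ∧ 0 < side r e x t P * sin (t' - t) ∧ side r e y t' P * sin (t' - t) < 0) ∨
    (cos (t' - t) = 1 ∧ side r e x t P = 0 ∧ side r e y t' P = 0) := by
  have hr := h.r_pos
  obtain ⟨hP, hk⟩ := hP
  have hdeg : ∀ t ψ : ℝ, cos (t - ψ) = 1 → P = qpt r e ψ ((r + rho r e t) * sin (t - ψ)) →
      side r e .c t P = 0 ∧ side r e .s ψ P = 0 := by
    intro t ψ hc hPe
    have hs : sin (t - ψ) = 0 := by
      have := sin_sq_add_cos_sq (t - ψ)
      rw [hc] at this
      have : sin (t - ψ) ^ 2 = 0 := by linarith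
      exact (pow_eq_zero_iff two_ne_zero).mp this
    rw [hs, mul_zero] at hPe
    have hcc : cos t = cos ψ := by
      have := cos_add (t - ψ) ψ
      rw [sub_add_cancel, hc, hs] at this
      linarith
    have hss : sin t = sin ψ := by
      have := sin_add (t - ψ) ψ
      rw [sub_add_cancel, hc, hs] at this
      linarith
    constructor
    · rw [hPe]
      have : qpt r e ψ 0 = qpt r e t 0 := by
        simp only [qpt, hcc, hss]
      rw [this, side_zero]
    · rw [hPe, side_zero]
  rcases x with _ | _ <;> rcases y with _ | _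
  · obtain ⟨h1, h2, h3⟩ := contact_cc h hP
    exact Or.inl ⟨h1, sides_cc h h1 h2 h3⟩
  · obtain ⟨h1, h2⟩ := contact_cs h hP
    rcases h2 with h2 | h2
    · have h3 := (rel_cs_iff h t t').mp h2
      left
      have := sides_cs h h3
      rw [← h1] at this
      exact ⟨h3, this⟩
    · right
      have : cos (t' - t) = cos (t - t') := by rw [← cos_neg]; congr 1; ring
      rw [this]
      exact ⟨h2, hdeg _ _ h2 h1⟩
  · rw [Set.inter_comm] at hP
    obtain ⟨h1, h2⟩ := contact_cs h hP
    rcases h2 with h2 | h2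
    · have h3 := (rel_cs_iff h t' t).mp h2
      left
      have := sides_cs h h3
      rw [← h1] at this
      have hsneg : sin (t - t') = -sin (t' - t) := by rw [← sin_neg]; congr 1; ring
      rw [hsneg] at this
      exact ⟨(rel_sc_iff _ _).mpr h3, by linarith [this.2], by linarith [this.1]⟩
    · right
      have := hdeg _ _ h2 h1
      exact ⟨h2, this.2, this.1⟩
  · obtain ⟨σ, hσ, h1, h2, h3, h4⟩ := contact_ss h hP (hk rfl rfl)
    left
    have hpos : 0 < r ^ 2 + σ ^ 2 := by positivity
    have hσs : 0 < σ * sin (t' - t) := by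
      have e1 : (r ^ 2 + σ ^ 2) * (σ * sin (t' - t)) = 2 * r * σ ^ 2 := by
        linear_combination σ * h3
      have e2 : 0 < (r ^ 2 + σ ^ 2) * (σ * sin (t' - t)) := by rw [e1]; positivity
      exact (mul_pos_iff_of_pos_left hpos).mp e2
    refine ⟨h4, ?_, ?_⟩
    · rw [h1, side_qpt]; exact hσs
    · rw [h2, side_qpt]; linarith

/-! ### existence of the contact point -/

theorem sin_step_pos (h : Dom r e) (x y : Letter) (t : ℝ) : 0 < sin (step r e x y t - t) := by
  have hf := fstep_pos h x y t
  have : step r e x y t - t = 2 * arctan (fstep r e x y t) := by unfold step; ring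
  rw [this, sin_two_arctan]
  positivity

theorem exists_contact_cc (h : Dom r e) {t t' : ℝ} (hrel : Rel r e .c .c t t') :
    ∃ P, elt r e .c t ∩ elt r e .c t' = {P} := by
  have hr := h.r_pos
  have hρ := rho_pos h t
  have hρ' := rho_pos h t'
  have hmul := rho_mul h t
  have hmul' := rho_mul h t'
  have hL := fL_pos h.domC t
  have hL' := fL_pos h.domC t'
  have hKLN := KLN (r := r) (e := e) t
  have hKLN' := KLN (r := r) (e := e) t'
  have hcs := sin_sq_add_cos_sq t
  have hcs' := sin_sq_add_cos_sq t'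
  have hC := cos_sub t' t
  simp only [elt]
  set ρ := rho r e t with hρd
  set ρ' := rho r e t' with hρd'
  set dx := (ctr r e t').re - (ctr r e t).re with hdx
  set dy := (ctr r e t').im - (ctr r e t).im with hdy
  have hD : dx ^ 2 + dy ^ 2 = (ρ - ρ') ^ 2 + 2 * (r + ρ) * (r + ρ') * (1 - cos (t' - t)) := by
    rw [hdx, hdy, hC]
    simp only [ctr]
    rw [← hρd, ← hρd']
    linear_combination (r + ρ) ^ 2 * hcs + (r + ρ') ^ 2 * hcs'
  have hext : dx ^ 2 + dy ^ 2 = (ρ + ρ') ^ 2 := by
    simp only [Rel] at hrel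
    have e2 : (r + ρ) * (2 * fL r e t) = fK r e := by
      linear_combination hmul + hKLN
    have e3 : (r + ρ') * (2 * fL r e t') = fK r e := by
      linear_combination hmul' + hKLN'
    have e4 : fK r e ^ 2 = ((r + ρ) * (2 * fL r e t)) * ((r + ρ') * (2 * fL r e t')) := by
      rw [e2, e3]; ring
    rw [e4, ← hmul, ← hmul'] at hrel
    have e5 : (2 * fL r e t * fL r e t') *
        (2 * (r + ρ) * (r + ρ') * (1 - cos (t' - t)) - 4 * ρ * ρ') = 0 := by
      linear_combination hrel
    rcases mul_eq_zero.mp e5 with e6 | e6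
    · have : 0 < 2 * fL r e t * fL r e t' := by positivity
      exact absurd e6 this.ne'
    · linear_combination hD + e6
  have hs : 0 < ρ + ρ' := by linarith
  set mu := ρ / (ρ + ρ') with hmu
  have hmu1 : mu * (ρ + ρ') = ρ := div_mul_cancel₀ _ hs.ne'
  refine ⟨⟨(ctr r e t).re + mu * dx, (ctr r e t).im + mu * dy⟩, ?_⟩
  ext X
  rw [Set.mem_inter_iff, Metric.mem_sphere, Metric.mem_sphere, dist_eq_iff hρ.le,
    dist_eq_iff hρ'.le, Set.mem_singleton_iff]
  have hz're : (ctr r e t').re = (ctr r e t).re + dx := by rw [hdx]; ring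
  have hz'im : (ctr r e t').im = (ctr r e t).im + dy := by rw [hdy]; ring
  rw [hz're, hz'im]
  constructor
  · rintro ⟨h1, h2⟩
    set a := X.re - (ctr r e t).re with ha
    set b := X.im - (ctr r e t).im with hb
    have h2' : (a - dx) ^ 2 + (b - dy) ^ 2 = ρ' ^ 2 := by
      rw [ha, hb]; linear_combination h2
    have h3 : a * dx + b * dy = ρ * (ρ + ρ') := by
      linear_combination (1 / 2) * h1 - (1 / 2) * h2' + (1 / 2) * hext
    have h4 : ((ρ + ρ') * a - ρ * dx) ^ 2 + ((ρ + ρ') * b - ρ * dy) ^ 2 = 0 := by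
      linear_combination (ρ + ρ') ^ 2 * h1 - 2 * (ρ + ρ') * ρ * h3 + ρ ^ 2 * hext
    have h5 : (ρ + ρ') * a - ρ * dx = 0 :=
      sq_zero_of_le (by linarith [sq_nonneg ((ρ + ρ') * b - ρ * dy)])
    have h6 : (ρ + ρ') * b - ρ * dy = 0 :=
      sq_zero_of_le (by linarith [sq_nonneg ((ρ + ρ') * a - ρ * dx)])
    apply Complex.ext
    · show X.re = (ctr r e t).re + mu * dx
      have : (ρ + ρ') * (a - mu * dx) = 0 := by linear_combination h5 - dx * hmu1
      rcases mul_eq_zero.mp this with h' | h'
      · exact absurd h' hs.ne'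
      · rw [ha] at h'; linarith
    · show X.im = (ctr r e t).im + mu * dy
      have : (ρ + ρ') * (b - mu * dy) = 0 := by linear_combination h6 - dy * hmu1
      rcases mul_eq_zero.mp this with h' | h'
      · exact absurd h' hs.ne'
      · rw [hb] at h'; linarith
  · rintro rfl
    simp only
    constructor
    · linear_combination mu ^ 2 * hext + (mu * (ρ + ρ') + ρ) * hmu1
    · linear_combination (mu - 1) ^ 2 * hext +
        (mu * (ρ + ρ') + ρ - 2 * (ρ + ρ')) * hmu1

theorem exists_contact_cs (h : Dom r e) {t ψ : ℝ} (hrel : Rel r e .c .s t ψ) :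
    ∃ P, elt r e .c t ∩ elt r e .s ψ = {P} := by
  have hcos := (rel_cs_iff h t ψ).mpr hrel
  refine ⟨qpt r e ψ ((r + rho r e t) * sin (t - ψ)), ?_⟩
  ext X
  rw [Set.mem_inter_iff, Set.mem_singleton_iff]
  constructor
  · rintro ⟨h1, h2⟩
    rw [mem_chord_iff h] at h2
    obtain ⟨σ, rfl, _⟩ := h2
    rw [qpt_mem_circle_iff h, hcos] at h1
    have : σ - (r + rho r e t) * sin (t - ψ) = 0 := by
      apply sq_zero_of_le
      linarith
    rw [show σ = (r + rho r e t) * sin (t - ψ) by linarith]
  · rintro rfl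
    have h1 : qpt r e ψ ((r + rho r e t) * sin (t - ψ)) ∈ elt r e .c t := by
      rw [qpt_mem_circle_iff h, hcos]; ring
    exact ⟨h1, (qpt_mem_chord_iff h _ _).mpr (circle_in_disc h t h1)⟩

theorem exists_contact_ss (h : Dom r e) (t : ℝ) :
    ∃ P, elt r e .s t ∩ elt r e .s (step r e .s .s t) = {P} ∧ P ∈ (ann h).k := by
  have hr := h.r_pos
  have hlp := hl_pos h t
  set t' := step r e .s .s t with ht'
  have hf := fstep_pos h .s .s t
  set f := fstep r e .s .s t with hfd
  have hdiff : t' - t = 2 * arctan f := by rw [ht']; unfold step; ring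
  have hsin : sin (t' - t) = 2 * f / (1 + f ^ 2) := by rw [hdiff, sin_two_arctan]
  have hcos : cos (t' - t) = (1 - f ^ 2) / (1 + f ^ 2) := by rw [hdiff, cos_two_arctan]
  set σ := e * sin t + hl r e t with hσ
  have hfσ : f * r = σ := by
    rw [hfd, hσ]
    simp only [fstep, hl]
    field_simp
  have hcs := sin_sq_add_cos_sq t
  have hf1 : 0 < 1 + f ^ 2 := by positivity
  have hS : (1 + f ^ 2) * sin (t' - t) = 2 * f := by rw [hsin]; field_simp
  have hC : (1 + f ^ 2) * cos (t' - t) = 1 - f ^ 2 := by rw [hcos]; field_simp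
  have hst' : sin t' = sin t * cos (t' - t) + cos t * sin (t' - t) := by
    rw [← sin_add]; congr 1; ring
  have hct' : cos t' = cos t * cos (t' - t) - sin t * sin (t' - t) := by
    rw [← cos_add]; congr 1; ring
  have hPP : qpt r e t σ = qpt r e t' (-σ) := by
    have e1 : (1 + f ^ 2) * cos t' = (1 - f ^ 2) * cos t - 2 * f * sin t := by
      rw [hct']; linear_combination cos t * hC - sin t * hS
    have e2 : (1 + f ^ 2) * sin t' = (1 - f ^ 2) * sin t + 2 * f * cos t := by
      rw [hst']; linear_combination sin t * hC + cos t * hS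
    apply Complex.ext
    · simp only [qpt]
      have : (1 + f ^ 2) * (e + r * cos t - σ * sin t - (e + r * cos t' - -σ * sin t')) = 0 := by
        rw [← hfσ]
        linear_combination (-r) * e1 - (f * r) * e2
      rcases mul_eq_zero.mp this with h' | h'
      · exact absurd h' hf1.ne'
      · linarith
    · simp only [qpt]
      have : (1 + f ^ 2) * (r * sin t + σ * cos t - (r * sin t' + -σ * cos t')) = 0 := by
        rw [← hfσ]
        linear_combination (-r) * e2 + (f * r) * e1
      rcases mul_eq_zero.mp this with h' | h'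
      · exact absurd h' hf1.ne'
      · linarith
  have hk : qpt r e t σ ∈ (ann h).k := by
    rw [qpt_mem_k_iff h, hσ]; ring
  have hk1 : (qpt r e t σ).re ^ 2 + (qpt r e t σ).im ^ 2 ≤ 1 := ((mem_k_iff h _).mp hk).le
  refine ⟨qpt r e t σ, ?_, hk⟩
  ext X
  rw [Set.mem_inter_iff, Set.mem_singleton_iff]
  constructor
  · rintro ⟨h1, h2⟩
    rw [mem_chord_iff h] at h1 h2
    obtain ⟨τ, rfl, _⟩ := h1
    obtain ⟨τ', hτ, _⟩ := h2
    have hcs' := sin_sq_add_cos_sq t'
    have hre := congrArg Complex.re hτ
    have him := congrArg Complex.im hτ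
    simp only [qpt] at hre him
    have hsq : τ ^ 2 = τ' ^ 2 := by
      linear_combination (-τ ^ 2 - r ^ 2) * hcs + (r ^ 2 + τ' ^ 2) * hcs' +
        (r * cos t - τ * sin t + r * cos t' - τ' * sin t') * hre +
        (r * sin t + τ * cos t + r * sin t' + τ' * cos t') * him
    have hpos : 0 < r ^ 2 + τ ^ 2 := by positivity
    have hSpos : 0 < sin (t' - t) := sin_step_pos h .s .s t
    rcases sq_eq_sq_iff_eq_or_eq_neg.mp hsq with h1 | h1
    · exfalso
      rw [← h1] at hre him
      have c1 : (r ^ 2 + τ ^ 2) * (cos t - cos t') = 0 := by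
        linear_combination r * hre + τ * him
      have c2 : (r ^ 2 + τ ^ 2) * (sin t - sin t') = 0 := by
        linear_combination (-τ) * hre + r * him
      have d1 : cos t' = cos t := by
        rcases mul_eq_zero.mp c1 with h' | h'
        · exact absurd h' hpos.ne'
        · linarith
      have d2 : sin t' = sin t := by
        rcases mul_eq_zero.mp c2 with h' | h'
        · exact absurd h' hpos.ne'
        · linarith
      rw [sin_sub, d1, d2] at hSpos
      linarith
    · have h1' : τ' = -τ := by linarith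
      rw [h1'] at hre him
      have c1 : (r ^ 2 + τ ^ 2) * cos t' = (r ^ 2 - τ ^ 2) * cos t - 2 * r * τ * sin t := by
        linear_combination (-r) * hre + τ * him
      have c2 : (r ^ 2 + τ ^ 2) * sin t' = (r ^ 2 - τ ^ 2) * sin t + 2 * r * τ * cos t := by
        linear_combination (-τ) * hre - r * him
      have hS' : (r ^ 2 + τ ^ 2) * sin (t' - t) = 2 * r * τ := by
        rw [sin_sub]
        linear_combination (cos t) * c2 - (sin t) * c1 + (2 * r * τ) * hcs
      have hC' : (r ^ 2 + τ ^ 2) * cos (t' - t) = r ^ 2 - τ ^ 2 := by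
        rw [cos_sub]
        linear_combination (sin t) * c2 + (cos t) * c1 + (r ^ 2 - τ ^ 2) * hcs
      -- τ = r f
      have g1 : (r ^ 2 + τ ^ 2) * ((1 + cos (t' - t)) * τ - r * sin (t' - t)) = 0 := by
        linear_combination τ * hC' - r * hS'
      have g2 : (1 + cos (t' - t)) * τ = r * sin (t' - t) := by
        rcases mul_eq_zero.mp g1 with h' | h'
        · exact absurd h' hpos.ne'
        · linarith
      have g3 : (1 + f ^ 2) * ((1 + cos (t' - t)) * τ) = 2 * τ := by
        linear_combination τ * hC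
      have g4 : (1 + f ^ 2) * (r * sin (t' - t)) = 2 * (f * r) := by
        linear_combination r * hS
      rw [g2, g4, hfσ] at g3
      rw [show τ = σ by linarith]
  · rintro rfl
    refine ⟨(qpt_mem_chord_iff h _ _).mpr hk1, ?_⟩
    rw [hPP] at hk1 ⊢
    exact (qpt_mem_chord_iff h _ _).mpr hk1

/-- consecutive elements of a run touch -/
theorem exists_contact_step (h : Dom r e) (x y : Letter) (t : ℝ) :
    ∃ P, IsContact (ann h) x y (elt r e x t) (elt r e y (step r e x y t)) P := by
  have hrel := step_rel h x y t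
  rcases x with _ | _ <;> rcases y with _ | _
  · obtain ⟨P, hP⟩ := exists_contact_cc h hrel
    exact ⟨P, hP, fun hh => by cases hh⟩
  · obtain ⟨P, hP⟩ := exists_contact_cs h hrel
    exact ⟨P, hP, fun hh => by cases hh⟩
  · obtain ⟨P, hP⟩ := exists_contact_cs h ((rel_sc_iff _ _).mp hrel)
    rw [Set.inter_comm] at hP
    exact ⟨P, hP, fun _ hh => by cases hh⟩
  · obtain ⟨P, hP, hk⟩ := exists_contact_ss h t
    exact ⟨P, hP, fun _ _ => hk⟩

end

end Pool.Agent.H44.PS
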