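import Mathlib
import Pool.Agent.H44.PS.Contact3
import Pool.Agent.H44.PS.Core

/-!
# Chains are runs
-/

namespace Pool.Agent.H44.PS

open Real

noncomputable section

variable {r e : ℝ}

/-- congruence of angles -/
def Cong (a b : ℝ) : Prop := cos a = cos b ∧ sin a = sin b

theorem Cong.refl (a : ℝ) : Cong a a := ⟨rfl, rfl⟩

theorem Cong.symm {a b : ℝ} (h : Cong a b) : Cong b a := ⟨h.1.symm, h.2.symm⟩

theorem Cong.trans {a b c : ℝ} (h : Cong a b) (h' : Cong b c) : Cong a c :=
  ⟨h.1.trans h'.1, h.2.trans h'.2⟩

theorem Cong.neg {a b : ℝ} (h : Cong a b) : Cong (-a) (-b) := by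
  refine ⟨?_, ?_⟩
  · rw [cos_neg, cos_neg, h.1]
  · rw [sin_neg, sin_neg, h.2]

theorem Cong.step {a b : ℝ} (h : Cong a b) (x y : Letter) :
    Cong (PS.step r e x y a) (PS.step r e x y b) := by
  have hf : fstep r e x y a = fstep r e x y b := by
    rcases x with _ | _ <;> rcases y with _ | _ <;> simp only [fstep, fN, fL, fJ, h.1, h.2]
  unfold PS.step
  rw [hf]
  constructor
  · rw [cos_add, cos_add, h.1, h.2]
  · rw [sin_add, sin_add, h.1, h.2]

theorem Cong.run {a b : ℝ} (h : Cong a b) (l : ℕ → Letter) (j i : ℕ) :
    Cong (PS.run r e l j i a) (PS.run r e l j i b) := by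
  induction i with
  | zero => exact h
  | succ i ih => exact ih.step _ _

theorem Cong.sin_half {a b : ℝ} (h : Cong a b) : sin ((a - b) / 2) = 0 := by
  have h1 : cos (a - b) = 1 := by
    rw [cos_sub, h.1, h.2]
    have := sin_sq_add_cos_sq b
    linarith
  have h2 : cos (a - b) = 1 - 2 * sin ((a - b) / 2) ^ 2 := by
    rw [← cos_sq_half_sub_sin_sq_half' (a - b)]
  rw [h1] at h2
  exact (pow_eq_zero_iff two_ne_zero).mp (by linarith)
where
  cos_sq_half_sub_sin_sq_half' (x : ℝ) : cos x = 1 - 2 * sin (x / 2) ^ 2 := by
    have h1 := cos_two_mul (x / 2)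
    have h2 := sin_sq_add_cos_sq (x / 2)
    rw [show 2 * (x / 2) = x by ring] at h1
    linarith

theorem elt_eq_of_cong {x : Letter} {a b : ℝ} (h : Cong a b) : elt r e x a = elt r e x b :=
  elt_congr h.1 h.2

theorem letter_period (w : List Letter) (i : ℕ) : letter w (i + w.length) = letter w i := by
  unfold letter
  rw [Nat.add_mod_right]

/-- A chain over a word of length at least two follows the step maps, either always forward or
always backward. -/
theorem chain_run (h : Dom r e) {w : List Letter} (hn : 2 ≤ w.length) {u : ℕ → Set ℂ}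
    (hu : IsChain (ann h) w u) {t : ℝ} (h0 : u 0 = elt r e (letter w 0) t) :
    (∀ i ≤ w.length, u i = elt r e (letter w i) (run r e (letter w) 0 i t)) ∨
    (∀ i ≤ w.length, u i = elt r e (letter w i) (-run r e (letter w) 0 i (-t))) := by
  set n := w.length with hnd
  set l := letter w with hl
  -- choose the angles
  have hex : ∀ i, ∃ s, i ≤ n → u i = elt r e (l i) s := by
    intro i
    by_cases hi : i ≤ n
    · obtain ⟨s, hs⟩ := exists_elt h (hu.element i hi)
      exact ⟨s, fun _ => hs⟩
    · exact ⟨0, fun h' => absurd h' hi⟩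
  choose s hs using hex
  -- the contact points
  have hexP : ∀ i, ∃ P, i < n → IsContact (ann h) (l i) (l (i + 1)) (u i) (u (i + 1)) P := by
    intro i
    by_cases hi : i < n
    · obtain ⟨P, hP⟩ := hu.contact i hi
      exact ⟨P, fun _ => hP⟩
    · exact ⟨0, fun h' => absurd h' hi⟩
  choose P hP using hexP
  have hP' : ∀ i, i < n →
      IsContact (ann h) (l i) (l (i + 1)) (elt r e (l i) (s i)) (elt r e (l (i + 1)) (s (i + 1)))
        (P i) := by
    intro i hi
    have := hP i hi
    rwa [hs i hi.le, hs (i + 1) hi] at this
  have hsep : ∀ i, i + 1 < n →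
      side r e (l (i + 1)) (s (i + 1)) (P i) * side r e (l (i + 1)) (s (i + 1)) (P (i + 1)) < 0 := by
    intro i hi
    have h1 := hu.separated i hi (P i) (P (i + 1)) (hP i (by omega)) (hP (i + 1) hi)
    rw [hs (i + 1) hi.le] at h1
    have hm1 : P i ∈ elt r e (l (i + 1)) (s (i + 1)) := by
      have : P i ∈ elt r e (l i) (s i) ∩ elt r e (l (i + 1)) (s (i + 1)) := by
        rw [(hP' i (by omega)).1]; rfl
      exact this.2
    have hm2 : P (i + 1) ∈ elt r e (l (i + 1)) (s (i + 1)) := by
      have : P (i + 1) ∈ elt r e (l (i + 1)) (s (i + 1)) ∩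
          elt r e (l (i + 1 + 1)) (s (i + 1 + 1)) := by
        rw [(hP' (i + 1) hi).1]; rfl
      exact this.1
    exact (separates_iff h _ _ hm1 hm2).mp h1
  -- all contacts are non-degenerate
  have hgood : ∀ i, i < n → Rel r e (l i) (l (i + 1)) (s i) (s (i + 1)) ∧
      0 < side r e (l i) (s i) (P i) * sin (s (i + 1) - s i) ∧
      side r e (l (i + 1)) (s (i + 1)) (P i) * sin (s (i + 1) - s i) < 0 := by
    intro i hi
    rcases contact_info h (hP' i hi) with h1 | ⟨_, h1, h2⟩
    · exact h1
    · exfalso
      by_cases hi' : i + 1 < n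
      · have := hsep i hi'
        rw [h2, zero_mul] at this
        exact lt_irrefl _ this
      · obtain ⟨j, rfl⟩ : ∃ j, i = j + 1 := ⟨i - 1, by omega⟩
        have := hsep j (by omega)
        rw [h1, mul_zero] at this
        exact lt_irrefl _ this
  -- consecutive directions agree
  have hdir : ∀ i, i + 1 < n →
      0 < sin (s (i + 1) - s i) * sin (s (i + 1 + 1) - s (i + 1)) := by
    intro i hi
    have h1 := (hgood i (by omega)).2.2
    have h2 := (hgood (i + 1) hi).2.1
    have h3 := hsep i hi
    set a := side r e (l (i + 1)) (s (i + 1)) (P i)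
    set b := side r e (l (i + 1)) (s (i + 1)) (P (i + 1))
    set p := sin (s (i + 1) - s i)
    set q := sin (s (i + 1 + 1) - s (i + 1))
    have h4 : 0 < (a * b) * (p * q) * (-1) := by
      have : 0 < -(a * p) * (b * q) := mul_pos (by linarith) h2
      linarith
    have h5 : 0 < (-(a * b)) * (p * q) := by linarith
    exact (mul_pos_iff_of_pos_left (by linarith)).mp h5
  have hct0 : Cong (s 0) t := by
    have h1 := hs 0 (by omega)
    rw [h0] at h1
    exact (elt_inj h h1.symm)
  have hne0 : sin (s 1 - s 0) ≠ 0 := by
    intro h1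
    have := (hgood 0 (by omega)).2.1
    rw [zero_add, h1, mul_zero] at this
    exact lt_irrefl _ this
  rcases lt_or_gt_of_ne hne0 with hneg | hpos
  · right
    have hall : ∀ i, i < n → sin (s (i + 1) - s i) < 0 := by
      intro i
      induction i with
      | zero => intro _; exact hneg
      | succ i ih =>
        intro hi
        have h1 := ih (by omega)
        have h2 := hdir i hi
        by_contra hcon
        push Not at hcon
        have := mul_nonneg (by linarith : 0 ≤ -sin (s (i + 1) - s i)) hcon
        linarith
    have hcong : ∀ i, i ≤ n → Cong (s i) (-run r e l 0 i (-t)) := by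
      intro i
      induction i with
      | zero =>
        intro _
        show Cong (s 0) (-(-t))
        rw [neg_neg]; exact hct0
      | succ i ih =>
        intro hi
        have h1 : Cong (s (i + 1)) (-PS.step r e (l i) (l (i + 1)) (-s i)) :=
          rel_unique_neg h (hgood i hi).1 (hall i hi)
        refine h1.trans ?_
        have h2 := (ih (by omega)).neg
        rw [neg_neg] at h2
        have h3 := (h2.step (r := r) (e := e) (l i) (l (i + 1))).neg
        have h4 : run r e l 0 (i + 1) (-t) =
            PS.step r e (l i) (l (i + 1)) (run r e l 0 i (-t)) := by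
          simp only [run, zero_add]
        rw [h4]
        exact h3
    intro i hi
    rw [hs i hi]
    exact elt_eq_of_cong (hcong i hi)
  · left
    have hall : ∀ i, i < n → 0 < sin (s (i + 1) - s i) := by
      intro i
      induction i with
      | zero => intro _; exact hpos
      | succ i ih =>
        intro hi
        have h1 := ih (by omega)
        have h2 := hdir i hi
        exact (mul_pos_iff_of_pos_left h1).mp h2
    have hcong : ∀ i, i ≤ n → Cong (s i) (run r e l 0 i t) := by
      intro i
      induction i with
      | zero => intro _; exact hct0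
      | succ i ih =>
        intro hi
        have h1 : Cong (s (i + 1)) (PS.step r e (l i) (l (i + 1)) (s i)) :=
          rel_unique h (hgood i hi).1 (hall i hi)
        refine h1.trans ?_
        have h3 := (ih (by omega)).step (r := r) (e := e) (l i) (l (i + 1))
        have h4 : run r e l 0 (i + 1) t =
            PS.step r e (l i) (l (i + 1)) (run r e l 0 i t) := by
          simp only [run, zero_add]
        rw [h4]
        exact h3
    intro i hi
    rw [hs i hi]
    exact elt_eq_of_cong (hcong i hi)

/-- If a chain closes, then the run from `t` or the run from `-t` closes. -/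
theorem sin_of_closing (h : Dom r e) {w : List Letter} (hn : 2 ≤ w.length) {u : ℕ → Set ℂ}
    (hu : IsChain (ann h) w u) {t : ℝ} (h0 : u 0 = elt r e (letter w 0) t)
    (hcl : u w.length = elt r e (letter w 0) t) :
    sin ((run r e (letter w) 0 w.length t - t) / 2) = 0 ∨
    sin ((run r e (letter w) 0 w.length (-t) + t) / 2) = 0 := by
  rcases chain_run h hn hu h0 with h1 | h1
  · left
    have h2 := h1 w.length le_rfl
    rw [hcl] at h2
    have h3 : Cong t (run r e (letter w) 0 w.length t) := elt_inj h h2
    exact h3.symm.sin_half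
  · right
    have h2 := h1 w.length le_rfl
    rw [hcl] at h2
    have h3 : Cong t (-run r e (letter w) 0 w.length (-t)) := elt_inj h h2
    have h4 := h3.symm.neg
    rw [neg_neg] at h4
    have h5 := h4.sin_half
    rwa [sub_neg_eq_add] at h5

/-- the run as a chain -/
theorem run_isChain (h : Dom r e) (w : List Letter) (t : ℝ) :
    IsChain (ann h) w (fun i => elt r e (letter w i) (run r e (letter w) 0 i t)) := by
  have hstep : ∀ i, run r e (letter w) 0 (i + 1) t =
      PS.step r e (letter w i) (letter w (i + 1)) (run r e (letter w) 0 i t) := by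
    intro i; simp only [run, zero_add]
  refine ⟨fun i _ => isElement_elt h _ _, ?_, ?_⟩
  · intro i _
    simp only [hstep]
    exact exists_contact_step h _ _ _
  · intro i _ P Q hP hQ
    have hm1 : P ∈ elt r e (letter w (i + 1)) (run r e (letter w) 0 (i + 1) t) := by
      have : P ∈ elt r e (letter w i) (run r e (letter w) 0 i t) ∩
        elt r e (letter w (i + 1)) (run r e (letter w) 0 (i + 1) t) := by
        rw [hP.1]; rfl
      exact this.2
    have hm2 : Q ∈ elt r e (letter w (i + 1)) (run r e (letter w) 0 (i + 1) t) := by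
      have : Q ∈ elt r e (letter w (i + 1)) (run r e (letter w) 0 (i + 1) t) ∩
        elt r e (letter w (i + 2)) (run r e (letter w) 0 (i + 2) t) := by
        rw [hQ.1]; rfl
      exact this.1
    show Separates _ _ _ P Q
    rw [separates_iff h _ _ hm1 hm2]
    have s1 : 0 < sin (run r e (letter w) 0 (i + 1) t - run r e (letter w) 0 i t) := by
      rw [hstep i]; exact sin_step_pos h _ _ _
    have s2 : 0 < sin (run r e (letter w) 0 (i + 2) t - run r e (letter w) 0 (i + 1) t) := by
      rw [hstep (i + 1)]; exact sin_step_pos h _ _ _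
    have aux : ∀ {a b : ℝ}, 0 < sin (a - b) → cos (a - b) ≠ 1 := by
      intro a b h1 h2
      have := sin_sq_add_cos_sq (a - b)
      rw [h2] at this
      nlinarith
    have k1 : side r e (letter w (i + 1)) (run r e (letter w) 0 (i + 1) t) P < 0 := by
      rcases contact_info h hP with h1 | ⟨h1, _⟩
      · by_contra hcon
        push Not at hcon
        have := mul_nonneg hcon s1.le
        linarith [h1.2.2]
      · exact absurd h1 (aux s1)
    have k2 : 0 < side r e (letter w (i + 1)) (run r e (letter w) 0 (i + 1) t) Q := by
      rcases contact_info h hQ with h1 | ⟨h1, _⟩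
      · exact (mul_pos_iff_of_pos_right s2).mp h1.2.1
      · exact absurd h1 (aux s2)
    exact mul_neg_of_neg_of_pos k1 k2

theorem letter_length (w : List Letter) : letter w w.length = letter w 0 := by
  have := letter_period w 0
  rwa [zero_add] at this

/-- The geometric form of the core statement: for a word of length at least three containing
(cyclically) `css` or `scc` there are an annulus, an initial element from which some chain exists
and all chains close, and an initial element from which no chain closes. -/
theorem core_geom (w : List Letter) (hn : 3 ≤ w.length)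
    (hpat : ∃ j, (letter w j = .s ∧ letter w (j + 1) = .s ∧ letter w (j + (w.length - 1)) = .c) ∨
      (letter w j = .c ∧ letter w (j + 1) = .c ∧ letter w (j + (w.length - 1)) = .s)) :
    ∃ (a : Annulus) (u₁ u₂ : Set ℂ), IsElement a (letter w 0) u₁ ∧ IsElement a (letter w 0) u₂ ∧
      Closes a w u₁ ∧ (∀ u, IsChain a w u → u 0 = u₁ → u w.length = u₁) ∧
      (∃ u, IsChain a w u ∧ u 0 = u₂) ∧ (∀ u, IsChain a w u → u 0 = u₂ → u w.length ≠ u₂) := by
  obtain ⟨r, e, h, hclose, t, ht1, ht2⟩ := core (letter w) hn (letter_period w) hpat
  have c2 : Cong (2 * π) 0 := ⟨by rw [cos_two_pi, cos_zero], by rw [sin_two_pi, sin_zero]⟩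
  have hcl0 : elt r e (letter w w.length) (run r e (letter w) 0 w.length 0) =
      elt r e (letter w 0) 0 := by
    rw [hclose, letter_length]
    exact elt_eq_of_cong c2
  refine ⟨ann h, elt r e (letter w 0) 0, elt r e (letter w 0) t, isElement_elt h _ _,
    isElement_elt h _ _, ⟨_, run_isChain h w 0, rfl, hcl0⟩, ?_, ⟨_, run_isChain h w t, rfl⟩, ?_⟩
  · intro u hu h0
    rcases chain_run h (by omega) hu h0 with h1 | h1
    · rw [h1 _ le_rfl]; exact hcl0
    · rw [h1 _ le_rfl, neg_zero, hclose, letter_length]
      have := c2.neg
      rw [neg_zero] at this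
      exact elt_eq_of_cong this
  · intro u hu h0 hcl
    rcases sin_of_closing h (by omega) hu h0 hcl with h1 | h1
    · exact ht1 h1
    · exact ht2 h1

end

end Pool.Agent.H44.PS
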