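import Mathlib
import Pool.Agent.H44.PS.Defs

/-!
# Combinatorics of words
-/

namespace Pool.Agent.H44.PS

theorem letter_eq_getElem (w : List Letter) (i : ℕ) (hi : i < w.length) :
    letter w i = w[i] := by
  unfold letter
  rw [Nat.mod_eq_of_lt hi]
  exact List.getD_eq_getElem w Letter.c hi

theorem letter_periodic (w : List Letter) (i k : ℕ) :
    letter w (i + w.length * k) = letter w i := by
  unfold letter
  rw [Nat.add_mul_mod_self_left]

theorem alternating_flatten (a b : Letter) : ∀ (m : ℕ) (w : List Letter), w.length = 2 * m →
    (∀ i (hi : i < w.length), w[i] = if i % 2 = 0 then a else b) →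
    w = (List.replicate m [a, b]).flatten := by
  intro m
  induction m with
  | zero =>
    intro w hw _
    have : w = [] := List.length_eq_zero_iff.mp (by omega)
    simp [this]
  | succ m ih =>
    intro w hw hi
    match w, hw, hi with
    | [], hw, _ => simp at hw
    | [_], hw, _ => simp at hw; omega
    | x :: y :: w', hw, hi =>
      have h0 := hi 0 (by simp)
      have h1 := hi 1 (by simp)
      simp only [List.getElem_cons_zero, List.getElem_cons_succ] at h0 h1
      norm_num at h0 h1
      have h2 : w' = (List.replicate m [a, b]).flatten := by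
        apply ih w' (by simp at hw; omega)
        intro i hi'
        have := hi (i + 2) (by simp; omega)
        simp only [List.getElem_cons_succ] at this
        rw [this]
        have e1 : (i + 2) % 2 = i % 2 := by omega
        rw [e1]
      rw [List.replicate_succ, List.flatten_cons, ← h2, h0, h1]
      rfl

/-- A word of length at least three is a power of a letter, alternating of even length, or contains
`css` or `scc` cyclically. -/
theorem word_cases (w : List Letter) (hn : 3 ≤ w.length) :
    (w = List.replicate w.length .s ∨ w = List.replicate w.length .c) ∨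
    (∃ m, 2 ≤ m ∧ (w = (List.replicate m [Letter.c, Letter.s]).flatten ∨
      w = (List.replicate m [Letter.s, Letter.c]).flatten)) ∨
    ∃ j, (letter w j = .s ∧ letter w (j + 1) = .s ∧ letter w (j + (w.length - 1)) = .c) ∨
      (letter w j = .c ∧ letter w (j + 1) = .c ∧ letter w (j + (w.length - 1)) = .s) := by
  by_cases hpat : ∃ j, (letter w j = .s ∧ letter w (j + 1) = .s ∧
      letter w (j + (w.length - 1)) = .c) ∨
      (letter w j = .c ∧ letter w (j + 1) = .c ∧ letter w (j + (w.length - 1)) = .s)
  · exact Or.inr (Or.inr hpat)
  by_cases hj : ∃ j, letter w j = letter w (j + 1)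
  · -- constant word
    left
    obtain ⟨j, hj⟩ := hj
    have hback : ∀ i, letter w i = letter w (i + 1) →
        letter w (i + (w.length - 1)) = letter w i := by
      intro i hi
      by_contra hcon
      apply hpat
      refine ⟨i, ?_⟩
      rcases h1 : letter w i with _ | _ <;> rcases h2 : letter w (i + (w.length - 1)) with _ | _
      · exact absurd (h2.trans h1.symm) hcon
      · right; exact ⟨rfl, by rw [← hi, h1], rfl⟩
      · left; exact ⟨rfl, by rw [← hi, h1], rfl⟩
      · exact absurd (h2.trans h1.symm) hcon
    have hall : ∀ m, letter w (j + m * (w.length - 1)) = letter w j ∧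
        letter w (j + m * (w.length - 1)) = letter w (j + m * (w.length - 1) + 1) := by
      intro m
      induction m with
      | zero =>
        simp only [Nat.zero_mul, Nat.add_zero]
        exact ⟨trivial, hj⟩
      | succ m ih =>
        have e1 : j + (m + 1) * (w.length - 1) = j + m * (w.length - 1) + (w.length - 1) := by ring
        have h1 := hback _ ih.2
        rw [e1]
        refine ⟨h1.trans ih.1, ?_⟩
        have e2 : j + m * (w.length - 1) + (w.length - 1) + 1 =
            j + m * (w.length - 1) + w.length * 1 := by omega
        rw [e2, letter_periodic, h1]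
    have hconst : ∀ i, letter w i = letter w j := by
      intro i
      have h1 := (hall (j + i * (w.length - 1))).1
      have e1 : j + (j + i * (w.length - 1)) * (w.length - 1) =
          i + w.length * (j + i * (w.length - 2)) := by
        obtain ⟨k, hk⟩ : ∃ k, w.length = k + 2 := ⟨w.length - 2, by omega⟩
        rw [hk]
        simp only [Nat.add_sub_cancel, Nat.add_succ_sub_one]
        ring
      rw [e1, letter_periodic] at h1
      exact h1
    have hrep : w = List.replicate w.length (letter w j) := by
      apply List.ext_getElem (by simp)
      intro i h1 h2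
      rw [List.getElem_replicate, ← hconst i, letter_eq_getElem w i h1]
    rcases h3 : letter w j with _ | _
    · right; rw [h3] at hrep; exact hrep
    · left; rw [h3] at hrep; exact hrep
  · -- alternating word
    right; left
    push Not at hj
    have hne : ∀ x y z : Letter, x ≠ y → y ≠ z → x = z := by
      intro x y z
      rcases x with _ | _ <;> rcases y with _ | _ <;> rcases z with _ | _ <;> simp
    have h2 : ∀ i, letter w (i + 2) = letter w i := by
      intro i
      exact (hne _ _ _ (hj i) (hj (i + 1))).symm
    have hpar : ∀ i, letter w i = if i % 2 = 0 then letter w 0 else letter w 1 := by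
      intro i
      induction i using Nat.strong_induction_on with
      | _ i ih =>
        rcases i with _ | _ | i
        · simp
        · simp
        · rw [h2, ih i (by omega)]
          have e1 : (i + 2) % 2 = i % 2 := by omega
          rw [show i + 1 + 1 = i + 2 by ring, e1]
    have heven : w.length % 2 = 0 := by
      by_contra hodd
      have h3 := letter_periodic w 0 1
      rw [zero_add, mul_one, hpar w.length, if_neg hodd] at h3
      exact hj 0 h3.symm
    refine ⟨w.length / 2, by omega, ?_⟩
    have hw := alternating_flatten (letter w 0) (letter w 1) (w.length / 2) w (by omega)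
      (by intro i hi; rw [← letter_eq_getElem w i hi]; exact hpar i)
    have h01 := hj 0
    rcases ha : letter w 0 with _ | _ <;> rcases hb : letter w 1 with _ | _
    · rw [zero_add, ha, hb] at h01; exact absurd rfl h01
    · left; rw [ha, hb] at hw; exact hw
    · right; rw [ha, hb] at hw; exact hw
    · rw [zero_add, ha, hb] at h01; exact absurd rfl h01

/-- An element is not a single point. -/
theorem element_ne_singleton {a : Annulus} {x : Letter} {u : Set ℂ} (hu : IsElement a x u)
    (P : ℂ) : u ≠ {P} := by
  rintro rfl
  rcases x with _ | _
  · obtain ⟨z, ρ, hρ, h1, _, _⟩ := hu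
    have m1 : z + (ρ : ℂ) ∈ ({P} : Set ℂ) := by
      rw [h1, Metric.mem_sphere, dist_eq_norm, add_sub_cancel_left, Complex.norm_real,
        Real.norm_eq_abs, abs_of_pos hρ]
    have m2 : z - (ρ : ℂ) ∈ ({P} : Set ℂ) := by
      rw [h1, Metric.mem_sphere, dist_eq_norm, sub_sub_cancel_left, norm_neg, Complex.norm_real,
        Real.norm_eq_abs, abs_of_pos hρ]
    rw [Set.mem_singleton_iff] at m1 m2
    rw [← m2] at m1
    have h2 : (ρ : ℂ) = 0 := by linear_combination (1 / 2 : ℂ) * m1
    exact hρ.ne' (Complex.ofReal_eq_zero.mp h2)
  · obtain ⟨A, B, _, _, hne, h1, _⟩ := hu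
    have m1 : A ∈ ({P} : Set ℂ) := by rw [h1]; exact left_mem_segment ℝ A B
    have m2 : B ∈ ({P} : Set ℂ) := by rw [h1]; exact right_mem_segment ℝ A B
    exact hne (m1.trans m2.symm)

/-- no chain of length at most two closes -/
theorem not_closes_short {a : Annulus} {w : List Letter} (hw : w ≠ []) (hn : w.length ≤ 2)
    {u : ℕ → Set ℂ} (hu : IsChain a w u) : u w.length ≠ u 0 := by
  intro hcl
  have hpos : 0 < w.length := List.length_pos_of_ne_nil hw
  obtain ⟨P, hP⟩ := hu.contact 0 hpos
  rcases (by omega : w.length = 1 ∨ w.length = 2) with h1 | h2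
  · have h3 := hP.1
    rw [h1] at hcl
    rw [zero_add, hcl, Set.inter_self] at h3
    exact element_ne_singleton (hu.element 0 (by omega)) P h3
  · obtain ⟨Q, hQ⟩ := hu.contact 1 (by omega)
    have hs := hu.separated 0 (by omega) P Q hP hQ
    have h3 := hP.1
    have h4 := hQ.1
    rw [h2] at hcl
    simp only [zero_add, Nat.reduceAdd] at h3 h4 hs
    rw [hcl, Set.inter_comm, h3] at h4
    have h5 : P = Q := Set.singleton_eq_singleton_iff.mp h4
    subst h5
    rcases hx : letter w 1 with _ | _
    · rw [hx] at hs
      obtain ⟨A, B, _, _, h6⟩ := hs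
      exact h6.not_sSameSide (by
        refine ⟨?_, h6.left_notMem, h6.left_notMem⟩
        exact AffineSubspace.wSameSide_self_iff.mpr ⟨A, left_mem_affineSpan_pair ℝ A B⟩)
    · rw [hx] at hs
      obtain ⟨T, _, h6⟩ := hs
      exact absurd rfl h6.left_ne_right

end Pool.Agent.H44.PS
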